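import Mathlib

set_option autoImplicit false

/-!
# Sums of two integers with few primes that are perfect powers

Definitions and the statements of the intermediate results: solutions of `u + w = z ^ m`.
-/

namespace Pool.Agent.TH876.PW

open Finset

/-- nonzero integers `u`, `w` with greatest common divisor at most two and a positive integer `z`
with `u + w = z ^ m` -/
structure Sol (m : ℕ) (u w : ℤ) (z : ℕ) : Prop where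
  eq : u + w = (z : ℤ) ^ m
  u0 : u ≠ 0
  w0 : w ≠ 0
  z0 : 0 < z
  gcd : Int.gcd u w ∣ 2

/-- the primes dividing `n` -/
def sp (n : ℤ) : Finset ℕ := n.natAbs.primeFactors

/-- the exponent of `p` in `n` -/
def vl (p : ℕ) (n : ℤ) : ℕ := n.natAbs.factorization p

/-- the logarithm of the part of `n` composed of the primes in `T` -/
noncomputable def wt (T : Finset ℕ) (n : ℤ) : ℝ := ∑ p ∈ T, (vl p n : ℝ) * Real.log p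

/-- the logarithm of the product of the elements of `T` -/
noncomputable def lr (T : Finset ℕ) : ℝ := ∑ p ∈ T, Real.log p

/-- the logarithm of the larger absolute value -/
noncomputable def ht (u w : ℤ) : ℝ := Real.log (max |(u : ℝ)| |(w : ℝ)|)

/-- the largest positive integer of which the `m`-th power divides `u` -/
def rt (m : ℕ) (u : ℤ) : ℕ := ∏ p ∈ sp u, p ^ (vl p u / m)

/-- the same class with respect to `T` -/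
structure Same (m : ℕ) (T : Finset ℕ) (u w : ℤ) (z : ℕ) (u' w' : ℤ) (z' : ℕ) : Prop where
  sgn : u.sign = u'.sign
  sup : sp u = sp u'
  exp : ∀ p ∈ sp u, vl p u % m = vl p u' % m
  bit : 2 * |w| ≤ |u| ↔ 2 * |w'| ≤ |u'|
  one : z = 1 ↔ z' = 1
  res : ∀ p ∈ T, p ≠ 2 → (p : ℤ) ∣ (rt m u : ℤ) * z' - (rt m u' : ℤ) * z
  two : 2 ∈ T → ¬ (2 : ℤ) ∣ u → (4 : ℤ) ∣ (rt m u : ℤ) * z' - (rt m u' : ℤ) * z

/-- about the same exponents at the primes of `S` -/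
def Near (k : ℕ) (l : ℝ) (S : Finset ℕ) (n n' : ℤ) : Prop :=
  ∑ p ∈ S, |(vl p n : ℝ) - vl p n'| * Real.log p ≤ l / k

/-- the part of `w` composed of the primes of `T` is large: if `Z` is empty at least
`|w| ^ (1/m + δ)`, if `Z` consists of the primes of `z` at least `|w| ^ δ` -/
def Large (m : ℕ) (δ : ℝ) (T Z : Finset ℕ) (w : ℤ) (z : ℕ) : Prop :=
  T ⊆ sp w ∧ ((Z = ∅ ∧ (1 / (m : ℝ) + δ) * Real.log |(w : ℝ)| ≤ wt T w) ∨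
    (Z = sp (z : ℤ) ∧ δ * Real.log |(w : ℝ)| ≤ wt T w))

/-- the common part of the exponents -/
noncomputable def cm (T : Finset ℕ) (n n' : ℤ) : ℕ := ∏ p ∈ T, p ^ min (vl p n) (vl p n')

/-- divisibility of the determinant -/
def Divis : Prop := ∀ (m : ℕ), 2 ≤ m → ∀ (T Z : Finset ℕ) (u w : ℤ) (z : ℕ) (u' w' : ℤ) (z' : ℕ),
  Sol m u w z → Sol m u' w' z' → T ⊆ sp w → T ⊆ sp w' →
  (Z = ∅ ∨ (Z = sp (z : ℤ) ∧ Z = sp (z' : ℤ))) → Same m T u w z u' w' z' →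
  ((cm (sp u) (rt m u : ℤ) (rt m u' : ℤ) * cm T w w' * cm Z (z : ℤ) (z' : ℤ) : ℕ) : ℤ) ∣
    2 * m * ((rt m u : ℤ) * z' - (rt m u' : ℤ) * z)

/-- the determinant vanishes only for equal solutions -/
def Vanish : Prop := ∀ (m : ℕ), 2 ≤ m → ∀ (T : Finset ℕ) (u w : ℤ) (z : ℕ) (u' w' : ℤ) (z' : ℕ),
  Sol m u w z → Sol m u' w' z' → Same m T u w z u' w' z' →
  (rt m u : ℤ) * z' - (rt m u' : ℤ) * z = 0 → u = u' ∧ w = w' ∧ z = z'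

/-- the gap principle -/
def Gap : Prop := ∀ (m : ℕ) (δ : ℝ), 2 ≤ m → 0 < δ → δ ≤ 1 / 4 → ∃ (k : ℕ) (L0 : ℝ), 2 ≤ k ∧
  1 ≤ L0 ∧ ∀ l : ℝ, L0 ≤ l → ∀ (T Z : Finset ℕ) (u w : ℤ) (z : ℕ) (u' w' : ℤ) (z' : ℕ),
  Sol m u w z → Sol m u' w' z' →
  (1 - 1 / (k : ℝ)) * l ≤ ht u w → ht u w ≤ l → (1 - 1 / (k : ℝ)) * l ≤ ht u' w' → ht u' w' ≤ l →
  Large m δ T Z w z → Large m δ T Z w' z' → Same m T u w z u' w' z' →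
  Near k l (sp u) u u' → Near k l T w w' → Near k l Z (z : ℤ) (z' : ℤ) →
  u = u' ∧ w = w' ∧ z = z'

/-- the number of classes -/
def Classes : Prop := ∀ (m k : ℕ), 2 ≤ m → 1 ≤ k → ∃ C : ℝ, 1 ≤ C ∧
  ∀ (A T Z : Finset ℕ) (l : ℝ), 1 ≤ l → ∀ F : Finset (ℤ × ℤ × ℕ),
  (∀ x ∈ F, Sol m x.1 x.2.1 x.2.2 ∧ sp x.1 = A ∧ T ⊆ sp x.2.1 ∧ (Z = ∅ ∨ Z = sp (x.2.2 : ℤ)) ∧
    ht x.1 x.2.1 ≤ l) →
  (∀ x ∈ F, ∀ y ∈ F, Same m T x.1 x.2.1 x.2.2 y.1 y.2.1 y.2.2 → Near k l A x.1 y.1 →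
    Near k l T x.2.1 y.2.1 → Near k l Z (x.2.2 : ℤ) (y.2.2 : ℤ) → x = y) →
  (F.card : ℝ) ≤ C ^ (A.card + T.card + Z.card + 1)

/-- a part of `n` with few primes -/
def Choose : Prop := ∀ (n : ℤ) (θ y : ℝ), n ≠ 0 → 0 ≤ θ → θ ≤ 1 → 1 ≤ y →
  (∀ p ∈ sp n, (p : ℝ) ≤ y) →
  ∃ T ⊆ sp n, θ * Real.log |(n : ℝ)| ≤ wt T n ∧ lr T ≤ θ * lr (sp n) + Real.log y

/-- the count with the cost `R` -/
def Core : Prop := ∀ (m : ℕ) (δ ε : ℝ), 2 ≤ m → 0 < δ → δ ≤ 1 / 4 → 0 < ε → ∃ C : ℝ, 0 < C ∧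
  ∀ R H : ℝ, 1 ≤ R → 1 ≤ H → ∀ F : Finset (ℤ × ℤ × ℕ),
  (∀ x ∈ F, Sol m x.1 x.2.1 x.2.2 ∧ ht x.1 x.2.1 ≤ H ∧
    ∃ T Z : Finset ℕ, Large m δ T Z x.2.1 x.2.2 ∧ lr (sp x.1) + lr T + lr Z ≤ Real.log R) →
  (F.card : ℝ) ≤ C * R ^ (1 + ε) * (1 + Real.log H)

/-- the count of the solutions with small radicals of `u` and `w` -/
def TwoRad : Prop := ∀ (m : ℕ) (ε : ℝ), 2 ≤ m → 0 < ε → ∃ C : ℝ, 0 < C ∧
  ∀ X y H : ℝ, 1 ≤ X → 1 ≤ y → 1 ≤ H → ∀ F : Finset (ℤ × ℤ × ℕ),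
  (∀ x ∈ F, Sol m x.1 x.2.1 x.2.2 ∧ ht x.1 x.2.1 ≤ H ∧ lr (sp x.1) + lr (sp x.2.1) ≤ Real.log X ∧
    (∀ p ∈ sp x.1, (p : ℝ) ≤ y) ∧ ∀ p ∈ sp x.2.1, (p : ℝ) ≤ y) →
  (F.card : ℝ) ≤ C * y * X ^ (((m : ℝ) + 1) / (2 * m) + ε) * (1 + Real.log H)

/-- the count of the solutions with small radicals of `u`, `w` and `z` -/
def ThreeRad : Prop := ∀ (m : ℕ) (ε : ℝ), 2 ≤ m → 0 < ε → ∃ C : ℝ, 0 < C ∧
  ∀ X y H : ℝ, 1 ≤ X → 1 ≤ y → 1 ≤ H → ∀ F : Finset (ℤ × ℤ × ℕ),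
  (∀ x ∈ F, Sol m x.1 x.2.1 x.2.2 ∧ ht x.1 x.2.1 ≤ H ∧
    lr (sp x.1) + lr (sp x.2.1) + lr (sp (x.2.2 : ℤ)) ≤ Real.log X ∧
    (∀ p ∈ sp x.1, (p : ℝ) ≤ y) ∧ ∀ p ∈ sp x.2.1, (p : ℝ) ≤ y) →
  (F.card : ℝ) ≤ C * y * X ^ (((m : ℝ) + 1) / (2 * m + 1) + ε) * (1 + Real.log H)

end Pool.Agent.TH876.PW
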