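import Mathlib
import Pool.Agent.TH876.PW.Def

set_option autoImplicit false

/-!
# The number of classes (helper81)
-/

namespace Pool.Agent.TH876.PW

open Finset

namespace ClassesAux

/-- the number of functions with bounded sum -/
theorem card_bdd (α : Type) [Fintype α] [DecidableEq α] (N : ℕ) :
    ((Fintype.piFinset (fun _ : α => range (N + 1))).filter (fun f => ∑ a, f a ≤ N)).card ≤
      2 ^ (N + Fintype.card α) := by
  have h1 : (((Fintype.piFinset (fun _ : α => range (N + 1))).filter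
      (fun f => ∑ a, f a ≤ N)).card : ℝ) ≤ 2 ^ (N + Fintype.card α) := by
    calc (((Fintype.piFinset (fun _ : α => range (N + 1))).filter
        (fun f => ∑ a, f a ≤ N)).card : ℝ)
        = ∑ f ∈ (Fintype.piFinset (fun _ : α => range (N + 1))).filter
          (fun f => ∑ a, f a ≤ N), (1 : ℝ) := by simp
      _ ≤ ∑ f ∈ (Fintype.piFinset (fun _ : α => range (N + 1))).filter
          (fun f => ∑ a, f a ≤ N), (2 : ℝ) ^ N * ∏ a, (1 / 2 : ℝ) ^ f a := by
          refine sum_le_sum fun f hf => ?_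
          rw [mem_filter] at hf
          rw [prod_pow_eq_pow_sum, one_div, inv_pow, ← div_eq_mul_inv, le_div_iff₀ (by positivity),
            one_mul]
          exact pow_le_pow_right₀ (by norm_num) hf.2
      _ ≤ ∑ f ∈ Fintype.piFinset (fun _ : α => range (N + 1)),
          (2 : ℝ) ^ N * ∏ a, (1 / 2 : ℝ) ^ f a := by
          refine sum_le_sum_of_subset_of_nonneg (filter_subset _ _) fun f _ _ => by positivity
      _ = (2 : ℝ) ^ N * ∏ _a : α, ∑ j ∈ range (N + 1), (1 / 2 : ℝ) ^ j := by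
          rw [← mul_sum, prod_univ_sum]
      _ ≤ (2 : ℝ) ^ N * ∏ _a : α, (2 : ℝ) := by
          refine mul_le_mul_of_nonneg_left ?_ (by positivity)
          refine prod_le_prod (fun _ _ => by positivity) fun _ _ => ?_
          have h2 := sum_geometric_two_le (N + 1)
          exact h2
      _ = 2 ^ (N + Fintype.card α) := by
          rw [prod_const, card_univ, pow_add]
  exact_mod_cast h1

/-- the sum over a set of primes is at most the logarithm -/
theorem sum_vl_le (S : Finset ℕ) (n : ℤ) :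
    ∑ p ∈ S, (vl p n : ℝ) * Real.log p ≤ Real.log |(n : ℝ)| := by
  have e : |(n : ℝ)| = (n.natAbs : ℝ) := by
    rw [Nat.cast_natAbs, Int.cast_abs]
  unfold vl
  rw [e, Real.log_nat_eq_sum_factorization, Finsupp.sum]
  have h1 : ∑ q ∈ S ∩ n.natAbs.factorization.support,
      (n.natAbs.factorization q : ℝ) * Real.log q =
      ∑ q ∈ S, (n.natAbs.factorization q : ℝ) * Real.log q := by
    refine Finset.sum_subset Finset.inter_subset_left ?_
    intro x hx hnx
    have h2 : x ∉ n.natAbs.factorization.support := fun h => hnx (Finset.mem_inter.2 ⟨hx, h⟩)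
    rw [Finsupp.notMem_support_iff] at h2
    rw [h2]
    simp
  rw [← h1]
  refine Finset.sum_le_sum_of_subset_of_nonneg Finset.inter_subset_right ?_
  intro q _ _
  exact mul_nonneg (Nat.cast_nonneg _) (Real.log_natCast_nonneg q)

/-- the floors -/
noncomputable def fl (k : ℕ) (l : ℝ) (S : Finset ℕ) (n : ℤ) : S → ℕ :=
  fun p => ⌊(vl p n : ℝ) * Real.log (p : ℕ) * ((k : ℝ) * S.card) / l⌋₊

theorem fl_sum {k : ℕ} {l : ℝ} (hl : 1 ≤ l) (S : Finset ℕ) (n : ℤ)
    (hn : Real.log |(n : ℝ)| ≤ l) : ∑ p, fl k l S n p ≤ k * S.card := by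
  have hl0 : 0 < l := by linarith
  have h1 : ((∑ p, fl k l S n p : ℕ) : ℝ) ≤ ((k * S.card : ℕ) : ℝ) := by
    push_cast
    calc (∑ p, (fl k l S n p : ℝ))
        ≤ ∑ p : S, (vl p n : ℝ) * Real.log (p : ℕ) * ((k : ℝ) * S.card) / l := by
          refine sum_le_sum fun p _ => ?_
          refine Nat.floor_le (div_nonneg (mul_nonneg (mul_nonneg (Nat.cast_nonneg _)
            (Real.log_natCast_nonneg _)) (by positivity)) hl0.le)
      _ = (∑ p ∈ S, (vl p n : ℝ) * Real.log p) * ((k : ℝ) * S.card) / l := by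
          rw [sum_mul, sum_div]
          exact Finset.sum_coe_sort S
            (fun p => (vl p n : ℝ) * Real.log (p : ℕ) * ((k : ℝ) * S.card) / l)
      _ ≤ l * ((k : ℝ) * S.card) / l := by
          refine div_le_div_of_nonneg_right ?_ hl0.le
          exact mul_le_mul_of_nonneg_right ((sum_vl_le S n).trans hn) (by positivity)
      _ = (k : ℝ) * S.card := by
          field_simp
  exact_mod_cast h1

theorem fl_mem {k : ℕ} {l : ℝ} (hl : 1 ≤ l) (S : Finset ℕ) (n : ℤ)
    (hn : Real.log |(n : ℝ)| ≤ l) : fl k l S n ∈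
      (Fintype.piFinset (fun _ : S => range (k * S.card + 1))).filter
        (fun f => ∑ a, f a ≤ k * S.card) := by
  rw [mem_filter]
  refine ⟨?_, fl_sum hl S n hn⟩
  rw [Fintype.mem_piFinset]
  intro p
  rw [mem_range]
  exact Nat.lt_succ_of_le ((single_le_sum (f := fl k l S n) (fun _ _ => Nat.zero_le _)
    (mem_univ p)).trans (fl_sum hl S n hn))

theorem near_of_fl {k : ℕ} (hk : 1 ≤ k) {l : ℝ} (hl : 1 ≤ l) (S : Finset ℕ) {n n' : ℤ}
    (h : fl k l S n = fl k l S n') : Near k l S n n' := by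
  have hl0 : 0 < l := by linarith
  have hk0 : (0 : ℝ) < k := by exact_mod_cast hk
  unfold Near
  rcases S.eq_empty_or_nonempty with hS | hS
  · subst hS
    rw [sum_empty]
    positivity
  have hc : (0 : ℝ) < S.card := by exact_mod_cast hS.card_pos
  have h1 : ∀ p ∈ S, |(vl p n : ℝ) - vl p n'| * Real.log p ≤ l / (k * S.card) := by
    intro p hp
    have h2 := congrFun h ⟨p, hp⟩
    unfold fl at h2
    dsimp only at h2
    have hlp : 0 ≤ Real.log (p : ℝ) := Real.log_natCast_nonneg p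
    set a := (vl p n : ℝ) * Real.log p * ((k : ℝ) * S.card) / l with ha
    set b := (vl p n' : ℝ) * Real.log p * ((k : ℝ) * S.card) / l with hb
    have ha0 : 0 ≤ a := by positivity
    have hb0 : 0 ≤ b := by positivity
    have q1 := Nat.floor_le ha0
    have q2 := Nat.floor_le hb0
    have q3 := Nat.lt_floor_add_one a
    have q4 := Nat.lt_floor_add_one b
    rw [h2] at q1 q3
    have h5 : |a - b| ≤ 1 := by
      rw [abs_le]
      constructor <;> linarith
    have h6 : a - b = ((vl p n : ℝ) - vl p n') * (Real.log p * ((k : ℝ) * S.card) / l) := by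
      rw [ha, hb]; ring
    have h7 : 0 ≤ Real.log p * ((k : ℝ) * S.card) / l := by positivity
    rw [h6, abs_mul, abs_of_nonneg h7] at h5
    rw [le_div_iff₀ (by positivity)]
    have h8 : |(vl p n : ℝ) - vl p n'| * (Real.log p * ((k : ℝ) * S.card) / l) =
        |(vl p n : ℝ) - vl p n'| * Real.log p * ((k : ℝ) * S.card) / l := by ring
    rw [h8, div_le_one hl0] at h5
    exact h5
  refine (sum_le_sum h1).trans ?_
  rw [sum_const, nsmul_eq_mul]
  apply le_of_eq
  field_simp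

theorem log_u_le {u w : ℤ} (hu : u ≠ 0) : Real.log |(u : ℝ)| ≤ ht u w := by
  unfold ht
  refine Real.log_le_log ?_ (le_max_left _ _)
  rw [abs_pos]
  exact_mod_cast hu

theorem log_w_le {u w : ℤ} (hw : w ≠ 0) : Real.log |(w : ℝ)| ≤ ht u w := by
  unfold ht
  refine Real.log_le_log ?_ (le_max_right _ _)
  rw [abs_pos]
  exact_mod_cast hw

theorem log_z_le {m : ℕ} (hm : 2 ≤ m) {u w : ℤ} {z : ℕ} (h : Sol m u w z) {l : ℝ} (hl : 1 ≤ l)
    (hh : ht u w ≤ l) : Real.log |(((z : ℕ) : ℤ) : ℝ)| ≤ l := by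
  have hz : (0 : ℝ) < z := by exact_mod_cast h.z0
  have e : |(((z : ℕ) : ℤ) : ℝ)| = (z : ℝ) := by
    rw [Int.cast_natCast, abs_of_pos hz]
  rw [e]
  have hM : 0 < max |(u : ℝ)| |(w : ℝ)| := by
    refine lt_of_lt_of_le ?_ (le_max_left _ _)
    rw [abs_pos]
    exact_mod_cast h.u0
  have h1 : (z : ℝ) ^ m = (u : ℝ) + w := by
    have := h.eq
    exact_mod_cast this.symm
  have h2 : (z : ℝ) ^ m ≤ 2 * max |(u : ℝ)| |(w : ℝ)| := by
    rw [h1]
    have a1 := le_abs_self (u : ℝ)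
    have a2 := le_abs_self (w : ℝ)
    have a3 := le_max_left |(u : ℝ)| |(w : ℝ)|
    have a4 := le_max_right |(u : ℝ)| |(w : ℝ)|
    linarith
  have h3 := Real.log_le_log (by positivity) h2
  rw [Real.log_pow, Real.log_mul (by norm_num) hM.ne'] at h3
  have h4 : Real.log 2 ≤ 1 := by
    have := Real.log_two_lt_d9
    linarith
  have h5 : 0 ≤ Real.log (z : ℝ) := Real.log_natCast_nonneg z
  have h6 : (2 : ℝ) ≤ m := by exact_mod_cast hm
  have h7 : 2 * Real.log (z : ℝ) ≤ m * Real.log z := mul_le_mul_of_nonneg_right h6 h5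
  unfold ht at hh
  linarith

/-- the part of `u` without the largest `m`-th power -/
def rs (m : ℕ) (u : ℤ) : ℤ := u.sign * ((∏ p ∈ sp u, p ^ (vl p u % m) : ℕ) : ℤ)

theorem rs_mul (m : ℕ) {u : ℤ} (hu : u ≠ 0) : u = rs m u * (rt m u : ℤ) ^ m := by
  have h1 : u.natAbs = (∏ p ∈ sp u, p ^ (vl p u % m)) * rt m u ^ m := by
    have h2 : ∏ p ∈ sp u, p ^ vl p u = u.natAbs := by
      have h3 := Nat.prod_factorization_pow_eq_self (Int.natAbs_ne_zero.2 hu)
      unfold Finsupp.prod at h3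
      rw [Nat.support_factorization] at h3
      exact h3
    unfold rt
    rw [← prod_pow, ← prod_mul_distrib, ← h2]
    refine prod_congr rfl fun p _ => ?_
    rw [← pow_mul, ← pow_add]
    congr 1
    rw [add_comm]
    exact (Nat.div_add_mod' (vl p u) m).symm
  have h3 := Int.sign_mul_natAbs u
  rw [h1] at h3
  unfold rs
  rw [mul_assoc]
  exact_mod_cast h3.symm

theorem rt_not_dvd {m : ℕ} {u : ℤ} {p : ℕ} (hp : p.Prime) (h : ¬ (p : ℤ) ∣ u) : ¬ p ∣ rt m u := by
  intro h1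
  unfold rt at h1
  rw [Prime.dvd_finsetProd_iff hp.prime] at h1
  obtain ⟨q, hq, h2⟩ := h1
  have h3 := hp.dvd_of_dvd_pow h2
  unfold sp at hq
  rw [Nat.mem_primeFactors] at hq
  rw [Nat.prime_dvd_prime_iff_eq hp hq.1] at h3
  apply h
  rw [h3]
  exact Int.natCast_dvd.2 hq.2.1

theorem card_roots {p : ℕ} (hp : p.Prime) {m : ℕ} (hm : 0 < m) (c : ZMod p) :
    ((range p).filter (fun r => ((r : ℕ) : ZMod p) ^ m = c)).card ≤ m := by
  have : Fact p.Prime := ⟨hp⟩
  have h1 : ((range p).filter (fun r => ((r : ℕ) : ZMod p) ^ m = c)).card ≤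
      (Polynomial.nthRoots m c).toFinset.card := by
    refine Finset.card_le_card_of_injOn (fun r => ((r : ℕ) : ZMod p)) ?_ ?_
    · intro r hr
      rw [mem_coe, mem_filter] at hr
      rw [mem_coe, Multiset.mem_toFinset, Polynomial.mem_nthRoots hm]
      exact hr.2
    · intro r hr r' hr' he
      rw [mem_coe, mem_filter, mem_range] at hr hr'
      have h2 := congrArg ZMod.val he
      dsimp only at h2
      rw [ZMod.val_natCast_of_lt hr.1, ZMod.val_natCast_of_lt hr'.1] at h2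
      exact h2
  exact h1.trans ((Multiset.toFinset_card_le _).trans (Polynomial.card_nthRoots m c))

theorem prime_not_dvd {m : ℕ} {u w : ℤ} {z : ℕ} (h : Sol m u w z) {p : ℕ} (hp : p ∈ sp w)
    (hp2 : p ≠ 2) : p.Prime ∧ (p : ℤ) ∣ w ∧ ¬ (p : ℤ) ∣ u := by
  unfold sp at hp
  rw [Nat.mem_primeFactors] at hp
  have h1 : (p : ℤ) ∣ w := Int.natCast_dvd.2 hp.2.1
  refine ⟨hp.1, h1, fun h2 => ?_⟩
  have h3 : p ∣ Int.gcd u w := Int.dvd_gcd h2 h1 |> fun h => by exact_mod_cast h
  have h4 := h3.trans h.gcd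
  exact hp2 ((Nat.prime_dvd_prime_iff_eq hp.1 Nat.prime_two).1 h4)

/-- the label -/
noncomputable def lab (m k : ℕ) (l : ℝ) (A T Z : Finset ℕ) (x : ℤ × ℤ × ℕ) :
    ℤ × Bool × Bool × (A → ℕ) × (A → ℕ) × (T → ℕ) × (Z → ℕ) × ZMod 4 × ZMod 4 :=
  (x.1.sign, decide (2 * |x.2.1| ≤ |x.1|), decide (x.2.2 = 1), fun p => vl p x.1 % m,
    fl k l A x.1, fl k l T x.2.1, fl k l Z (x.2.2 : ℤ), ((x.2.2 : ℕ) : ZMod 4),
    ((rt m x.1 : ℕ) : ZMod 4))

/-- the residue label -/
noncomputable def rho (m : ℕ) (x : ℤ × ℤ × ℕ) (p : ℕ) : ℕ :=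
  ((x.2.2 : ZMod p) * ((rt m x.1 : ℕ) : ZMod p)⁻¹).val

theorem rho_pow {m : ℕ} {x : ℤ × ℤ × ℕ} (h : Sol m x.1 x.2.1 x.2.2) {p : ℕ}
    (hp : p ∈ sp x.2.1) (hp2 : p ≠ 2) :
    ((rho m x p : ℕ) : ZMod p) ^ m = ((rs m x.1 : ℤ) : ZMod p) := by
  obtain ⟨h1, h2, h3⟩ := prime_not_dvd h hp hp2
  have : Fact p.Prime := ⟨h1⟩
  have hU : ((rt m x.1 : ℕ) : ZMod p) ≠ 0 := by
    intro h4
    rw [ZMod.natCast_eq_zero_iff] at h4
    exact rt_not_dvd h1 h3 h4
  have h5 : ((x.2.2 : ℕ) : ZMod p) ^ m = ((x.1 : ℤ) : ZMod p) := by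
    have h6 := congrArg (fun t : ℤ => (t : ZMod p)) h.eq
    push_cast at h6
    rw [(ZMod.intCast_zmod_eq_zero_iff_dvd x.2.1 p).2 h2, add_zero] at h6
    exact h6.symm
  have h7 : ((x.1 : ℤ) : ZMod p) = ((rs m x.1 : ℤ) : ZMod p) * ((rt m x.1 : ℕ) : ZMod p) ^ m := by
    have h8 := congrArg (fun t : ℤ => (t : ZMod p)) (rs_mul m h.u0)
    push_cast at h8
    exact h8
  unfold rho
  rw [ZMod.natCast_val, ZMod.cast_id, mul_pow, h5, h7, mul_assoc, ← mul_pow,
    mul_inv_cancel₀ hU, one_pow, mul_one]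

theorem res_of_rho {m : ℕ} {x y : ℤ × ℤ × ℕ} (hx : Sol m x.1 x.2.1 x.2.2)
    (hy : Sol m y.1 y.2.1 y.2.2) {p : ℕ} (hpx : p ∈ sp x.2.1) (hpy : p ∈ sp y.2.1) (hp2 : p ≠ 2)
    (h : rho m x p = rho m y p) :
    (p : ℤ) ∣ (rt m x.1 : ℤ) * y.2.2 - (rt m y.1 : ℤ) * x.2.2 := by
  obtain ⟨h1, h2, h3⟩ := prime_not_dvd hx hpx hp2
  obtain ⟨-, h2', h3'⟩ := prime_not_dvd hy hpy hp2
  have : Fact p.Prime := ⟨h1⟩
  have hU : ((rt m x.1 : ℕ) : ZMod p) ≠ 0 := by
    intro h4
    rw [ZMod.natCast_eq_zero_iff] at h4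
    exact rt_not_dvd h1 h3 h4
  have hU' : ((rt m y.1 : ℕ) : ZMod p) ≠ 0 := by
    intro h4
    rw [ZMod.natCast_eq_zero_iff] at h4
    exact rt_not_dvd h1 h3' h4
  unfold rho at h
  have h5 := ZMod.val_injective p h
  rw [← div_eq_mul_inv, ← div_eq_mul_inv, div_eq_div_iff hU hU'] at h5
  rw [← ZMod.intCast_zmod_eq_zero_iff_dvd]
  push_cast
  rw [sub_eq_zero, mul_comm, ← h5, mul_comm]

theorem fiber {m k : ℕ} (hm : 2 ≤ m) (hk : 1 ≤ k) {A T Z : Finset ℕ} {l : ℝ} (hl : 1 ≤ l)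
    (G : Finset (ℤ × ℤ × ℕ))
    (hG : ∀ x ∈ G, Sol m x.1 x.2.1 x.2.2 ∧ sp x.1 = A ∧ T ⊆ sp x.2.1)
    (hlab : ∀ x ∈ G, ∀ y ∈ G, lab m k l A T Z x = lab m k l A T Z y)
    (hinj : ∀ x ∈ G, ∀ y ∈ G, Same m T x.1 x.2.1 x.2.2 y.1 y.2.1 y.2.2 → Near k l A x.1 y.1 →
      Near k l T x.2.1 y.2.1 → Near k l Z (x.2.2 : ℤ) (y.2.2 : ℤ) → x = y) :
    G.card ≤ m ^ T.card := by
  classical
  rcases G.eq_empty_or_nonempty with hE | ⟨x0, hx0⟩
  · subst hE
    simp
  have hrs : ∀ x ∈ G, rs m x.1 = rs m x0.1 := by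
    intro x hx
    have h1 := hlab x hx x0 hx0
    unfold lab at h1
    rw [Prod.mk.injEq, Prod.mk.injEq, Prod.mk.injEq, Prod.mk.injEq] at h1
    obtain ⟨h2, -, -, h3, -⟩ := h1
    unfold rs
    rw [h2, (hG x hx).2.1, (hG x0 hx0).2.1]
    congr 2
    refine prod_congr rfl fun p hp => ?_
    have := congrFun h3 ⟨p, hp⟩
    dsimp only at this
    rw [this]
  set R : T → Finset ℕ := fun p => if (p : ℕ) = 2 then range 2 else
    (range p).filter (fun r => ((r : ℕ) : ZMod p) ^ m = ((rs m x0.1 : ℤ) : ZMod p)) with hR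
  have hRc : ∀ p : T, (R p).card ≤ m := by
    intro p
    rw [hR]
    dsimp only
    split_ifs with h
    · rw [card_range]; exact hm
    · have hp := (prime_not_dvd (hG x0 hx0).1 ((hG x0 hx0).2.2 p.2) h).1
      exact card_roots hp (by omega) _
  have h1 : G.card ≤ (Fintype.piFinset R).card := by
    refine card_le_card_of_injOn (fun x => fun p : T => if (p : ℕ) = 2 then 0 else rho m x p)
      ?_ ?_
    · intro x hx
      rw [mem_coe] at hx
      rw [mem_coe, Fintype.mem_piFinset]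
      intro p
      rw [hR]
      dsimp only
      split_ifs with h
      · simp
      · have h2 := prime_not_dvd (hG x hx).1 ((hG x hx).2.2 p.2) h
        have : Fact (p : ℕ).Prime := ⟨h2.1⟩
        rw [mem_filter, mem_range]
        refine ⟨ZMod.val_lt _, ?_⟩
        rw [rho_pow (hG x hx).1 ((hG x hx).2.2 p.2) h, hrs x hx]
    · intro x hx y hy he
      rw [mem_coe] at hx hy
      have h1 := hlab x hx y hy
      unfold lab at h1
      rw [Prod.mk.injEq, Prod.mk.injEq, Prod.mk.injEq, Prod.mk.injEq, Prod.mk.injEq,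
        Prod.mk.injEq, Prod.mk.injEq, Prod.mk.injEq] at h1
      obtain ⟨e1, e2, e3, e4, e5, e6, e7, e8, e9⟩ := h1
      obtain ⟨sx, ax, tx⟩ := hG x hx
      obtain ⟨sy, ay, ty⟩ := hG y hy
      refine hinj x hx y hy ⟨e1, ax.trans ay.symm, ?_, decide_eq_decide.1 e2,
        decide_eq_decide.1 e3, ?_, ?_⟩ (near_of_fl hk hl A e5) (near_of_fl hk hl T e6)
        (near_of_fl hk hl Z e7)
      · intro p hp
        rw [ax] at hp
        exact congrFun e4 ⟨p, hp⟩
      · intro p hp hp2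
        have h2 := congrFun he ⟨p, hp⟩
        dsimp only at h2
        rw [if_neg hp2, if_neg hp2] at h2
        exact res_of_rho sx sy (tx hp) (ty hp) hp2 h2
      · intro _ _
        have h4 : ((4 : ℕ) : ℤ) ∣ (rt m x.1 : ℤ) * y.2.2 - (rt m y.1 : ℤ) * x.2.2 := by
          rw [← ZMod.intCast_zmod_eq_zero_iff_dvd]
          push_cast
          rw [e8, e9, sub_self]
        exact h4
  refine h1.trans ?_
  rw [Fintype.card_piFinset]
  refine (prod_le_prod' fun p _ => hRc p).trans ?_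
  rw [prod_const, card_univ, Fintype.card_coe]

end ClassesAux

theorem classes : Classes := by
  classical
  intro m k hm hk
  refine ⟨192 * ((m : ℝ) * 2 ^ (k + 1)), ?_, ?_⟩
  · have h1 : (1 : ℝ) ≤ m := by exact_mod_cast (by omega : 1 ≤ m)
    have h2 : (1 : ℝ) ≤ 2 ^ (k + 1) := one_le_pow₀ (by norm_num)
    nlinarith [mul_le_mul h1 h2 zero_le_one (by linarith)]
  intro A T Z l hl F hF hinj
  have h1 := card_le_mul_card_image (f := ClassesAux.lab m k l A T Z) F (m ^ T.card) (by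
    intro a _
    refine ClassesAux.fiber (A := A) (Z := Z) hm hk hl _ (fun x hx => ?_) (fun x hx y hy => ?_)
      (fun x hx y hy => ?_)
    · rw [mem_filter] at hx
      obtain ⟨q1, q2, q3, -, -⟩ := hF x hx.1
      exact ⟨q1, q2, q3⟩
    · rw [mem_filter] at hx hy
      rw [hx.2, hy.2]
    · rw [mem_filter] at hx hy
      exact hinj x hx.1 y hy.1)
  set B : (S : Finset ℕ) → Finset (S → ℕ) := fun S =>
    (Fintype.piFinset (fun _ : S => range (k * S.card + 1))).filter
        (fun f => ∑ a, f a ≤ k * S.card) with hB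
  have hBc : ∀ S : Finset ℕ, (B S).card ≤ 2 ^ ((k + 1) * S.card) := by
    intro S
    refine (ClassesAux.card_bdd S (k * S.card)).trans ?_
    rw [Fintype.card_coe, add_mul, one_mul]
  have h2 : (F.image (ClassesAux.lab m k l A T Z)).card ≤
      3 * (2 * (2 * (m ^ A.card * ((B A).card * ((B T).card * ((B Z).card * (4 * 4))))))) := by
    have h3 : F.image (ClassesAux.lab m k l A T Z) ⊆
        ({-1, 0, 1} : Finset ℤ) ×ˢ ((univ : Finset Bool) ×ˢ ((univ : Finset Bool) ×ˢ
          ((Fintype.piFinset (fun _ : A => range m)) ×ˢ (B A ×ˢ (B T ×ˢ (B Z ×ˢ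
            ((univ : Finset (ZMod 4)) ×ˢ (univ : Finset (ZMod 4))))))))) := by
      intro a ha
      rw [mem_image] at ha
      obtain ⟨x, hx, rfl⟩ := ha
      obtain ⟨q1, q2, q3, -, q5⟩ := hF x hx
      unfold ClassesAux.lab
      rw [mem_product, mem_product, mem_product, mem_product, mem_product, mem_product,
        mem_product, mem_product]
      refine ⟨?_, mem_univ _, mem_univ _, ?_, ?_, ?_, ?_, mem_univ _, mem_univ _⟩
      · rcases Int.sign_trichotomy x.1 with h | h | h <;> simp [h]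
      · rw [Fintype.mem_piFinset]
        intro p
        rw [mem_range]
        exact Nat.mod_lt _ (by omega)
      · exact ClassesAux.fl_mem hl A _ ((ClassesAux.log_u_le q1.u0).trans q5)
      · exact ClassesAux.fl_mem hl T _ ((ClassesAux.log_w_le q1.w0).trans q5)
      · exact ClassesAux.fl_mem hl Z _ (ClassesAux.log_z_le hm q1 hl q5)
    refine (card_le_card h3).trans ?_
    rw [card_product, card_product, card_product, card_product, card_product, card_product,
      card_product, card_product, Fintype.card_piFinset, prod_const, card_range, card_univ,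
      card_univ, Fintype.card_coe, card_univ, ZMod.card, Fintype.card_bool]
    have h4 : ({-1, 0, 1} : Finset ℤ).card ≤ 3 := card_le_three
    exact Nat.mul_le_mul_right _ h4
  have h5 : F.card ≤ 192 * (m * 2 ^ (k + 1)) ^ (A.card + T.card + Z.card) := by
    refine h1.trans ((Nat.mul_le_mul_left _ h2).trans ?_)
    calc m ^ T.card * (3 * (2 * (2 * (m ^ A.card * ((B A).card * ((B T).card *
          ((B Z).card * (4 * 4))))))))
        ≤ m ^ T.card * (3 * (2 * (2 * (m ^ A.card * (2 ^ ((k + 1) * A.card) *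
          (2 ^ ((k + 1) * T.card) * (2 ^ ((k + 1) * Z.card) * (4 * 4)))))))) := by
          gcongr <;> exact hBc _
      _ = 192 * (m ^ (A.card + T.card) * 2 ^ ((k + 1) * (A.card + T.card + Z.card))) := by
          rw [mul_add, mul_add, pow_add, pow_add, pow_add]
          ring
      _ ≤ 192 * (m ^ (A.card + T.card + Z.card) *
          2 ^ ((k + 1) * (A.card + T.card + Z.card))) := by
          refine Nat.mul_le_mul_left _ (Nat.mul_le_mul_right _ ?_)
          exact Nat.pow_le_pow_right (by omega) (by omega)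
      _ = 192 * (m * 2 ^ (k + 1)) ^ (A.card + T.card + Z.card) := by
          rw [mul_pow, ← pow_mul]
  have h6 : (F.card : ℝ) ≤ 192 * ((m : ℝ) * 2 ^ (k + 1)) ^ (A.card + T.card + Z.card) := by
    exact_mod_cast h5
  refine h6.trans ?_
  have h7 : (1 : ℝ) ≤ (m : ℝ) * 2 ^ (k + 1) := by
    have h1 : (1 : ℝ) ≤ m := by exact_mod_cast (by omega : 1 ≤ m)
    have h2 : (1 : ℝ) ≤ 2 ^ (k + 1) := one_le_pow₀ (by norm_num)
    nlinarith [mul_le_mul h1 h2 zero_le_one (by linarith)]
  generalize (m : ℝ) * 2 ^ (k + 1) = X at h7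
  generalize A.card + T.card + Z.card = N
  have h8 : (1 : ℝ) ≤ 192 ^ N := one_le_pow₀ (by norm_num)
  have h9 : 0 ≤ X ^ N := by positivity
  calc 192 * X ^ N = (1 * 192) * (X ^ N * 1) := by ring
    _ ≤ (192 ^ N * 192) * (X ^ N * X) := by gcongr
    _ = (192 * X) ^ (N + 1) := by ring

end Pool.Agent.TH876.PW
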