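import Mathlib
import Pool.Agent.TH876.PW.Def

set_option autoImplicit false

namespace Pool.Agent.TH876.PW

open Finset

private theorem core_omega (D ε : ℝ) (hD : 1 ≤ D) (hε : 0 < ε) : ∃ C : ℝ, 1 ≤ C ∧
    ∀ n : ℕ, n ≠ 0 → D ^ n.primeFactors.card ≤ C * (n : ℝ) ^ ε := by
  classical
  obtain ⟨P0, hP0⟩ : ∃ P0 : ℕ, P0 = ⌈D ^ (1 / ε)⌉₊ := ⟨_, rfl⟩
  refine ⟨D ^ P0, one_le_pow₀ hD, fun n hn => ?_⟩
  have h1 := card_filter_add_card_filter_not (s := n.primeFactors) (fun p => p ≤ P0)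
  rw [← h1, pow_add]
  have h2 : (n.primeFactors.filter (fun p => p ≤ P0)).card ≤ P0 := by
    have h3 : n.primeFactors.filter (fun p => p ≤ P0) ⊆ Icc 1 P0 := by
      intro p hp
      rw [mem_filter] at hp
      exact mem_Icc.mpr ⟨(Nat.prime_of_mem_primeFactors hp.1).one_le, hp.2⟩
    have h4 := card_le_card h3
    rwa [Nat.card_Icc, Nat.add_sub_cancel] at h4
  have h5 : D ^ (n.primeFactors.filter (fun p => ¬ p ≤ P0)).card ≤ (n : ℝ) ^ ε := by
    calc D ^ (n.primeFactors.filter (fun p => ¬ p ≤ P0)).card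
        = ∏ _p ∈ n.primeFactors.filter (fun p => ¬ p ≤ P0), D := by rw [prod_const]
      _ ≤ ∏ p ∈ n.primeFactors.filter (fun p => ¬ p ≤ P0), (p : ℝ) ^ ε := by
          refine prod_le_prod (fun _ _ => by linarith) fun p hp => ?_
          rw [mem_filter, not_le] at hp
          have h6 : D ^ (1 / ε) ≤ (p : ℝ) := by
            refine (Nat.le_ceil _).trans ?_
            rw [← hP0]
            exact_mod_cast hp.2.le
          calc D = (D ^ (1 / ε)) ^ ε := by
                rw [← Real.rpow_mul (by linarith), one_div, inv_mul_cancel₀ hε.ne', Real.rpow_one]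
            _ ≤ (p : ℝ) ^ ε := Real.rpow_le_rpow (by positivity) h6 hε.le
      _ ≤ ∏ p ∈ n.primeFactors, (p : ℝ) ^ ε := by
          rw [← prod_filter_mul_prod_filter_not n.primeFactors (fun p => p ≤ P0)]
          refine le_mul_of_one_le_left (prod_nonneg fun p _ => by positivity) ?_
          calc (1 : ℝ) = ∏ _p ∈ n.primeFactors.filter (fun p => p ≤ P0), (1 : ℝ) := by
                rw [prod_const_one]
            _ ≤ ∏ p ∈ n.primeFactors.filter (fun p => p ≤ P0), (p : ℝ) ^ ε := by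
                refine prod_le_prod (fun _ _ => zero_le_one) fun p hp => ?_
                refine Real.one_le_rpow ?_ hε.le
                exact_mod_cast (Nat.prime_of_mem_primeFactors (mem_filter.mp hp).1).one_le
      _ = (∏ p ∈ n.primeFactors, (p : ℝ)) ^ ε := by
          rw [Real.finsetProd_rpow _ _ (fun p _ => Nat.cast_nonneg p)]
      _ ≤ (n : ℝ) ^ ε := by
          refine Real.rpow_le_rpow (prod_nonneg fun p _ => Nat.cast_nonneg p) ?_ hε.le
          have := Nat.le_of_dvd (Nat.pos_of_ne_zero hn) (Nat.prod_primeFactors_dvd n)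
          calc ∏ p ∈ n.primeFactors, (p : ℝ) = ((∏ p ∈ n.primeFactors, p : ℕ) : ℝ) := by
                push_cast; rfl
            _ ≤ (n : ℝ) := by exact_mod_cast this
  calc D ^ (n.primeFactors.filter (fun p => p ≤ P0)).card *
        D ^ (n.primeFactors.filter (fun p => ¬ p ≤ P0)).card
      ≤ D ^ P0 * (n : ℝ) ^ ε :=
        mul_le_mul (pow_le_pow_right₀ hD h2) h5 (by positivity) (by positivity)

private theorem core_prod (T : Finset ℕ) (hT : ∀ p ∈ T, p.Prime) :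
    0 < ∏ p ∈ T, p ∧ Real.log ((∏ p ∈ T, p : ℕ) : ℝ) = lr T := by
  constructor
  · exact prod_pos fun p hp => (hT p hp).pos
  · unfold lr
    rw [Nat.cast_prod, Real.log_prod]
    intro p hp
    exact_mod_cast (hT p hp).ne_zero

/-- the count for one scale -/
private theorem core_scale {m k : ℕ} {δ L0 C1 : ℝ} (hC1 : 1 ≤ C1)
    (gap : ∀ l : ℝ, L0 ≤ l → ∀ (T Z : Finset ℕ) (u w : ℤ) (z : ℕ) (u' w' : ℤ) (z' : ℕ),
      Sol m u w z → Sol m u' w' z' →
      (1 - 1 / (k : ℝ)) * l ≤ ht u w → ht u w ≤ l → (1 - 1 / (k : ℝ)) * l ≤ ht u' w' →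
      ht u' w' ≤ l →
      Large m δ T Z w z → Large m δ T Z w' z' → Same m T u w z u' w' z' →
      Near k l (sp u) u u' → Near k l T w w' → Near k l Z (z : ℤ) (z' : ℤ) →
      u = u' ∧ w = w' ∧ z = z')
    (cls : ∀ (A T Z : Finset ℕ) (l : ℝ), 1 ≤ l → ∀ F : Finset (ℤ × ℤ × ℕ),
      (∀ x ∈ F, Sol m x.1 x.2.1 x.2.2 ∧ sp x.1 = A ∧ T ⊆ sp x.2.1 ∧ (Z = ∅ ∨ Z = sp (x.2.2 : ℤ)) ∧
        ht x.1 x.2.1 ≤ l) →
      (∀ x ∈ F, ∀ y ∈ F, Same m T x.1 x.2.1 x.2.2 y.1 y.2.1 y.2.2 → Near k l A x.1 y.1 →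
        Near k l T x.2.1 y.2.1 → Near k l Z (x.2.2 : ℤ) (y.2.2 : ℤ) → x = y) →
      (F.card : ℝ) ≤ C1 ^ (A.card + T.card + Z.card + 1))
    {l : ℝ} (hl0 : L0 ≤ l) (hl1 : 1 ≤ l) {R : ℝ} (hR : 1 ≤ R) (T Z : ℤ × ℤ × ℕ → Finset ℕ)
    (F : Finset (ℤ × ℤ × ℕ))
    (hF : ∀ x ∈ F, Sol m x.1 x.2.1 x.2.2 ∧ (1 - 1 / (k : ℝ)) * l ≤ ht x.1 x.2.1 ∧
      ht x.1 x.2.1 ≤ l ∧ Large m δ (T x) (Z x) x.2.1 x.2.2 ∧
      lr (sp x.1) + lr (T x) + lr (Z x) ≤ Real.log R) :
    (F.card : ℝ) ≤ ∑ n ∈ Icc 1 ⌊R⌋₊, C1 * (8 * C1 ^ 3) ^ n.primeFactors.card := by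
  classical
  let f : ℤ × ℤ × ℕ → ℕ := fun x => (∏ p ∈ sp x.1, p) * (∏ p ∈ T x, p) * ∏ p ∈ Z x, p
  have hpr : ∀ x ∈ F, (∀ p ∈ sp x.1, p.Prime) ∧ (∀ p ∈ T x, p.Prime) ∧ ∀ p ∈ Z x, p.Prime := by
    intro x hx
    obtain ⟨_, _, _, h4, _⟩ := hF x hx
    refine ⟨fun p hp => Nat.prime_of_mem_primeFactors hp,
      fun p hp => Nat.prime_of_mem_primeFactors (h4.1 hp), fun p hp => ?_⟩
    rcases h4.2 with ⟨h5, _⟩ | ⟨h5, _⟩
    · rw [h5] at hp
      exact absurd hp (notMem_empty _)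
    · rw [h5] at hp
      exact Nat.prime_of_mem_primeFactors hp
  have hf : ∀ x ∈ F, f x ∈ Icc 1 ⌊R⌋₊ := by
    intro x hx
    obtain ⟨_, _, _, _, h5⟩ := hF x hx
    obtain ⟨a1, a2, a3⟩ := hpr x hx
    obtain ⟨b1, c1⟩ := core_prod _ a1
    obtain ⟨b2, c2⟩ := core_prod _ a2
    obtain ⟨b3, c3⟩ := core_prod _ a3
    have hpos : 0 < f x := Nat.mul_pos (Nat.mul_pos b1 b2) b3
    refine mem_Icc.mpr ⟨hpos, Nat.le_floor ?_⟩
    rw [← Real.log_le_log_iff (by exact_mod_cast hpos) (by linarith)]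
    refine le_trans (le_of_eq ?_) h5
    simp only [f]
    rw [Nat.cast_mul, Nat.cast_mul, Real.log_mul, Real.log_mul, c1, c2, c3]
    · exact_mod_cast b1.ne'
    · exact_mod_cast b2.ne'
    · exact_mod_cast (Nat.mul_pos b1 b2).ne'
    · exact_mod_cast b3.ne'
  rw [card_eq_sum_card_fiberwise (f := f) (t := Icc 1 ⌊R⌋₊) (fun x hx => by
    simpa using hf x hx)]
  push_cast
  refine sum_le_sum fun n hn => ?_
  have hn0 : n ≠ 0 := by
    have := (mem_Icc.mp hn).1
    omega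
  let g : ℤ × ℤ × ℕ → Finset ℕ × Finset ℕ × Finset ℕ := fun x => (sp x.1, T x, Z x)
  have hg : ∀ x ∈ F.filter (fun a => f a = n), g x ∈ n.primeFactors.powerset ×ˢ
      n.primeFactors.powerset ×ˢ n.primeFactors.powerset := by
    intro x hx
    rw [mem_filter] at hx
    obtain ⟨a1, a2, a3⟩ := hpr x hx.1
    have hsub : ∀ S : Finset ℕ, (∀ p ∈ S, p.Prime) → (∏ p ∈ S, p) ∣ n → S ⊆ n.primeFactors := by
      intro S hS hd p hp
      exact Nat.mem_primeFactors.mpr ⟨hS p hp, (dvd_prod_of_mem (fun p => p) hp).trans hd, hn0⟩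
    rw [mem_product, mem_product, mem_powerset, mem_powerset, mem_powerset]
    refine ⟨hsub _ a1 ?_, hsub _ a2 ?_, hsub _ a3 ?_⟩
    · rw [← hx.2]
      exact ⟨(∏ p ∈ T x, p) * ∏ p ∈ Z x, p, by simp only [f]; ring⟩
    · rw [← hx.2]
      exact ⟨(∏ p ∈ sp x.1, p) * ∏ p ∈ Z x, p, by simp only [f]; ring⟩
    · rw [← hx.2]
      exact ⟨(∏ p ∈ sp x.1, p) * ∏ p ∈ T x, p, by simp only [f]; ring⟩
  rw [card_eq_sum_card_fiberwise (f := g) (t := n.primeFactors.powerset ×ˢ
      n.primeFactors.powerset ×ˢ n.primeFactors.powerset) (fun x hx => by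
    simpa using hg x (by simpa using hx))]
  push_cast
  calc ∑ b ∈ n.primeFactors.powerset ×ˢ n.primeFactors.powerset ×ˢ n.primeFactors.powerset,
        ((((F.filter (fun a => f a = n)).filter (fun a => g a = b)).card : ℕ) : ℝ)
      ≤ ∑ _b ∈ n.primeFactors.powerset ×ˢ n.primeFactors.powerset ×ˢ n.primeFactors.powerset,
        C1 ^ (3 * n.primeFactors.card + 1) := by
        refine sum_le_sum fun b hb => ?_
        obtain ⟨A, T', Z'⟩ := b
        rw [mem_product, mem_product, mem_powerset, mem_powerset, mem_powerset] at hb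
        refine (cls A T' Z' l hl1 _ ?_ ?_).trans ?_
        · intro x hx
          rw [mem_filter, mem_filter] at hx
          obtain ⟨⟨hx1, hx2⟩, hx3⟩ := hx
          simp only [g, Prod.mk.injEq] at hx3
          obtain ⟨e1, e2, e3⟩ := hx3
          obtain ⟨h1, h2, h3, h4, h5⟩ := hF x hx1
          refine ⟨h1, e1, e2 ▸ h4.1, ?_, h3⟩
          rcases h4.2 with ⟨h6, _⟩ | ⟨h6, _⟩
          · exact Or.inl (e3 ▸ h6)
          · exact Or.inr (e3 ▸ h6)
        · intro x hx y hy hs n1 n2 n3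
          rw [mem_filter, mem_filter] at hx hy
          obtain ⟨⟨hx1, hx2⟩, hx3⟩ := hx
          obtain ⟨⟨hy1, hy2⟩, hy3⟩ := hy
          simp only [g, Prod.mk.injEq] at hx3 hy3
          obtain ⟨e1, e2, e3⟩ := hx3
          obtain ⟨e1', e2', e3'⟩ := hy3
          obtain ⟨h1, h2, h3, h4, h5⟩ := hF x hx1
          obtain ⟨h1', h2', h3', h4', h5'⟩ := hF y hy1
          rw [e2, e3] at h4
          rw [e2', e3'] at h4'
          rw [← e1] at n1
          obtain ⟨q1, q2, q3⟩ := gap l hl0 T' Z' x.1 x.2.1 x.2.2 y.1 y.2.1 y.2.2 h1 h1' h2 h3 h2' h3'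
            h4 h4' hs n1 n2 n3
          exact Prod.ext q1 (Prod.ext q2 q3)
        · refine pow_le_pow_right₀ hC1 ?_
          have := card_le_card hb.1
          have := card_le_card hb.2.1
          have := card_le_card hb.2.2
          simp only at *
          omega
    _ = C1 * (8 * C1 ^ 3) ^ n.primeFactors.card := by
        rw [sum_const, card_product, card_product, card_powerset, nsmul_eq_mul]
        push_cast
        rw [mul_pow, ← pow_mul, show (8 : ℝ) = 2 * 2 * 2 by norm_num, mul_pow, mul_pow, pow_succ]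
        ring

theorem core (hg : Gap) (hc : Classes) : Core := by
  classical
  intro m δ ε hm hδ hδ4 hε
  obtain ⟨k, L0, hk, hL0, gap⟩ := hg m δ hm hδ hδ4
  obtain ⟨C1, hC1, cls⟩ := hc m k hm (by omega)
  obtain ⟨Ce, hCe, home⟩ := core_omega (8 * C1 ^ 3) ε (by
    have : 1 ≤ C1 ^ 3 := one_le_pow₀ hC1
    linarith) hε
  obtain ⟨N, hN⟩ : ∃ N : ℕ, N = ⌊Real.exp L0⌋₊ := ⟨_, rfl⟩
  refine ⟨((2 * N + 1) ^ 2 : ℕ) + k * (C1 * Ce), by positivity, ?_⟩
  intro R H hR hH F hF
  choose! T Z hTZ using fun x hx => (hF x hx).2.2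
  have hk1 : (1 : ℝ) < k := by exact_mod_cast (by omega : 1 < k)
  have hk0 : (0 : ℝ) < k := by linarith
  obtain ⟨q, hq⟩ : ∃ q : ℝ, q = 1 - 1 / (k : ℝ) := ⟨_, rfl⟩
  have hq0 : 0 < q := by
    rw [hq, sub_pos, div_lt_one hk0]
    exact hk1
  have hq1 : q < 1 := by
    rw [hq]
    have : 0 < 1 / (k : ℝ) := by positivity
    linarith
  have hqi : 1 < 1 / q := by
    rw [lt_div_iff₀ hq0]
    linarith
  have hlogH : 0 ≤ Real.log H := Real.log_nonneg hH
  -- small heights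
  have hsmall : ((F.filter (fun x => ht x.1 x.2.1 ≤ L0)).card : ℝ) ≤ ((2 * N + 1) ^ 2 : ℕ) := by
    have h1 : (F.filter (fun x => ht x.1 x.2.1 ≤ L0)).card ≤
        (Icc (-(N : ℤ)) N ×ˢ Icc (-(N : ℤ)) N).card := by
      refine card_le_card_of_injOn (fun x => (x.1, x.2.1)) ?_ ?_
      · intro x hx
        simp only [coe_filter, Set.mem_ofPred_eq] at hx
        obtain ⟨hx1, hx2⟩ := hx
        have hs := (hF x hx1).1
        have hu : (0 : ℝ) < |(x.1 : ℝ)| := abs_pos.mpr (by exact_mod_cast hs.u0)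
        have hmax : 0 < max |(x.1 : ℝ)| |(x.2.1 : ℝ)| := lt_of_lt_of_le hu (le_max_left _ _)
        have h3 : max |(x.1 : ℝ)| |(x.2.1 : ℝ)| ≤ Real.exp L0 :=
          (Real.log_le_iff_le_exp hmax).mp hx2
        have key : ∀ a : ℤ, |(a : ℝ)| ≤ Real.exp L0 → a ∈ Icc (-(N : ℤ)) N := by
          intro a ha
          have h4 : (a.natAbs : ℝ) ≤ Real.exp L0 := by
            rw [Nat.cast_natAbs, Int.cast_abs]
            exact ha
          have h5 : a.natAbs ≤ N := by
            rw [hN]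
            exact Nat.le_floor h4
          rw [mem_Icc]
          omega
        rw [mem_coe, mem_product]
        exact ⟨key _ ((le_max_left _ _).trans h3), key _ ((le_max_right _ _).trans h3)⟩
      · intro x hx y hy hxy
        simp only [coe_filter, Set.mem_ofPred_eq] at hx hy
        simp only [Prod.mk.injEq] at hxy
        have e1 := (hF x hx.1).1.eq
        have e2 := (hF y hy.1).1.eq
        rw [hxy.1, hxy.2, e2] at e1
        have e3 : y.2.2 ^ m = x.2.2 ^ m := by exact_mod_cast e1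
        have e4 := Nat.pow_left_injective (by omega : m ≠ 0) e3
        exact Prod.ext hxy.1 (Prod.ext hxy.2 e4.symm)
    have h2 : (Icc (-(N : ℤ)) N ×ˢ Icc (-(N : ℤ)) N).card = (2 * N + 1) ^ 2 := by
      rw [card_product, Int.card_Icc, pow_two]
      congr 1 <;> omega
    rw [h2] at h1
    exact_mod_cast h1
  -- the scales
  obtain ⟨I, hI⟩ : ∃ I : ℕ, I = ⌊k * Real.log H⌋₊ + 1 := ⟨_, rfl⟩
  have hIle : (I : ℝ) ≤ k * (1 + Real.log H) := by
    rw [hI]
    push_cast
    have := Nat.floor_le (show 0 ≤ (k : ℝ) * Real.log H by positivity)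
    nlinarith
  obtain ⟨li, hli⟩ : ∃ li : ℕ → ℝ, ∀ i, li i = L0 * (1 / q) ^ (i + 1) := ⟨fun i => _, fun i => rfl⟩
  have hcover : F ⊆ F.filter (fun x => ht x.1 x.2.1 ≤ L0) ∪ (range I).biUnion (fun i =>
      F.filter (fun x => (1 - 1 / (k : ℝ)) * li i ≤ ht x.1 x.2.1 ∧ ht x.1 x.2.1 ≤ li i)) := by
    intro x hx
    rw [mem_union, mem_filter, mem_biUnion]
    by_cases h : ht x.1 x.2.1 ≤ L0
    · exact Or.inl ⟨hx, h⟩
    · right
      push Not at h
      have hL0pos : 0 < L0 := by linarith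
      obtain ⟨i, hi1, hi2⟩ := exists_nat_pow_near (x := ht x.1 x.2.1 / L0)
        (by rw [le_div_iff₀ hL0pos]; linarith) hqi
      have hxH := (hF x hx).2.1
      refine ⟨i, ?_, mem_filter.mpr ⟨hx, ?_, ?_⟩⟩
      · rw [mem_range, hI, Nat.lt_add_one_iff]
        refine Nat.le_floor ?_
        have h1 : (1 / q) ^ i ≤ H := by
          refine hi1.trans ?_
          rw [div_le_iff₀ hL0pos]
          nlinarith
        have h2 : (i : ℝ) * Real.log (1 / q) ≤ Real.log H := by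
          rw [← Real.log_pow]
          exact Real.log_le_log (by positivity) h1
        have h3 : 1 / (k : ℝ) ≤ Real.log (1 / q) := by
          rw [one_div q, Real.log_inv, hq]
          have := Real.log_le_sub_one_of_pos (show 0 < 1 - 1 / (k : ℝ) by rw [← hq]; exact hq0)
          linarith
        have h4 : (i : ℝ) * (1 / k) ≤ Real.log H :=
          (mul_le_mul_of_nonneg_left h3 (Nat.cast_nonneg i)).trans h2
        calc (i : ℝ) = k * (i * (1 / k)) := by field_simp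
          _ ≤ k * Real.log H := mul_le_mul_of_nonneg_left h4 hk0.le
      · rw [← hq, hli, pow_succ]
        rw [le_div_iff₀ hL0pos] at hi1
        calc q * (L0 * ((1 / q) ^ i * (1 / q))) = (1 / q) ^ i * L0 * (q * (1 / q)) := by ring
          _ = (1 / q) ^ i * L0 := by rw [mul_one_div_cancel hq0.ne', mul_one]
          _ ≤ _ := hi1
      · rw [hli]
        rw [div_lt_iff₀ hL0pos] at hi2
        linarith [mul_comm L0 ((1 / q) ^ (i + 1))]
  have hsc : ∀ i ∈ range I, ((F.filter (fun x => (1 - 1 / (k : ℝ)) * li i ≤ ht x.1 x.2.1 ∧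
      ht x.1 x.2.1 ≤ li i)).card : ℝ) ≤ C1 * Ce * R ^ (1 + ε) := by
    intro i _
    have hl0 : L0 ≤ li i := by
      rw [hli]
      have : 1 ≤ (1 / q) ^ (i + 1) := one_le_pow₀ hqi.le
      nlinarith
    refine (core_scale hC1 gap cls hl0 (hL0.trans hl0) hR T Z _ ?_).trans ?_
    · intro x hx
      rw [mem_filter] at hx
      exact ⟨(hF x hx.1).1, hx.2.1, hx.2.2, (hTZ x hx.1).1, (hTZ x hx.1).2⟩
    · calc ∑ n ∈ Icc 1 ⌊R⌋₊, C1 * (8 * C1 ^ 3) ^ n.primeFactors.card
          ≤ ∑ _n ∈ Icc 1 ⌊R⌋₊, C1 * (Ce * R ^ ε) := by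
            refine sum_le_sum fun n hn => ?_
            rw [mem_Icc] at hn
            refine mul_le_mul_of_nonneg_left ?_ (by linarith)
            refine (home n (by omega)).trans ?_
            refine mul_le_mul_of_nonneg_left ?_ (by linarith)
            refine Real.rpow_le_rpow (Nat.cast_nonneg n) ?_ hε.le
            exact (Nat.cast_le.mpr hn.2).trans (Nat.floor_le (by linarith))
        _ = (⌊R⌋₊ : ℝ) * (C1 * (Ce * R ^ ε)) := by
            rw [sum_const, Nat.card_Icc, Nat.add_sub_cancel, nsmul_eq_mul]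
        _ ≤ R * (C1 * (Ce * R ^ ε)) := by
            refine mul_le_mul_of_nonneg_right (Nat.floor_le (by linarith)) ?_
            have : 0 ≤ R ^ ε := Real.rpow_nonneg (by linarith) _
            have : 0 ≤ Ce * R ^ ε := mul_nonneg (by linarith) this
            exact mul_nonneg (by linarith) this
        _ = C1 * Ce * R ^ (1 + ε) := by
            rw [Real.rpow_add (by linarith), Real.rpow_one]
            ring
  have hRe : 1 ≤ R ^ (1 + ε) := Real.one_le_rpow hR (by linarith)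
  calc (F.card : ℝ) ≤ ((F.filter (fun x => ht x.1 x.2.1 ≤ L0) ∪ (range I).biUnion (fun i =>
      F.filter (fun x => (1 - 1 / (k : ℝ)) * li i ≤ ht x.1 x.2.1 ∧ ht x.1 x.2.1 ≤ li i))).card : ℝ) := by
        exact_mod_cast card_le_card hcover
    _ ≤ ((F.filter (fun x => ht x.1 x.2.1 ≤ L0)).card : ℝ) + ∑ i ∈ range I, ((F.filter (fun x =>
        (1 - 1 / (k : ℝ)) * li i ≤ ht x.1 x.2.1 ∧ ht x.1 x.2.1 ≤ li i)).card : ℝ) := by
        have h1 := (card_union_le (F.filter (fun x => ht x.1 x.2.1 ≤ L0)) ((range I).biUnion (fun i =>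
          F.filter (fun x => (1 - 1 / (k : ℝ)) * li i ≤ ht x.1 x.2.1 ∧ ht x.1 x.2.1 ≤ li i)))).trans
          (Nat.add_le_add_left card_biUnion_le _)
        exact_mod_cast h1
    _ ≤ ((2 * N + 1) ^ 2 : ℕ) + ∑ _i ∈ range I, C1 * Ce * R ^ (1 + ε) :=
        add_le_add hsmall (sum_le_sum hsc)
    _ = ((2 * N + 1) ^ 2 : ℕ) + I * (C1 * Ce * R ^ (1 + ε)) := by
        rw [sum_const, card_range, nsmul_eq_mul]
    _ ≤ ((2 * N + 1) ^ 2 : ℕ) * (R ^ (1 + ε) * (1 + Real.log H)) +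
        (k * (1 + Real.log H)) * (C1 * Ce * R ^ (1 + ε)) := by
        refine add_le_add ?_ ?_
        · refine le_mul_of_one_le_right (Nat.cast_nonneg _) ?_
          nlinarith
        · refine mul_le_mul_of_nonneg_right hIle ?_
          have : 0 ≤ C1 * Ce := mul_nonneg (by linarith) (by linarith)
          exact mul_nonneg this (by linarith)
    _ = _ := by ring

end Pool.Agent.TH876.PW
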