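import Mathlib
import Pool.Agent.TH876.PW.Def

set_option autoImplicit false

namespace Pool.Agent.TH876.PW

open Finset

lemma Divis_fact_prod (T : Finset ℕ) (f : ℕ → ℕ) (hT : ∀ q ∈ T, q.Prime) (p : ℕ) :
    (∏ q ∈ T, q ^ f q).factorization p = if p ∈ T then f p else 0 := by
  classical
  rw [Nat.factorization_prod (fun q hq => pow_ne_zero _ (hT q hq).ne_zero), Finset.sum_apply']
  have : ∀ q ∈ T, (q ^ f q).factorization p = if p = q then f p else 0 := by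
    intro q hq
    rw [(hT q hq).factorization_pow, Finsupp.single_apply]
    by_cases h : q = p
    · subst h; simp
    · rw [if_neg h, if_neg (fun h' => h h'.symm)]
  rw [Finset.sum_congr rfl this]
  simp

lemma Divis_prime {n : ℤ} {p : ℕ} (h : p ∈ sp n) : p.Prime := Nat.prime_of_mem_primeFactors h

lemma Divis_mem {n : ℤ} {p : ℕ} (hn : n ≠ 0) (hp : p.Prime) : p ∈ sp n ↔ (p : ℤ) ∣ n := by
  unfold sp
  rw [Nat.mem_primeFactors, Int.natCast_dvd]
  constructor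
  · exact fun h => h.2.1
  · exact fun h => ⟨hp, h, by simpa using hn⟩

lemma Divis_pow (p : ℕ) (n : ℤ) : (p : ℤ) ^ vl p n ∣ n := by
  have h : p ^ n.natAbs.factorization p ∣ n.natAbs := Nat.ordProj_dvd _ _
  have h2 := Int.natCast_dvd.2 h
  push_cast at h2
  exact h2

lemma Divis_vl_rt (m : ℕ) (u : ℤ) (p : ℕ) : vl p (rt m u : ℤ) = vl p u / m := by
  unfold vl rt
  rw [Int.natAbs_natCast, Divis_fact_prod _ _ (fun q hq => Divis_prime hq)]
  split_ifs with h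
  · rfl
  · have : u.natAbs.factorization p = 0 := Nat.factorization_eq_zero_iff _ _ |>.2 (by
      unfold sp at h
      rw [Nat.mem_primeFactors] at h
      tauto)
    rw [this, Nat.zero_div]

lemma Divis_decomp (m : ℕ) {u : ℤ} (hu : u ≠ 0) :
    u = u.sign * ((rt m u : ℤ) ^ m * ((∏ p ∈ sp u, p ^ (vl p u % m) : ℕ) : ℤ)) := by
  have h1 : u.natAbs = rt m u ^ m * ∏ p ∈ sp u, p ^ (vl p u % m) := by
    have h0 : u.natAbs ≠ 0 := by simpa using hu
    unfold rt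
    rw [← Finset.prod_pow, ← Finset.prod_mul_distrib]
    conv_lhs => rw [← Nat.factorization_prod_pow_eq_self h0]
    unfold Finsupp.prod
    rw [Nat.support_factorization]
    refine Finset.prod_congr rfl fun p _ => ?_
    rw [← pow_mul, ← pow_add]
    congr 1
    unfold vl
    rw [mul_comm, Nat.div_add_mod]
  have h2 : u = u.sign * (u.natAbs : ℤ) := (Int.sign_mul_natAbs u).symm
  conv_lhs => rw [h2, h1]
  push_cast
  rfl

lemma Divis_cross {m : ℕ} {T : Finset ℕ} {u w : ℤ} {z : ℕ} {u' w' : ℤ} {z' : ℕ}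
    (hu : u ≠ 0) (hu' : u' ≠ 0) (hS : Same m T u w z u' w' z') :
    u * (rt m u' : ℤ) ^ m = u' * (rt m u : ℤ) ^ m := by
  have h1 := Divis_decomp m hu
  have h2 := Divis_decomp m hu'
  have h3 : (∏ p ∈ sp u, p ^ (vl p u % m) : ℕ) = ∏ p ∈ sp u', p ^ (vl p u' % m) := by
    rw [← hS.sup]
    exact Finset.prod_congr rfl fun p hp => by rw [hS.exp p hp]
  rw [← hS.sgn, ← h3] at h2
  generalize ((∏ p ∈ sp u, p ^ (vl p u % m) : ℕ) : ℤ) = R at h1 h2
  generalize u.sign = s at h1 h2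
  generalize (rt m u : ℤ) = U at h1 h2 ⊢
  generalize (rt m u' : ℤ) = U' at h1 h2 ⊢
  rw [h1, h2]
  ring

lemma Divis_lte {p : ℕ} (hp : p.Prime) {x y : ℤ} (hxy : (p : ℤ) ∣ x - y)
    (h4 : p = 2 → (4 : ℤ) ∣ x - y) (hx : ¬ (p : ℤ) ∣ x) (n k : ℕ)
    (hk : (p : ℤ) ^ k ∣ x ^ n - y ^ n) : (p : ℤ) ^ k ∣ (x - y) * n := by
  have hpi : Prime (p : ℤ) := Nat.prime_iff_prime_int.1 hp
  have key : emultiplicity (p : ℤ) (x ^ n - y ^ n) =
      emultiplicity (p : ℤ) (x - y) + emultiplicity (p : ℤ) (n : ℤ) := by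
    rcases hp.eq_two_or_odd' with h2 | h2
    · subst h2
      exact Int.two_pow_sub_pow' n (h4 rfl) hx
    · rw [Int.emultiplicity_pow_sub_pow hp h2 hxy hx n, Int.natCast_emultiplicity]
  rw [pow_dvd_iff_le_emultiplicity] at hk ⊢
  rw [emultiplicity_mul hpi, ← key]
  exact hk

/-- the part of the prime `p` of `T` not dividing `u` -/
lemma Divis_B {m : ℕ} {T : Finset ℕ} {u w : ℤ} {z : ℕ} {u' w' : ℤ} {z' : ℕ}
    (hm : 2 ≤ m) (h : Sol m u w z) (h' : Sol m u' w' z') (hT : T ⊆ sp w)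
    (hS : Same m T u w z u' w' z') {p : ℕ} (hpT : p ∈ T) (hpu : ¬ (p : ℤ) ∣ u) :
    (p : ℤ) ^ min (vl p w) (vl p w') ∣ m * ((rt m u : ℤ) * z' - (rt m u' : ℤ) * z) := by
  have hp : p.Prime := Divis_prime (hT hpT)
  have hpi : Prime (p : ℤ) := Nat.prime_iff_prime_int.1 hp
  have hpw : (p : ℤ) ∣ w := (Divis_mem h.w0 hp).1 (hT hpT)
  have hpz : ¬ (p : ℤ) ∣ z := by
    intro hz
    apply hpu
    have h1 : (p : ℤ) ∣ (z : ℤ) ^ m := dvd_pow hz (by omega)
    rw [← h.eq] at h1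
    exact (Int.dvd_add_left hpw).1 h1
  have hpU : ¬ (p : ℤ) ∣ (rt m u' : ℤ) := by
    intro hU
    unfold rt at hU
    push_cast at hU
    rw [Prime.dvd_finset_prod_iff hpi] at hU
    obtain ⟨q, hq, hd⟩ := hU
    have h1 : (p : ℤ) ∣ (q : ℤ) := hpi.dvd_of_dvd_pow hd
    rw [Int.natCast_dvd_natCast] at h1
    have h2 : p = q := (Nat.prime_dvd_prime_iff_eq hp (Divis_prime hq)).1 h1
    subst h2
    rw [← hS.sup] at hq
    exact hpu ((Divis_mem h.u0 hp).1 hq)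
  have hx : ¬ (p : ℤ) ∣ (z : ℤ) * (rt m u' : ℤ) := by
    intro h1
    rcases hpi.dvd_or_dvd h1 with h2 | h2
    · exact hpz h2
    · exact hpU h2
  have e1 : (z : ℤ) * (rt m u' : ℤ) - (z' : ℤ) * (rt m u : ℤ) =
      - ((rt m u : ℤ) * z' - (rt m u' : ℤ) * z) := by ring
  have hxy : (p : ℤ) ∣ (z : ℤ) * (rt m u' : ℤ) - (z' : ℤ) * (rt m u : ℤ) := by
    rw [e1, dvd_neg]
    by_cases h2 : p = 2
    · subst h2
      have := hS.two hpT hpu
      exact dvd_trans (by norm_num) this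
    · exact hS.res p hpT h2
  have h4 : p = 2 → (4 : ℤ) ∣ (z : ℤ) * (rt m u' : ℤ) - (z' : ℤ) * (rt m u : ℤ) := by
    intro h2
    subst h2
    rw [e1, dvd_neg]
    exact hS.two hpT hpu
  have hk : (p : ℤ) ^ min (vl p w) (vl p w') ∣
      ((z : ℤ) * (rt m u' : ℤ)) ^ m - ((z' : ℤ) * (rt m u : ℤ)) ^ m := by
    have e2 : ((z : ℤ) * (rt m u' : ℤ)) ^ m - ((z' : ℤ) * (rt m u : ℤ)) ^ m =
        w * (rt m u' : ℤ) ^ m - w' * (rt m u : ℤ) ^ m := by
      rw [mul_pow, mul_pow, ← h.eq, ← h'.eq]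
      have := Divis_cross h.u0 h'.u0 hS
      linear_combination this
    rw [e2]
    apply dvd_sub
    · exact dvd_mul_of_dvd_left (dvd_trans (pow_dvd_pow _ (min_le_left _ _)) (Divis_pow p w)) _
    · exact dvd_mul_of_dvd_left (dvd_trans (pow_dvd_pow _ (min_le_right _ _)) (Divis_pow p w')) _
  have h5 := Divis_lte hp hxy h4 hx m _ hk
  rw [e1] at h5
  have e3 : -((rt m u : ℤ) * z' - (rt m u' : ℤ) * z) * (m : ℤ) =
      - (m * ((rt m u : ℤ) * z' - (rt m u' : ℤ) * z)) := by ring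
  rw [e3, dvd_neg] at h5
  exact h5

lemma Divis_part {m : ℕ} {T Z : Finset ℕ} {u w : ℤ} {z : ℕ} {u' w' : ℤ} {z' : ℕ}
    (hm : 2 ≤ m) (h : Sol m u w z) (h' : Sol m u' w' z') (hT : T ⊆ sp w)
    (hZ : Z = ∅ ∨ (Z = sp (z : ℤ) ∧ Z = sp (z' : ℤ)))
    (hS : Same m T u w z u' w' z') {p : ℕ} (hp : p.Prime) :
    (p : ℤ) ^ ((if p ∈ sp u then min (vl p (rt m u : ℤ)) (vl p (rt m u' : ℤ)) else 0) +
      (if p ∈ T then min (vl p w) (vl p w') else 0) +
      (if p ∈ Z then min (vl p (z : ℤ)) (vl p (z' : ℤ)) else 0)) ∣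
    2 * m * ((rt m u : ℤ) * z' - (rt m u' : ℤ) * z) := by
  have hpi : Prime (p : ℤ) := Nat.prime_iff_prime_int.1 hp
  have hz0 : (z : ℤ) ≠ 0 := by exact_mod_cast h.z0.ne'
  have hA : (p : ℤ) ^ min (vl p (rt m u : ℤ)) (vl p (rt m u' : ℤ)) ∣
      (rt m u : ℤ) * z' - (rt m u' : ℤ) * z := by
    apply dvd_sub
    · exact dvd_mul_of_dvd_left (dvd_trans (pow_dvd_pow _ (min_le_left _ _)) (Divis_pow p _)) _
    · exact dvd_mul_of_dvd_left (dvd_trans (pow_dvd_pow _ (min_le_right _ _)) (Divis_pow p _)) _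
  have hC : (p : ℤ) ^ min (vl p (z : ℤ)) (vl p (z' : ℤ)) ∣
      (rt m u : ℤ) * z' - (rt m u' : ℤ) * z := by
    apply dvd_sub
    · exact dvd_mul_of_dvd_right (dvd_trans (pow_dvd_pow _ (min_le_right _ _)) (Divis_pow p _)) _
    · exact dvd_mul_of_dvd_right (dvd_trans (pow_dvd_pow _ (min_le_left _ _)) (Divis_pow p _)) _
  -- membership in `Z` means divisibility of `z`
  have hZz : p ∈ Z → (p : ℤ) ∣ z := by
    intro hpZ
    rcases hZ with h0 | ⟨h1, -⟩
    · rw [h0] at hpZ; simp at hpZ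
    · rw [h1] at hpZ
      exact (Divis_mem hz0 hp).1 hpZ
  have hTw : p ∈ T → (p : ℤ) ∣ w := fun hpT => (Divis_mem h.w0 hp).1 (hT hpT)
  by_cases hu : (p : ℤ) ∣ u
  · have hu' : p ∈ sp u := (Divis_mem h.u0 hp).2 hu
    rw [if_pos hu']
    by_cases hw : (p : ℤ) ∣ w
    · -- `p = 2`
      have h1 : (p : ℤ) ∣ (Int.gcd u w : ℤ) := Int.dvd_coe_gcd hu hw
      have h2 : p ∣ 2 := dvd_trans (by exact_mod_cast h1) h.gcd
      have h3 : p = 2 := (Nat.prime_dvd_prime_iff_eq hp Nat.prime_two).1 h2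
      subst h3
      have hz : ((2 : ℕ) : ℤ) ∣ (z : ℤ) := by
        apply hpi.dvd_of_dvd_pow (n := m)
        rw [← h.eq]
        exact dvd_add hu hw
      have hz4 : (4 : ℤ) ∣ u + w := by
        rw [h.eq]
        have : (2 : ℤ) ^ 2 ∣ (z : ℤ) ^ m :=
          dvd_trans (pow_dvd_pow_of_dvd (by exact_mod_cast hz) 2) (pow_dvd_pow _ hm)
        norm_num at this
        exact this
      have hn : ¬ ((4 : ℤ) ∣ u ∧ (4 : ℤ) ∣ w) := by
        rintro ⟨h5, h6⟩
        have h7 : (4 : ℤ) ∣ (Int.gcd u w : ℤ) := Int.dvd_coe_gcd h5 h6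
        have h8 : (4 : ℕ) ∣ Int.gcd u w := by exact_mod_cast h7
        have h9 := Nat.le_of_dvd (by norm_num) (dvd_trans h8 h.gcd)
        omega
      have hu4 : ¬ (4 : ℤ) ∣ u := fun h5 => hn ⟨h5, (Int.dvd_add_right h5).1 hz4⟩
      have hw4 : ¬ (4 : ℤ) ∣ w := fun h5 => hn ⟨(Int.dvd_add_left h5).1 hz4, h5⟩
      have hvl : ∀ n : ℤ, ¬ (4 : ℤ) ∣ n → vl 2 n ≤ 1 := by
        intro n h5
        by_contra h6
        push Not at h6
        apply h5
        have h7 := dvd_trans (pow_dvd_pow ((2 : ℕ) : ℤ) (show 2 ≤ vl 2 n by omega)) (Divis_pow 2 n)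
        norm_num at h7
        exact h7
      have hvU : vl 2 (rt m u : ℤ) = 0 := by
        rw [Divis_vl_rt]
        have := hvl u hu4
        exact Nat.div_eq_of_lt (by omega)
      have hvw := hvl w hw4
      have e1 : min (vl 2 (rt m u : ℤ)) (vl 2 (rt m u' : ℤ)) = 0 := by omega
      rw [e1, zero_add, pow_add]
      have h10 : ((2 : ℕ) : ℤ) ^ (if 2 ∈ T then min (vl 2 w) (vl 2 w') else 0) ∣ 2 := by
        have : (if 2 ∈ T then min (vl 2 w) (vl 2 w') else 0) ≤ 1 := by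
          split_ifs <;> omega
        calc ((2 : ℕ) : ℤ) ^ (if 2 ∈ T then min (vl 2 w) (vl 2 w') else 0) ∣ ((2 : ℕ) : ℤ) ^ 1 :=
              pow_dvd_pow _ this
          _ = 2 := by norm_num
      have h11 : ((2 : ℕ) : ℤ) ^ (if 2 ∈ Z then min (vl 2 (z : ℤ)) (vl 2 (z' : ℤ)) else 0) ∣
          (rt m u : ℤ) * z' - (rt m u' : ℤ) * z := by
        split_ifs
        · exact hC
        · simp
      rw [mul_assoc]
      exact mul_dvd_mul h10 (dvd_mul_of_dvd_right h11 _)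
    · have h1 : p ∉ T := fun h2 => hw (hTw h2)
      have h2 : p ∉ Z := by
        intro h3
        apply hw
        have h4 : (p : ℤ) ∣ (z : ℤ) ^ m := dvd_pow (hZz h3) (by omega)
        rw [← h.eq] at h4
        exact (Int.dvd_add_right hu).1 h4
      rw [if_neg h1, if_neg h2, add_zero, add_zero]
      exact dvd_mul_of_dvd_right hA _
  · have hu' : p ∉ sp u := fun h1 => hu ((Divis_mem h.u0 hp).1 h1)
    rw [if_neg hu', zero_add]
    by_cases hpT : p ∈ T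
    · have h2 : p ∉ Z := by
        intro h3
        apply hu
        have h4 : (p : ℤ) ∣ (z : ℤ) ^ m := dvd_pow (hZz h3) (by omega)
        rw [← h.eq] at h4
        exact (Int.dvd_add_left (hTw hpT)).1 h4
      rw [if_pos hpT, if_neg h2, add_zero, mul_assoc]
      exact dvd_mul_of_dvd_right (Divis_B hm h h' hT hS hpT hu) _
    · rw [if_neg hpT, zero_add]
      split_ifs
      · exact dvd_mul_of_dvd_right hC _
      · simp

theorem divis : Divis := by
  intro m hm T Z u w z u' w' z' h h' hT hT' hZ hS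
  rw [Int.natCast_dvd, Nat.dvd_iff_prime_pow_dvd_dvd]
  intro p k hp hk
  have hTp : ∀ q ∈ T, q.Prime := fun q hq => Divis_prime (hT hq)
  have hZp : ∀ q ∈ Z, q.Prime := by
    intro q hq
    rcases hZ with h0 | ⟨h1, -⟩
    · rw [h0] at hq; simp at hq
    · rw [h1] at hq; exact Divis_prime hq
  have hup : ∀ q ∈ sp u, q.Prime := fun q hq => Divis_prime hq
  have n1 : cm (sp u) (rt m u : ℤ) (rt m u' : ℤ) ≠ 0 :=
    Finset.prod_ne_zero_iff.2 fun q hq => pow_ne_zero _ (hup q hq).ne_zero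
  have n2 : cm T w w' ≠ 0 :=
    Finset.prod_ne_zero_iff.2 fun q hq => pow_ne_zero _ (hTp q hq).ne_zero
  have n3 : cm Z (z : ℤ) (z' : ℤ) ≠ 0 :=
    Finset.prod_ne_zero_iff.2 fun q hq => pow_ne_zero _ (hZp q hq).ne_zero
  rw [hp.pow_dvd_iff_le_factorization (mul_ne_zero (mul_ne_zero n1 n2) n3),
    Nat.factorization_mul (mul_ne_zero n1 n2) n3, Nat.factorization_mul n1 n2,
    Finsupp.add_apply, Finsupp.add_apply] at hk
  unfold cm at hk
  rw [Divis_fact_prod _ _ hup, Divis_fact_prod _ _ hTp, Divis_fact_prod _ _ hZp] at hk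
  have h1 := dvd_trans (pow_dvd_pow (p : ℤ) hk) (Divis_part hm h h' hT hZ hS hp)
  have h2 : ((p ^ k : ℕ) : ℤ) ∣ 2 * m * ((rt m u : ℤ) * z' - (rt m u' : ℤ) * z) := by
    push_cast
    exact h1
  exact Int.natCast_dvd.1 h2

end Pool.Agent.TH876.PW
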