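import Mathlib
import Pool.Agent.TH876.PW.Divis

set_option autoImplicit false

/-!
# The gap principle
-/

namespace Pool.Agent.TH876.PW

open Finset

lemma Gap_log_nonneg (p : ℕ) : 0 ≤ Real.log (p : ℝ) := Real.log_natCast_nonneg p

lemma Gap_cm_pos (T : Finset ℕ) (hT : ∀ p ∈ T, p.Prime) (n n' : ℤ) : 0 < cm T n n' :=
  Finset.prod_pos fun p hp => pow_pos (hT p hp).pos _

lemma Gap_log_prod (T : Finset ℕ) (hT : ∀ p ∈ T, p.Prime) (f : ℕ → ℕ) :
    Real.log ((∏ p ∈ T, p ^ f p : ℕ) : ℝ) = ∑ p ∈ T, (f p : ℝ) * Real.log p := by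
  push_cast
  rw [Real.log_prod]
  · exact Finset.sum_congr rfl fun p _ => Real.log_pow _ _
  · intro p hp
    have := (hT p hp).pos
    positivity

/-- the common part is large -/
lemma Gap_cm_ge {k : ℕ} {l : ℝ} {T : Finset ℕ} (hT : ∀ p ∈ T, p.Prime) {n n' : ℤ}
    (h : Near k l T n n') :
    wt T n - l / k ≤ Real.log (cm T n n' : ℝ) ∧ wt T n' - l / k ≤ Real.log (cm T n n' : ℝ) := by
  unfold cm
  rw [Gap_log_prod T hT]
  unfold Near at h
  unfold wt
  constructor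
  · have h1 : ∑ p ∈ T, (vl p n : ℝ) * Real.log p ≤
        ∑ p ∈ T, (((min (vl p n) (vl p n') : ℕ) : ℝ) * Real.log p +
          |(vl p n : ℝ) - vl p n'| * Real.log p) := by
      apply Finset.sum_le_sum
      intro p _
      rw [← add_mul]
      apply mul_le_mul_of_nonneg_right _ (Gap_log_nonneg p)
      push_cast
      rcases le_total (vl p n : ℝ) (vl p n') with h2 | h2
      · rw [min_eq_left h2]; linarith [abs_nonneg ((vl p n : ℝ) - vl p n')]
      · rw [min_eq_right h2]; linarith [le_abs_self ((vl p n : ℝ) - vl p n')]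
    rw [Finset.sum_add_distrib] at h1
    linarith
  · have h1 : ∑ p ∈ T, (vl p n' : ℝ) * Real.log p ≤
        ∑ p ∈ T, (((min (vl p n) (vl p n') : ℕ) : ℝ) * Real.log p +
          |(vl p n : ℝ) - vl p n'| * Real.log p) := by
      apply Finset.sum_le_sum
      intro p _
      rw [← add_mul]
      apply mul_le_mul_of_nonneg_right _ (Gap_log_nonneg p)
      push_cast
      rcases le_total (vl p n : ℝ) (vl p n') with h2 | h2
      · rw [min_eq_left h2]; linarith [neg_abs_le ((vl p n : ℝ) - vl p n')]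
      · rw [min_eq_right h2]; linarith [abs_nonneg ((vl p n : ℝ) - vl p n')]
    rw [Finset.sum_add_distrib] at h1
    linarith

/-- the logarithm of the root -/
lemma Gap_log_rt (m : ℕ) (u : ℤ) : Real.log (rt m u : ℝ) = wt (sp u) (rt m u : ℤ) := by
  unfold wt
  simp only [Divis_vl_rt]
  exact Gap_log_prod (sp u) (fun _ hp => Divis_prime hp) (fun p => vl p u / m)

lemma Gap_rt_pos (m : ℕ) (u : ℤ) : 0 < rt m u :=
  Finset.prod_pos fun _ hp => pow_pos (Divis_prime hp).pos _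

/-- the logarithm of a positive integer -/
lemma Gap_log_z {z : ℕ} (hz : 0 < z) : Real.log (z : ℝ) = wt (sp (z : ℤ)) (z : ℤ) := by
  have h1 : z = ∏ p ∈ sp (z : ℤ), p ^ vl p (z : ℤ) := by
    unfold sp vl
    rw [Int.natAbs_natCast]
    conv_lhs => rw [← Nat.prod_factorization_pow_eq_self hz.ne']
    unfold Finsupp.prod
    rw [Nat.support_factorization]
  unfold wt
  rw [← Gap_log_prod (sp (z : ℤ)) (fun _ hp => Divis_prime hp) (fun p => vl p (z : ℤ)), ← h1]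

lemma Gap_div_abs {m a b : ℕ} (hm : 1 ≤ m) (h : a % m = b % m) :
    |((a / m : ℕ) : ℝ) - ((b / m : ℕ) : ℝ)| ≤ |(a : ℝ) - b| := by
  have h1 : ((m * (a / m) + a % m : ℕ) : ℝ) = a := by rw [Nat.div_add_mod]
  have h2 : ((m * (b / m) + b % m : ℕ) : ℝ) = b := by rw [Nat.div_add_mod]
  rw [h] at h1
  push_cast at h1 h2
  have h3 : (a : ℝ) - b = m * (((a / m : ℕ) : ℝ) - ((b / m : ℕ) : ℝ)) := by
    linarith
  rw [h3, abs_mul, Nat.abs_cast]
  have h4 : (1 : ℝ) ≤ m := by exact_mod_cast hm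
  nlinarith [abs_nonneg (((a / m : ℕ) : ℝ) - ((b / m : ℕ) : ℝ))]

lemma Gap_near_rt {m k : ℕ} {l : ℝ} {T : Finset ℕ} {u w : ℤ} {z : ℕ} {u' w' : ℤ} {z' : ℕ}
    (hm : 1 ≤ m) (hS : Same m T u w z u' w' z') (h : Near k l (sp u) u u') :
    Near k l (sp u) (rt m u : ℤ) (rt m u' : ℤ) := by
  unfold Near at *
  refine le_trans (Finset.sum_le_sum fun p hp => ?_) h
  apply mul_le_mul_of_nonneg_right _ (Gap_log_nonneg p)
  rw [Divis_vl_rt, Divis_vl_rt]
  exact Gap_div_abs hm (hS.exp p hp)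

/-- both solutions satisfy the same alternative -/
lemma Gap_cases {m : ℕ} {δ : ℝ} {T Z : Finset ℕ} {w : ℤ} {z : ℕ} {w' : ℤ} {z' : ℕ}
    (w0 : w ≠ 0) (w0' : w' ≠ 0) (z0 : 0 < z) (z0' : 0 < z')
    (h : Large m δ T Z w z) (h' : Large m δ T Z w' z') (one : z = 1 ↔ z' = 1) :
    (Z = ∅ ∧ (1 / (m : ℝ) + δ) * Real.log |(w : ℝ)| ≤ wt T w ∧
      (1 / (m : ℝ) + δ) * Real.log |(w' : ℝ)| ≤ wt T w') ∨
    ((Z = sp (z : ℤ) ∧ Z = sp (z' : ℤ)) ∧ δ * Real.log |(w : ℝ)| ≤ wt T w ∧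
      δ * Real.log |(w' : ℝ)| ≤ wt T w') := by
  have hlog : ∀ v : ℤ, v ≠ 0 → δ * Real.log |(v : ℝ)| ≤ (1 / (m : ℝ) + δ) * Real.log |(v : ℝ)| := by
    intro v hv
    have h1 : (1 : ℝ) ≤ |(v : ℝ)| := by exact_mod_cast Int.one_le_abs hv
    have h2 := Real.log_nonneg h1
    have h3 : (0 : ℝ) ≤ 1 / (m : ℝ) := by positivity
    nlinarith [mul_nonneg h3 h2]
  have hsp : ∀ y : ℕ, 0 < y → sp (y : ℤ) = ∅ → y = 1 := by
    intro y hy h1
    unfold sp at h1
    rw [Int.natAbs_natCast, Nat.primeFactors_eq_empty] at h1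
    omega
  have hsp1 : sp ((1 : ℕ) : ℤ) = ∅ := by
    unfold sp
    rw [Int.natAbs_natCast, Nat.primeFactors_one]
  obtain ⟨_, h1⟩ := h
  obtain ⟨_, h2⟩ := h'
  rcases h1 with ⟨hZ, h1⟩ | ⟨hZ, h1⟩ <;> rcases h2 with ⟨hZ', h2⟩ | ⟨hZ', h2⟩
  · exact Or.inl ⟨hZ, h1, h2⟩
  · right
    have e1 := hsp z' z0' (by rw [← hZ']; exact hZ)
    have e2 := one.2 e1
    refine ⟨⟨?_, hZ'⟩, (hlog w w0).trans h1, h2⟩
    rw [e2, hsp1]; exact hZ
  · right
    have e1 := hsp z z0 (by rw [← hZ]; exact hZ')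
    have e2 := one.1 e1
    refine ⟨⟨hZ, ?_⟩, h1, (hlog w' w0').trans h2⟩
    rw [e2, hsp1]; exact hZ'
  · exact Or.inr ⟨⟨hZ, hZ'⟩, h1, h2⟩

lemma Gap_pow {X Y : ℝ} (hX : 0 ≤ X) (hY : 0 ≤ Y) {m : ℕ} (hm : 1 ≤ m) :
    |X - Y| * X ^ (m - 1) ≤ |X ^ m - Y ^ m| := by
  obtain ⟨j, rfl⟩ : ∃ j, m = j + 1 := ⟨m - 1, by omega⟩
  rw [Nat.add_sub_cancel]
  rcases le_total Y X with h | h
  · have h1 : Y ^ j ≤ X ^ j := pow_le_pow_left₀ hY h j
    have h2 : Y ^ (j + 1) ≤ X ^ (j + 1) := pow_le_pow_left₀ hY h _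
    rw [abs_of_nonneg (by linarith), abs_of_nonneg (by linarith), pow_succ, pow_succ]
    nlinarith [mul_le_mul_of_nonneg_right h1 hY]
  · have h1 : X ^ j ≤ Y ^ j := pow_le_pow_left₀ hX h j
    have h2 : X ^ (j + 1) ≤ Y ^ (j + 1) := pow_le_pow_left₀ hX h _
    rw [abs_of_nonpos (by linarith), abs_of_nonpos (by linarith), pow_succ, pow_succ]
    nlinarith [mul_le_mul_of_nonneg_right h1 hY]

/-- the upper bound for the determinant if the first summand is larger -/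
lemma Gap_E {m : ℕ} (hm : 1 ≤ m) {U U' z z' w w' W : ℝ} (hU : 0 < U) (hU' : 0 < U') (hz : 0 < z)
    (hz' : 0 < z') (hE : (z * U') ^ m - (z' * U) ^ m = w * U' ^ m - w' * U ^ m) (hle : U ≤ U')
    (hw : |w| ≤ W) (hw' : |w'| ≤ W) : |U * z' - U' * z| * z ^ (m - 1) ≤ 2 * W * U' := by
  have h1 := Gap_pow (mul_pos hz hU').le (mul_pos hz' hU).le hm
  rw [hE] at h1
  obtain ⟨j, rfl⟩ : ∃ j, m = j + 1 := ⟨m - 1, by omega⟩
  rw [Nat.add_sub_cancel] at h1 ⊢
  have h2 : |w * U' ^ (j + 1) - w' * U ^ (j + 1)| ≤ W * U' ^ (j + 1) + W * U ^ (j + 1) := by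
    refine (abs_sub _ _).trans ?_
    rw [abs_mul, abs_mul, abs_of_pos (pow_pos hU' _), abs_of_pos (pow_pos hU _)]
    exact add_le_add (mul_le_mul_of_nonneg_right hw (pow_pos hU' _).le)
      (mul_le_mul_of_nonneg_right hw' (pow_pos hU _).le)
  have hW : 0 ≤ W := (abs_nonneg w).trans hw
  have h3 : U ^ (j + 1) ≤ U' ^ (j + 1) := pow_le_pow_left₀ hU.le hle _
  have h4 : W * U ^ (j + 1) ≤ W * U' ^ (j + 1) := mul_le_mul_of_nonneg_left h3 hW
  have h5 : |z * U' - z' * U| = |U * z' - U' * z| := by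
    rw [← abs_neg]; congr 1; ring
  rw [h5, mul_pow] at h1
  have h6 : (|U * z' - U' * z| * z ^ j) * U' ^ j ≤ (2 * W * U') * U' ^ j := by
    have e1 : (2 * W * U') * U' ^ j = W * U' ^ (j + 1) + W * U' ^ (j + 1) := by ring
    have e2 : (|U * z' - U' * z| * z ^ j) * U' ^ j =
      |U * z' - U' * z| * (z ^ j * U' ^ j) := by ring
    rw [e1, e2]
    linarith
  exact le_of_mul_le_mul_right h6 (pow_pos hU' _)

/-- the same with logarithms -/
lemma Gap_logE {m : ℕ} (hm : 1 ≤ m) {U U' z z' w w' W B : ℝ} (hU : 0 < U) (hU' : 0 < U')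
    (hz : 0 < z) (hz' : 0 < z') (hE : (z * U') ^ m - (z' * U) ^ m = w * U' ^ m - w' * U ^ m)
    (hle : U ≤ U') (hw : |w| ≤ W) (hw' : |w'| ≤ W) (hW : 0 < W) (hF : U * z' - U' * z ≠ 0)
    (hB : B ≤ m * Real.log z) :
    Real.log |U * z' - U' * z| + (1 - 1 / (m : ℝ)) * B ≤ Real.log 2 + Real.log W + Real.log U' := by
  have h1 := Gap_E hm hU hU' hz hz' hE hle hw hw'
  have hF' : 0 < |U * z' - U' * z| := abs_pos.2 hF
  have hpos : 0 < |U * z' - U' * z| * z ^ (m - 1) := mul_pos hF' (pow_pos hz _)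
  have h2 := Real.log_le_log hpos h1
  rw [Real.log_mul hF'.ne' (pow_pos hz _).ne', Real.log_pow,
    Real.log_mul (by positivity) hU'.ne', Real.log_mul (by norm_num) hW.ne'] at h2
  have hm0 : (0 : ℝ) < m := by exact_mod_cast hm
  have h3 : (((m - 1 : ℕ) : ℝ)) = (1 - 1 / (m : ℝ)) * m := by
    rw [Nat.cast_sub hm]
    field_simp
    push_cast
    ring
  rw [h3] at h2
  have h4 : 0 ≤ 1 - 1 / (m : ℝ) := by
    have h5 : (1 : ℝ) ≤ m := by exact_mod_cast hm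
    rw [sub_nonneg, div_le_one hm0]
    exact h5
  have h6 := mul_le_mul_of_nonneg_left hB h4
  have h7 : (1 - 1 / (m : ℝ)) * m * Real.log z = (1 - 1 / (m : ℝ)) * (m * Real.log z) := by ring
  rw [h7] at h2
  linarith

/-- the lower bound for the determinant -/
lemma Gap_D (hd : Divis) {m k : ℕ} {l : ℝ} {T Z : Finset ℕ} {u w : ℤ} {z : ℕ} {u' w' : ℤ} {z' : ℕ}
    (hm : 2 ≤ m) (h : Sol m u w z) (h' : Sol m u' w' z') (hT : T ⊆ sp w) (hT' : T ⊆ sp w')
    (hZ : Z = ∅ ∨ (Z = sp (z : ℤ) ∧ Z = sp (z' : ℤ))) (hS : Same m T u w z u' w' z')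
    (hF : (rt m u : ℤ) * z' - (rt m u' : ℤ) * z ≠ 0)
    (hN1 : Near k l (sp u) u u') (hN2 : Near k l T w w') {c LM LW : ℝ}
    (hc : c * Real.log |(w : ℝ)| ≤ wt T w) (hc' : c * Real.log |(w' : ℝ)| ≤ wt T w')
    (hM : LM = Real.log (rt m u : ℝ) ∨ LM = Real.log (rt m u' : ℝ))
    (hW : LW = Real.log |(w : ℝ)| ∨ LW = Real.log |(w' : ℝ)|) :
    (LM - l / k) + (c * LW - l / k) + Real.log (cm Z (z : ℤ) (z' : ℤ) : ℝ) ≤
      Real.log (2 * m) + Real.log |(rt m u : ℝ) * z' - (rt m u' : ℝ) * z| := by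
  have hpT : ∀ p ∈ T, p.Prime := fun p hp => Divis_prime (hT hp)
  have hpA : ∀ p ∈ sp u, p.Prime := fun _ hp => Divis_prime hp
  have hpZ : ∀ p ∈ Z, p.Prime := by
    intro p hp
    rcases hZ with h1 | h1
    · rw [h1] at hp; exact absurd hp (Finset.notMem_empty p)
    · rw [h1.1] at hp; exact Divis_prime hp
  have p1 := Gap_cm_pos _ hpA (rt m u : ℤ) (rt m u' : ℤ)
  have p2 := Gap_cm_pos _ hpT w w'
  have p3 := Gap_cm_pos _ hpZ (z : ℤ) (z' : ℤ)
  have hm0 : (0 : ℤ) < m := by exact_mod_cast (by omega : 0 < m)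
  have hdv := hd m hm T Z u w z u' w' z' h h' hT hT' hZ hS
  have hne : 2 * (m : ℤ) * ((rt m u : ℤ) * z' - (rt m u' : ℤ) * z) ≠ 0 :=
    mul_ne_zero (by positivity) hF
  have hle := Int.le_of_dvd (abs_pos.2 hne) ((dvd_abs _ _).2 hdv)
  rw [abs_mul, abs_of_pos (by positivity : (0 : ℤ) < 2 * m)] at hle
  have hle2 : ((cm (sp u) (rt m u : ℤ) (rt m u' : ℤ) : ℝ) * (cm T w w' : ℝ) *
      (cm Z (z : ℤ) (z' : ℤ) : ℝ)) ≤ 2 * m * |(rt m u : ℝ) * z' - (rt m u' : ℝ) * z| := by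
    exact_mod_cast hle
  have q1 : (0 : ℝ) < (cm (sp u) (rt m u : ℤ) (rt m u' : ℤ) : ℝ) := by exact_mod_cast p1
  have q2 : (0 : ℝ) < (cm T w w' : ℝ) := by exact_mod_cast p2
  have q3 : (0 : ℝ) < (cm Z (z : ℤ) (z' : ℤ) : ℝ) := by exact_mod_cast p3
  have hFr : (rt m u : ℝ) * z' - (rt m u' : ℝ) * z ≠ 0 := by exact_mod_cast hF
  have hlog := Real.log_le_log (mul_pos (mul_pos q1 q2) q3) hle2
  have hm0' : (0 : ℝ) < 2 * m := by exact_mod_cast (by positivity : (0 : ℤ) < 2 * m)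
  rw [Real.log_mul (mul_pos q1 q2).ne' q3.ne', Real.log_mul q1.ne' q2.ne',
    Real.log_mul hm0'.ne' (abs_pos.2 hFr).ne'] at hlog
  have a1 := Gap_cm_ge hpA (Gap_near_rt (by omega) hS hN1)
  have a2 := Gap_cm_ge hpT hN2
  rw [← Gap_log_rt m u] at a1
  have e1 : wt (sp u) (rt m u' : ℤ) = Real.log (rt m u' : ℝ) := by
    rw [Gap_log_rt m u', hS.sup]
  rw [e1] at a1
  have b1 : LM - l / k ≤ Real.log (cm (sp u) (rt m u : ℤ) (rt m u' : ℤ) : ℝ) := by
    rcases hM with hM | hM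
    · rw [hM]; exact a1.1
    · rw [hM]; exact a1.2
  have b2 : c * LW - l / k ≤ Real.log (cm T w w' : ℝ) := by
    rcases hW with hW | hW
    · rw [hW]; linarith [a2.1]
    · rw [hW]; linarith [a2.2]
  linarith

lemma Gap_false {m : ℕ} {u w : ℤ} {z : ℕ} (h : Sol m u w z) (hb : ¬ 2 * |w| ≤ |u|) :
    ht u w ≤ Real.log 2 + Real.log |(w : ℝ)| ∧
      m * Real.log (z : ℝ) ≤ Real.log 3 + Real.log |(w : ℝ)| := by
  have hb' : |(u : ℝ)| < 2 * |(w : ℝ)| := by exact_mod_cast not_le.1 hb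
  have hw : (0 : ℝ) < |(w : ℝ)| := abs_pos.2 (by exact_mod_cast h.w0)
  have hz : (0 : ℝ) < z := by exact_mod_cast h.z0
  have he : (u : ℝ) + w = (z : ℝ) ^ m := by exact_mod_cast h.eq
  constructor
  · unfold ht
    rw [← Real.log_mul (by norm_num) hw.ne']
    apply Real.log_le_log (lt_of_lt_of_le hw (le_max_right _ _))
    exact max_le hb'.le (by linarith)
  · rw [← Real.log_mul (by norm_num) hw.ne', ← Real.log_pow, ← he]
    apply Real.log_le_log
    · rw [he]; positivity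
    · linarith [le_abs_self (u : ℝ), le_abs_self (w : ℝ)]

lemma Gap_true {m : ℕ} {u w : ℤ} {z : ℕ} (h : Sol m u w z) (hb : 2 * |w| ≤ |u|) :
    Real.log |(w : ℝ)| ≤ ht u w ∧ ht u w - Real.log 2 ≤ m * Real.log (z : ℝ) := by
  have hb' : 2 * |(w : ℝ)| ≤ |(u : ℝ)| := by exact_mod_cast hb
  have hw : (0 : ℝ) < |(w : ℝ)| := abs_pos.2 (by exact_mod_cast h.w0)
  have hz : (0 : ℝ) < z := by exact_mod_cast h.z0
  have he : (u : ℝ) + w = (z : ℝ) ^ m := by exact_mod_cast h.eq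
  have hzm : (0 : ℝ) < (z : ℝ) ^ m := by positivity
  have hu : (0 : ℝ) < |(u : ℝ)| := by linarith
  constructor
  · unfold ht
    exact Real.log_le_log hw (le_max_right _ _)
  · have h1 : max |(u : ℝ)| |(w : ℝ)| = |(u : ℝ)| := max_eq_left (by linarith)
    unfold ht
    rw [h1, ← Real.log_div hu.ne' (by norm_num), ← Real.log_pow, ← he]
    apply Real.log_le_log (by positivity)
    rcases abs_cases (u : ℝ) with ⟨h2, h3⟩ | ⟨h2, h3⟩
    · linarith [neg_abs_le (w : ℝ)]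
    · exfalso
      linarith [le_abs_self (w : ℝ)]

lemma Gap_eq {m : ℕ} {T : Finset ℕ} {u w : ℤ} {z : ℕ} {u' w' : ℤ} {z' : ℕ}
    (h : Sol m u w z) (h' : Sol m u' w' z') (hS : Same m T u w z u' w' z') :
    ((z : ℝ) * (rt m u' : ℝ)) ^ m - ((z' : ℝ) * (rt m u : ℝ)) ^ m =
      (w : ℝ) * (rt m u' : ℝ) ^ m - (w' : ℝ) * (rt m u : ℝ) ^ m := by
  have h1 := Divis_cross h.u0 h'.u0 hS
  have h2 : ((z : ℤ) * (rt m u' : ℤ)) ^ m - ((z' : ℤ) * (rt m u : ℤ)) ^ m =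
      w * (rt m u' : ℤ) ^ m - w' * (rt m u : ℤ) ^ m := by
    rw [mul_pow, mul_pow, ← h.eq, ← h'.eq]
    linear_combination h1
  exact_mod_cast h2

/-- the trivial upper bound for the determinant -/
lemma Gap_F {U U' z z' : ℝ} (hU : 0 < U) (hU' : 0 < U') (hz : 0 < z) (hz' : 0 < z')
    (hF : U * z' - U' * z ≠ 0) : Real.log |U * z' - U' * z| ≤
      max (Real.log U) (Real.log U') + max (Real.log z) (Real.log z') := by
  have hF' : 0 < |U * z' - U' * z| := abs_pos.2 hF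
  rcases le_total (U' * z) (U * z') with h | h
  · have h1 : |U * z' - U' * z| ≤ U * z' := by
      rw [abs_of_nonneg (by linarith)]
      linarith [mul_pos hU' hz]
    have h2 := Real.log_le_log hF' h1
    rw [Real.log_mul hU.ne' hz'.ne'] at h2
    linarith [le_max_left (Real.log U) (Real.log U'), le_max_right (Real.log z) (Real.log z')]
  · have h1 : |U * z' - U' * z| ≤ U' * z := by
      rw [abs_of_nonpos (by linarith)]
      linarith [mul_pos hU hz']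
    have h2 := Real.log_le_log hF' h1
    rw [Real.log_mul hU'.ne' hz.ne'] at h2
    linarith [le_max_right (Real.log U) (Real.log U'), le_max_left (Real.log z) (Real.log z')]

/-- the upper bound for the determinant in the case of small `w`, `w'` -/
lemma Gap_F2 {m : ℕ} (hm : 1 ≤ m) {U U' z z' w w' B : ℝ} (hU : 0 < U) (hU' : 0 < U')
    (hz : 0 < z) (hz' : 0 < z') (hE : (z * U') ^ m - (z' * U) ^ m = w * U' ^ m - w' * U ^ m)
    (hw : w ≠ 0) (hw' : w' ≠ 0) (hF : U * z' - U' * z ≠ 0)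
    (hB : B ≤ m * Real.log z) (hB' : B ≤ m * Real.log z') :
    Real.log |U * z' - U' * z| + (1 - 1 / (m : ℝ)) * B ≤
      Real.log 2 + max (Real.log |w|) (Real.log |w'|) + max (Real.log U) (Real.log U') := by
  have hwp : 0 < |w| := abs_pos.2 hw
  have hwp' : 0 < |w'| := abs_pos.2 hw'
  have hW : 0 < max |w| |w'| := lt_of_lt_of_le hwp (le_max_left _ _)
  have hlW : Real.log (max |w| |w'|) ≤ max (Real.log |w|) (Real.log |w'|) := by
    rcases le_total |w| |w'| with h | h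
    · rw [max_eq_right h]; exact le_max_right _ _
    · rw [max_eq_left h]; exact le_max_left _ _
  rcases le_total U U' with h | h
  · have h1 := Gap_logE hm hU hU' hz hz' hE h (le_max_left |w| |w'|) (le_max_right |w| |w'|)
      hW hF hB
    linarith [le_max_right (Real.log U) (Real.log U')]
  · have e1 : U' * z - U * z' ≠ 0 := fun h2 => hF (by linarith)
    have e2 : |U' * z - U * z'| = |U * z' - U' * z| := abs_sub_comm _ _
    have h1 := Gap_logE (w := w') (w' := w) hm hU' hU hz' hz (by linarith) h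
      (le_max_right |w| |w'|) (le_max_left |w| |w'|) hW e1 hB'
    rw [e2] at h1
    linarith [le_max_left (Real.log U) (Real.log U')]

theorem gap (hd : Divis) (hv : Vanish) : Gap := by
  intro m δ hm hδ hδ4
  obtain ⟨k, hk⟩ : ∃ k : ℕ, 20 / δ ≤ k := exists_nat_ge _
  have hm2 : (2 : ℝ) ≤ m := by exact_mod_cast hm
  have hm0 : (0 : ℝ) < m := by linarith
  obtain ⟨X, hX⟩ : ∃ X, X = Real.log (2 * m) := ⟨_, rfl⟩
  have hX0 : 0 ≤ X := by rw [hX]; exact Real.log_nonneg (by linarith)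
  have hk80 : (80 : ℝ) ≤ k := by
    refine le_trans ?_ hk
    rw [le_div_iff₀ hδ]
    linarith
  have hk0 : (0 : ℝ) < k := by linarith
  refine ⟨k, 1 + 2 * (X + 4) / δ, ?_, ?_, ?_⟩
  · exact_mod_cast (by linarith : (2 : ℝ) ≤ k)
  · have : 0 ≤ 2 * (X + 4) / δ := by positivity
    linarith
  intro l hl T Z u w z u' w' z' h h' hh1 hh2 hh1' hh2' hL hL' hS hN1 hN2 hN3
  by_contra hne
  have hF : (rt m u : ℤ) * z' - (rt m u' : ℤ) * z ≠ 0 :=
    fun h0 => hne (hv m hm T u w z u' w' z' h h' hS h0)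
  have hFr : (rt m u : ℝ) * z' - (rt m u' : ℝ) * z ≠ 0 := by exact_mod_cast hF
  have hl1 : 1 ≤ l := by
    have : 0 ≤ 2 * (X + 4) / δ := by positivity
    linarith
  obtain ⟨e, he⟩ : ∃ e, e = l / k := ⟨_, rfl⟩
  have he0 : 0 ≤ e := by rw [he]; positivity
  have he1 : e ≤ δ * l / 20 := by
    rw [he, div_le_iff₀ hk0]
    have h1 : 20 ≤ k * δ := by rwa [div_le_iff₀ hδ] at hk
    nlinarith
  have hδl : 2 * (X + 4) ≤ δ * l := by
    have h1 : δ * (2 * (X + 4) / δ) = 2 * (X + 4) := by field_simp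
    have h2 : δ * (1 + 2 * (X + 4) / δ) ≤ δ * l := mul_le_mul_of_nonneg_left hl hδ.le
    rw [mul_add, h1] at h2
    linarith
  have hkl : (1 - 1 / (k : ℝ)) * l = l - e := by rw [he]; ring
  rw [hkl] at hh1 hh1'
  have hU : (0 : ℝ) < rt m u := by exact_mod_cast Gap_rt_pos m u
  have hU' : (0 : ℝ) < rt m u' := by exact_mod_cast Gap_rt_pos m u'
  have hz : (0 : ℝ) < z := by exact_mod_cast h.z0
  have hz' : (0 : ℝ) < z' := by exact_mod_cast h'.z0
  have hw : (w : ℝ) ≠ 0 := by exact_mod_cast h.w0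
  have hw' : (w' : ℝ) ≠ 0 := by exact_mod_cast h'.w0
  obtain ⟨LM, hLM⟩ : ∃ LM, LM = max (Real.log (rt m u : ℝ)) (Real.log (rt m u' : ℝ)) := ⟨_, rfl⟩
  obtain ⟨LW, hLW⟩ : ∃ LW, LW = max (Real.log |(w : ℝ)|) (Real.log |(w' : ℝ)|) := ⟨_, rfl⟩
  obtain ⟨LZ, hLZ⟩ : ∃ LZ, LZ = max (Real.log (z : ℝ)) (Real.log (z' : ℝ)) := ⟨_, rfl⟩
  obtain ⟨LF, hLF⟩ : ∃ LF, LF = Real.log |(rt m u : ℝ) * z' - (rt m u' : ℝ) * z| := ⟨_, rfl⟩
  have cM : LM = Real.log (rt m u : ℝ) ∨ LM = Real.log (rt m u' : ℝ) := by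
    rw [hLM]; exact max_choice _ _
  have cW : LW = Real.log |(w : ℝ)| ∨ LW = Real.log |(w' : ℝ)| := by
    rw [hLW]; exact max_choice _ _
  have cZ : LZ = Real.log (z : ℝ) ∨ LZ = Real.log (z' : ℝ) := by
    rw [hLZ]; exact max_choice _ _
  have hLW0 : 0 ≤ LW := by
    rw [hLW]
    refine le_trans (Real.log_nonneg ?_) (le_max_left _ _)
    exact_mod_cast Int.one_le_abs h.w0
  have l2 : Real.log 2 ≤ 1 := by
    have := Real.log_le_sub_one_of_pos (by norm_num : (0 : ℝ) < 2); linarith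
  have l20 : 0 ≤ Real.log 2 := Real.log_nonneg (by norm_num)
  have l3 : Real.log 3 ≤ 2 := by
    have := Real.log_le_sub_one_of_pos (by norm_num : (0 : ℝ) < 3); linarith
  -- the two alternatives
  have main : ((1 / (m : ℝ) + δ) * LW + LM - 2 * e ≤ X + LF) ∨
      (δ * LW + LM + LZ - 3 * e ≤ X + LF) := by
    rcases Gap_cases h.w0 h'.w0 h.z0 h'.z0 hL hL' hS.one with ⟨hZ, hc, hc'⟩ | ⟨hZ, hc, hc'⟩
    · left
      have h1 := Gap_D hd hm h h' hL.1 hL'.1 (Or.inl hZ) hS hF hN1 hN2 hc hc' cM cW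
      rw [← hX, ← he, ← hLF, hZ] at h1
      have h2 : cm ∅ (z : ℤ) (z' : ℤ) = 1 := Finset.prod_empty
      rw [h2, Nat.cast_one, Real.log_one] at h1
      linarith
    · right
      have h1 := Gap_D hd hm h h' hL.1 hL'.1 (Or.inr hZ) hS hF hN1 hN2 hc hc' cM cW
      rw [← hX, ← he, ← hLF] at h1
      have hpZ : ∀ p ∈ Z, p.Prime := by
        intro p hp; rw [hZ.1] at hp; exact Divis_prime hp
      have h2 := Gap_cm_ge hpZ hN3
      have e1 : wt Z (z : ℤ) = Real.log (z : ℝ) := by rw [hZ.1, Gap_log_z h.z0]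
      have e2 : wt Z (z' : ℤ) = Real.log (z' : ℝ) := by rw [hZ.2, Gap_log_z h'.z0]
      rw [e1, e2, ← he] at h2
      have h3 : LZ - e ≤ Real.log (cm Z (z : ℤ) (z' : ℤ) : ℝ) := by
        rcases cZ with h4 | h4
        · rw [h4]; exact h2.1
        · rw [h4]; exact h2.2
      linarith
  obtain ⟨mi, hmi⟩ : ∃ mi, mi = 1 / (m : ℝ) := ⟨_, rfl⟩
  have hmi0 : 0 < mi := by rw [hmi]; positivity
  have hmi1 : mi ≤ 1 / 2 := by
    rw [hmi]; exact one_div_le_one_div_of_le (by norm_num) hm2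
  have hmim : mi * m = 1 := by rw [hmi]; field_simp
  rw [← hmi] at main
  by_cases hb : 2 * |w| ≤ |u|
  · have hb' := hS.bit.1 hb
    obtain ⟨t1, t2⟩ := Gap_true h hb
    obtain ⟨t1', t2'⟩ := Gap_true h' hb'
    have hLWl : LW ≤ l := by rw [hLW]; exact max_le (by linarith) (by linarith)
    have hB : l - e - Real.log 2 ≤ m * Real.log (z : ℝ) := by linarith
    have hB' : l - e - Real.log 2 ≤ m * Real.log (z' : ℝ) := by linarith
    have h1 := Gap_F2 (by omega) hU hU' hz hz' (Gap_eq h h' hS) hw hw' hFr hB hB'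
    rw [← hLF, ← hLW, ← hLM, ← hmi] at h1
    have h2 : mi * (l - e - Real.log 2) ≤ LZ := by
      have h3 : Real.log (z : ℝ) ≤ LZ := by rw [hLZ]; exact le_max_left _ _
      have h4 := mul_le_mul_of_nonneg_left hB hmi0.le
      rw [← mul_assoc, hmim, one_mul] at h4
      linarith
    rcases main with h3 | h3
    · -- (1 - mi) * (l - e - log 2) ≤ X + log 2 + (1 - mi - δ) * LW + 2 e
      have h4 : (1 - mi - δ) * LW ≤ (1 - mi - δ) * l :=
        mul_le_mul_of_nonneg_left hLWl (by linarith)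
      have h5 : mi * (e + Real.log 2) ≥ 0 := by positivity
      linarith
    · have h4 : (1 - δ) * LW ≤ (1 - δ) * l := mul_le_mul_of_nonneg_left hLWl (by linarith)
      nlinarith
  · have hb' : ¬ 2 * |w'| ≤ |u'| := fun h1 => hb (hS.bit.2 h1)
    obtain ⟨t1, t2⟩ := Gap_false h hb
    obtain ⟨t1', t2'⟩ := Gap_false h' hb'
    have h1 := Gap_F hU hU' hz hz' hFr
    rw [← hLF, ← hLM, ← hLZ] at h1
    have h0 : Real.log |(w : ℝ)| ≤ LW := by rw [hLW]; exact le_max_left _ _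
    have h0' : Real.log |(w' : ℝ)| ≤ LW := by rw [hLW]; exact le_max_right _ _
    have h2 : m * LZ ≤ 2 + LW := by
      rcases cZ with h4 | h4
      · rw [h4]; linarith
      · rw [h4]; linarith
    have h3 : LZ ≤ mi * (2 + LW) := by
      have h4 := mul_le_mul_of_nonneg_left h2 hmi0.le
      rw [← mul_assoc, hmim, one_mul] at h4
      exact h4
    have h4 : l - e - 1 ≤ LW := by linarith
    have h5 : δ * (l - e - 1) ≤ δ * LW := mul_le_mul_of_nonneg_left h4 hδ.le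
    have h6 : δ * e ≤ 1 / 4 * e := mul_le_mul_of_nonneg_right hδ4 he0
    rcases main with h7 | h7
    · linarith
    · linarith

end Pool.Agent.TH876.PW
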