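import Mathlib
import Pool.Agent.TH876.PW.Def

set_option autoImplicit false

/-!
# Choice of the cheapest option
-/

namespace Pool.Agent.TH876.PW

open Finset

lemma Rads_sol_symm {m : ℕ} {u w : ℤ} {z : ℕ} (h : Sol m u w z) : Sol m w u z :=
  ⟨by rw [add_comm]; exact h.eq, h.w0, h.u0, h.z0, by rw [Int.gcd_comm]; exact h.gcd⟩

lemma Rads_ht_symm (u w : ℤ) : ht u w = ht w u := by
  unfold ht
  rw [max_comm]

lemma Rads_sp_pos {n : ℤ} {p : ℕ} (hp : p ∈ sp n) : (1 : ℝ) ≤ p := by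
  have h : p.Prime := Nat.prime_of_mem_primeFactors hp
  exact_mod_cast h.one_lt.le

lemma Rads_lr_nonneg (n : ℤ) : 0 ≤ lr (sp n) :=
  Finset.sum_nonneg fun _ hp => Real.log_nonneg (Rads_sp_pos hp)

lemma Rads_prime_le {n : ℤ} {X : ℝ} (hX : 1 ≤ X) (h : lr (sp n) ≤ Real.log X) {p : ℕ}
    (hp : p ∈ sp n) : (p : ℝ) ≤ X := by
  have h1 : Real.log p ≤ lr (sp n) :=
    Finset.single_le_sum (f := fun p : ℕ => Real.log p)
      (fun q hq => Real.log_nonneg (Rads_sp_pos hq)) hp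
  have h2 := Rads_sp_pos hp
  exact (Real.log_le_log_iff (by linarith) (by linarith)).1 (h1.trans h)

/-- the cost of an option -/
def Rads_opt (m : ℕ) (δ B : ℝ) (u w : ℤ) (z : ℕ) : Prop :=
  ∃ T Z : Finset ℕ, Large m δ T Z w z ∧ lr (sp u) + lr T + lr Z ≤ B

lemma Rads_main (hco : Core) (m : ℕ) (ε e : ℝ) (hm : 2 ≤ m) (hε : 0 < ε) (he0 : 0 ≤ e)
    (he : e ≤ 3 / 4) : ∃ C : ℝ, 0 < C ∧
  ∀ X y H : ℝ, 1 ≤ X → 1 ≤ y → 1 ≤ H → ∀ F : Finset (ℤ × ℤ × ℕ),
  (∀ x ∈ F, Sol m x.1 x.2.1 x.2.2 ∧ ht x.1 x.2.1 ≤ H ∧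
    (Rads_opt m (min (1 / 4) (ε / 2))
      ((e + min (1 / 4) (ε / 2)) * Real.log X + Real.log (min y X)) x.1 x.2.1 x.2.2 ∨
    Rads_opt m (min (1 / 4) (ε / 2))
      ((e + min (1 / 4) (ε / 2)) * Real.log X + Real.log (min y X)) x.2.1 x.1 x.2.2)) →
  (F.card : ℝ) ≤ C * y * X ^ (e + ε) * (1 + Real.log H) := by
  classical
  set δ : ℝ := min (1 / 4) (ε / 2) with hδ
  have hδ0 : 0 < δ := lt_min (by norm_num) (by positivity)
  have hδ1 : δ ≤ 1 / 4 := min_le_left _ _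
  have hδ2 : δ ≤ ε / 2 := min_le_right _ _
  obtain ⟨C, hC, hcount⟩ := hco m δ (ε / 4) hm hδ0 hδ1 (by positivity)
  refine ⟨2 * C, by positivity, fun X y H hX hy hH F hF => ?_⟩
  have hX0 : 0 < X := by linarith
  have hy1 : 1 ≤ min y X := le_min hy hX
  have hXe : 1 ≤ X ^ (e + δ) := Real.one_le_rpow hX (by positivity)
  have hR : 1 ≤ min y X * X ^ (e + δ) := one_le_mul_of_one_le_of_one_le hy1 hXe
  have hlog : Real.log (min y X * X ^ (e + δ)) =
      (e + δ) * Real.log X + Real.log (min y X) := by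
    rw [Real.log_mul (by linarith) (by linarith), Real.log_rpow hX0]
    ring
  set B : ℝ := (e + δ) * Real.log X + Real.log (min y X) with hB
  have hH' : 0 ≤ 1 + Real.log H := by
    have := Real.log_nonneg hH
    linarith
  -- the two families
  have h1 := hcount (min y X * X ^ (e + δ)) H hR hH
    (F.filter fun x => Rads_opt m δ B x.1 x.2.1 x.2.2) (fun x hx => by
      rw [mem_filter] at hx
      obtain ⟨h1, h2, -⟩ := hF x hx.1
      rw [hlog]
      exact ⟨h1, h2, hx.2⟩)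
  set sw : ℤ × ℤ × ℕ → ℤ × ℤ × ℕ := fun x => (x.2.1, x.1, x.2.2) with hsw
  have hswi : Function.Injective sw := by
    rintro ⟨a, b, c⟩ ⟨a', b', c'⟩ h
    simp only [hsw, Prod.mk.injEq] at h ⊢
    exact ⟨h.2.1, h.1, h.2.2⟩
  have h2 := hcount (min y X * X ^ (e + δ)) H hR hH
    ((F.filter fun x => ¬ Rads_opt m δ B x.1 x.2.1 x.2.2).image sw) (fun x hx => by
      obtain ⟨x', hx', rfl⟩ := mem_image.1 hx
      rw [mem_filter] at hx'
      obtain ⟨h1, h2, h3⟩ := hF x' hx'.1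
      rw [hlog]
      refine ⟨Rads_sol_symm h1, ?_, h3.resolve_left hx'.2⟩
      rw [Rads_ht_symm]
      exact h2)
  rw [card_image_of_injective _ hswi] at h2
  have h3 : (F.card : ℝ) = ((F.filter fun x => Rads_opt m δ B x.1 x.2.1 x.2.2).card : ℝ) +
      ((F.filter fun x => ¬ Rads_opt m δ B x.1 x.2.1 x.2.2).card : ℝ) := by
    exact_mod_cast (card_filter_add_card_filter_not
      (s := F) (fun x => Rads_opt m δ B x.1 x.2.1 x.2.2)).symm
  -- the size of the bound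
  have h4 : (min y X * X ^ (e + δ)) ^ (1 + ε / 4) ≤ y * X ^ (e + ε) := by
    have hm0 : 0 < min y X := by linarith
    rw [Real.mul_rpow hm0.le (by positivity), ← Real.rpow_mul hX0.le, Real.rpow_add hm0,
      Real.rpow_one]
    have h5 : (min y X) ^ (ε / 4) ≤ X ^ (ε / 4) :=
      Real.rpow_le_rpow hm0.le (min_le_right _ _) (by positivity)
    have h6 : min y X ≤ y := min_le_left _ _
    calc min y X * min y X ^ (ε / 4) * X ^ ((e + δ) * (1 + ε / 4))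
        ≤ y * X ^ (ε / 4) * X ^ ((e + δ) * (1 + ε / 4)) := by gcongr
      _ = y * X ^ (ε / 4 + (e + δ) * (1 + ε / 4)) := by
          rw [mul_assoc, ← Real.rpow_add hX0]
      _ ≤ y * X ^ (e + ε) := by
          refine mul_le_mul_of_nonneg_left ?_ (by linarith)
          refine Real.rpow_le_rpow_of_exponent_le hX ?_
          nlinarith
  have h5 : C * (min y X * X ^ (e + δ)) ^ (1 + ε / 4) * (1 + Real.log H) ≤
      C * (y * X ^ (e + ε)) * (1 + Real.log H) := by gcongr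
  rw [h3]
  calc _ ≤ C * (y * X ^ (e + ε)) * (1 + Real.log H) +
        C * (y * X ^ (e + ε)) * (1 + Real.log H) := add_le_add (h1.trans h5) (h2.trans h5)
    _ = _ := by ring

/-- the option without the primes of `z` -/
lemma Rads_opt_empty (hch : Choose) {m : ℕ} {δ Y B : ℝ} {u w : ℤ} {z : ℕ} (hm : 2 ≤ m)
    (hδ0 : 0 < δ) (hδ1 : δ ≤ 1 / 4) (hw : w ≠ 0) (hY : 1 ≤ Y) (hp : ∀ p ∈ sp w, (p : ℝ) ≤ Y)
    (hB : lr (sp u) + (1 / m + δ) * lr (sp w) + Real.log Y ≤ B) : Rads_opt m δ B u w z := by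
  have hm' : (2 : ℝ) ≤ m := by exact_mod_cast hm
  have h1 : 1 / (m : ℝ) ≤ 1 / 2 := one_div_le_one_div_of_le (by norm_num) hm'
  have h2 : 0 < 1 / (m : ℝ) := by positivity
  obtain ⟨T, hT, hT1, hT2⟩ := hch w (1 / m + δ) Y hw (by positivity) (by linarith) hY hp
  refine ⟨T, ∅, ⟨hT, Or.inl ⟨rfl, hT1⟩⟩, ?_⟩
  have h3 : lr (∅ : Finset ℕ) = 0 := by simp [lr]
  rw [h3]
  linarith

/-- the option with the primes of `z` -/
lemma Rads_opt_all (hch : Choose) {m : ℕ} {δ Y B : ℝ} {u w : ℤ} {z : ℕ}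
    (hδ0 : 0 < δ) (hδ1 : δ ≤ 1 / 4) (hw : w ≠ 0) (hY : 1 ≤ Y) (hp : ∀ p ∈ sp w, (p : ℝ) ≤ Y)
    (hB : lr (sp u) + δ * lr (sp w) + lr (sp (z : ℤ)) + Real.log Y ≤ B) :
    Rads_opt m δ B u w z := by
  obtain ⟨T, hT, hT1, hT2⟩ := hch w δ Y hw hδ0.le (by linarith) hY hp
  refine ⟨T, sp (z : ℤ), ⟨hT, Or.inr ⟨rfl, hT1⟩⟩, ?_⟩
  linarith

/-- the exponent for two radicals -/
lemma Rads_two {m : ℕ} {δ a b L : ℝ} (hm : 2 ≤ m) (hδ0 : 0 < δ) (ha : 0 ≤ a) (hab : a ≤ b)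
    (hL : a + b ≤ L) : a + (1 / m + δ) * b ≤ (((m : ℝ) + 1) / (2 * m) + δ) * L := by
  have hm' : (2 : ℝ) ≤ m := by exact_mod_cast hm
  have h1 : 1 / (m : ℝ) ≤ 1 / 2 := one_div_le_one_div_of_le (by norm_num) hm'
  have h2 : 0 < 1 / (m : ℝ) := by positivity
  have h3 : ((m : ℝ) + 1) / (2 * m) = (1 + 1 / m) / 2 := by
    field_simp
  rw [h3]
  set r : ℝ := 1 / (m : ℝ)
  have h4 : δ * b ≤ δ * L := mul_le_mul_of_nonneg_left (by linarith) hδ0.le
  nlinarith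

/-- the exponent for three radicals -/
lemma Rads_three {m : ℕ} {δ a b c L : ℝ} (hm : 2 ≤ m) (hδ0 : 0 < δ) (ha : 0 ≤ a) (hab : a ≤ b)
    (hL : a + b + c ≤ L) (hc : 0 ≤ c) (h : ((m : ℝ) + 1) / (2 * m + 1) * L < a + c) :
    a + (1 / m + δ) * b ≤ (((m : ℝ) + 1) / (2 * m + 1) + δ) * L := by
  have hm' : (2 : ℝ) ≤ m := by exact_mod_cast hm
  have hm0 : (0 : ℝ) < m := by linarith
  have h4 : δ * b ≤ δ * L := mul_le_mul_of_nonneg_left (by linarith) hδ0.le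
  have h5 : b ≤ (m : ℝ) / (2 * m + 1) * L := by
    have h6 : ((m : ℝ) + 1) / (2 * m + 1) * L + (m : ℝ) / (2 * m + 1) * L = L := by
      field_simp
      ring
    linarith
  have h7 : (1 + 1 / (m : ℝ)) * b ≤ (1 + 1 / (m : ℝ)) * ((m : ℝ) / (2 * m + 1) * L) :=
    mul_le_mul_of_nonneg_left h5 (by positivity)
  have h8 : (1 + 1 / (m : ℝ)) * ((m : ℝ) / (2 * m + 1) * L) =
      ((m : ℝ) + 1) / (2 * m + 1) * L := by
    field_simp
  rw [h8] at h7
  nlinarith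

theorem twoRad (hco : Core) (hch : Choose) : TwoRad := by
  intro m ε hm hε
  have hm' : (2 : ℝ) ≤ m := by exact_mod_cast hm
  have he : ((m : ℝ) + 1) / (2 * m) ≤ 3 / 4 := by
    rw [div_le_div_iff₀ (by positivity) (by norm_num)]
    linarith
  obtain ⟨C, hC, hmain⟩ := Rads_main hco m ε (((m : ℝ) + 1) / (2 * m)) hm hε (by positivity) he
  refine ⟨C, hC, fun X y H hX hy hH F hF => hmain X y H hX hy hH F fun x hx => ?_⟩
  obtain ⟨h1, h2, h3, h4, h5⟩ := hF x hx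
  refine ⟨h1, h2, ?_⟩
  have hδ0 : 0 < min (1 / 4) (ε / 2) := lt_min (by norm_num) (by positivity)
  have hδ1 : min (1 / 4) (ε / 2) ≤ 1 / 4 := min_le_left _ _
  have ha := Rads_lr_nonneg x.1
  have hb := Rads_lr_nonneg x.2.1
  have hp1 : ∀ p ∈ sp x.1, (p : ℝ) ≤ min y X := fun p hp =>
    le_min (h4 p hp) (Rads_prime_le hX (by linarith) hp)
  have hp2 : ∀ p ∈ sp x.2.1, (p : ℝ) ≤ min y X := fun p hp =>
    le_min (h5 p hp) (Rads_prime_le hX (by linarith) hp)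
  have hY : 1 ≤ min y X := le_min hy hX
  rcases le_total (lr (sp x.1)) (lr (sp x.2.1)) with hab | hab
  · left
    refine Rads_opt_empty hch hm hδ0 hδ1 h1.w0 hY hp2 ?_
    have := Rads_two hm hδ0 ha hab h3
    linarith
  · right
    refine Rads_opt_empty hch hm hδ0 hδ1 h1.u0 hY hp1 ?_
    have := Rads_two hm hδ0 hb hab (L := Real.log X) (by linarith)
    linarith

theorem threeRad (hco : Core) (hch : Choose) : ThreeRad := by
  intro m ε hm hε
  have hm' : (2 : ℝ) ≤ m := by exact_mod_cast hm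
  have he : ((m : ℝ) + 1) / (2 * m + 1) ≤ 3 / 4 := by
    rw [div_le_div_iff₀ (by positivity) (by norm_num)]
    linarith
  obtain ⟨C, hC, hmain⟩ :=
    Rads_main hco m ε (((m : ℝ) + 1) / (2 * m + 1)) hm hε (by positivity) he
  refine ⟨C, hC, fun X y H hX hy hH F hF => hmain X y H hX hy hH F fun x hx => ?_⟩
  obtain ⟨h1, h2, h3, h4, h5⟩ := hF x hx
  refine ⟨h1, h2, ?_⟩
  have hδ0 : 0 < min (1 / 4) (ε / 2) := lt_min (by norm_num) (by positivity)
  have hδ1 : min (1 / 4) (ε / 2) ≤ 1 / 4 := min_le_left _ _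
  have ha := Rads_lr_nonneg x.1
  have hb := Rads_lr_nonneg x.2.1
  have hc := Rads_lr_nonneg (x.2.2 : ℤ)
  have hp1 : ∀ p ∈ sp x.1, (p : ℝ) ≤ min y X := fun p hp =>
    le_min (h4 p hp) (Rads_prime_le hX (by linarith) hp)
  have hp2 : ∀ p ∈ sp x.2.1, (p : ℝ) ≤ min y X := fun p hp =>
    le_min (h5 p hp) (Rads_prime_le hX (by linarith) hp)
  have hY : 1 ≤ min y X := le_min hy hX
  rcases le_total (lr (sp x.1)) (lr (sp x.2.1)) with hab | hab
  · left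
    by_cases hac : ((m : ℝ) + 1) / (2 * m + 1) * Real.log X < lr (sp x.1) + lr (sp (x.2.2 : ℤ))
    · refine Rads_opt_empty hch hm hδ0 hδ1 h1.w0 hY hp2 ?_
      have := Rads_three hm hδ0 ha hab h3 hc hac
      linarith
    · refine Rads_opt_all hch hδ0 hδ1 h1.w0 hY hp2 ?_
      have h6 : min (1 / 4) (ε / 2) * lr (sp x.2.1) ≤ min (1 / 4) (ε / 2) * Real.log X :=
        mul_le_mul_of_nonneg_left (by linarith) hδ0.le
      linarith
  · right
    by_cases hac : ((m : ℝ) + 1) / (2 * m + 1) * Real.log X < lr (sp x.2.1) + lr (sp (x.2.2 : ℤ))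
    · refine Rads_opt_empty hch hm hδ0 hδ1 h1.u0 hY hp1 ?_
      have := Rads_three hm hδ0 hb hab (L := Real.log X) (c := lr (sp (x.2.2 : ℤ)))
        (by linarith) hc hac
      linarith
    · refine Rads_opt_all hch hδ0 hδ1 h1.u0 hY hp1 ?_
      have h6 : min (1 / 4) (ε / 2) * lr (sp x.1) ≤ min (1 / 4) (ε / 2) * Real.log X :=
        mul_le_mul_of_nonneg_left (by linarith) hδ0.le
      linarith

end Pool.Agent.TH876.PW
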