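import Mathlib
import Pool.Agent.TH876.PW.Def

set_option autoImplicit false

namespace Pool.Agent.TH876.PW

open Finset

/-- the product of the distinct primes dividing `Δ(W)` (the conductor3 if `gcd(c₄, Δ) = 1`) -/
def conductor3 (W : WeierstrassCurve ℤ) : ℕ := ∏ p ∈ W.Δ.natAbs.primeFactors, p

/-- the pairs `(c₄, c₆)` of the integral Weierstrass curves with `Δ ≠ 0`, `gcd(c₄, Δ) = 1` and the
property `P`, conductor3 at most `X`, no bad primes larger than `y` and `log |Δ| ≤ H` -/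
def Curves3 (P : WeierstrassCurve ℤ → Prop) (X y H : ℝ) : Set (ℤ × ℤ) :=
  {q | ∃ W : WeierstrassCurve ℤ, W.Δ ≠ 0 ∧ IsCoprime W.c₄ W.Δ ∧ P W ∧ q = (W.c₄, W.c₆) ∧
    (conductor3 W : ℝ) ≤ X ∧ (∀ p ∈ W.Δ.natAbs.primeFactors, (p : ℝ) ≤ y) ∧
    Real.log |(W.Δ : ℝ)| ≤ H}

/-- there is a rational point of order 3 -/
def HasThreeTorsion (W : WeierstrassCurve ℤ) : Prop :=
  ∃ x y : ℚ, y ^ 2 + W.a₁ * x * y + W.a₃ * y = x ^ 3 + W.a₂ * x ^ 2 + W.a₄ * x + W.a₆ ∧
    3 * x ^ 4 + W.b₂ * x ^ 3 + 3 * W.b₄ * x ^ 2 + 3 * W.b₆ * x + W.b₈ = 0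

/-! ### Integrality -/

private lemma three_quad (q : ℚ) (b c : ℤ) (h : q ^ 2 + b * q + c = 0) : ∃ n : ℤ, q = n := by
  have hq : IsIntegral ℤ q := by
    refine ⟨Polynomial.X ^ 2 + Polynomial.C b * Polynomial.X + Polynomial.C c, ?_, ?_⟩
    · monicity!
    · simp only [Polynomial.eval₂_add, Polynomial.eval₂_mul, Polynomial.eval₂_pow,
        Polynomial.eval₂_X, Polynomial.eval₂_C]
      simpa using h
  obtain ⟨n, hn⟩ := IsIntegrallyClosed.isIntegral_iff.1 hq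
  exact ⟨n, by rw [← hn]; simp⟩

private lemma three_quart (q : ℚ) (b c d e : ℤ) (h : q ^ 4 + b * q ^ 3 + c * q ^ 2 + d * q + e = 0) :
    ∃ n : ℤ, q = n := by
  have hq : IsIntegral ℤ q := by
    refine ⟨Polynomial.X ^ 4 + Polynomial.C b * Polynomial.X ^ 3 +
      Polynomial.C c * Polynomial.X ^ 2 + Polynomial.C d * Polynomial.X + Polynomial.C e, ?_, ?_⟩
    · monicity!
    · simp only [Polynomial.eval₂_add, Polynomial.eval₂_mul, Polynomial.eval₂_pow,
        Polynomial.eval₂_X, Polynomial.eval₂_C]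
      simpa using h
  obtain ⟨n, hn⟩ := IsIntegrallyClosed.isIntegral_iff.1 hq
  exact ⟨n, by rw [← hn]; simp⟩

private lemma three_int_point (W : WeierstrassCurve ℤ) (h : HasThreeTorsion W) :
    ∃ x y : ℤ, y ^ 2 + W.a₁ * x * y + W.a₃ * y = x ^ 3 + W.a₂ * x ^ 2 + W.a₄ * x + W.a₆ ∧
      3 * x ^ 4 + W.b₂ * x ^ 3 + 3 * W.b₄ * x ^ 2 + 3 * W.b₆ * x + W.b₈ = 0 := by
  obtain ⟨x, y, h1, h2⟩ := h
  obtain ⟨t, ht⟩ := three_quart (3 * x) W.b₂ (9 * W.b₄) (27 * W.b₆) (27 * W.b₈) (by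
    push_cast
    linear_combination 27 * h2)
  have hx : x = t / 3 := by rw [← ht]; ring
  -- the square
  obtain ⟨z, hz⟩ := three_quad (9 * (2 * y + W.a₁ * x + W.a₃)) 0
    (-(3 * (4 * t ^ 3 + 3 * W.b₂ * t ^ 2 + 18 * W.b₄ * t + 27 * W.b₆))) (by
    have e : ((t : ℚ)) = 3 * x := ht.symm
    push_cast
    rw [e]
    unfold WeierstrassCurve.b₂ WeierstrassCurve.b₄ WeierstrassCurve.b₆
    push_cast
    linear_combination 324 * h1)
  have hz2 : z ^ 2 = 3 * (4 * t ^ 3 + 3 * W.b₂ * t ^ 2 + 18 * W.b₄ * t + 27 * W.b₆) := by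
    have e : ((t : ℚ)) = 3 * x := ht.symm
    have : (z : ℚ) ^ 2 = 3 * (4 * t ^ 3 + 3 * W.b₂ * t ^ 2 + 18 * W.b₄ * t + 27 * W.b₆) := by
      rw [← hz, e]
      unfold WeierstrassCurve.b₂ WeierstrassCurve.b₄ WeierstrassCurve.b₆
      push_cast
      linear_combination 324 * h1
    exact_mod_cast this
  have hp3 : Prime (3 : ℤ) := Int.prime_three
  have h3z : (3 : ℤ) ∣ z := hp3.dvd_of_dvd_pow (Dvd.intro _ hz2.symm)
  obtain ⟨z', rfl⟩ := h3z
  have h3t : (3 : ℤ) ∣ t := by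
    have h4 : (3 : ℤ) ∣ 4 * t ^ 3 :=
      ⟨z' ^ 2 - (W.b₂ * t ^ 2 + 6 * W.b₄ * t + 9 * W.b₆), by linarith [hz2]⟩
    rcases hp3.dvd_or_dvd h4 with h5 | h5
    · norm_num at h5
    · exact hp3.dvd_of_dvd_pow h5
  obtain ⟨x', rfl⟩ := h3t
  have hx' : x = x' := by rw [hx]; push_cast; ring
  subst hx'
  obtain ⟨y', hy'⟩ := three_quad y (W.a₁ * x' + W.a₃)
    (-(x' ^ 3 + W.a₂ * x' ^ 2 + W.a₄ * x' + W.a₆)) (by
    push_cast
    linear_combination h1)
  subst hy'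
  exact ⟨x', y', by exact_mod_cast h1, by exact_mod_cast h2⟩

/-! ### The normal form -/

private lemma three_normal (W : WeierstrassCurve ℤ) (hΔ : W.Δ ≠ 0) (h : HasThreeTorsion W) :
    ∃ a b : ℤ, W.c₄ = a * (a ^ 3 - 24 * b) ∧ W.c₆ = -a ^ 6 + 36 * a ^ 3 * b - 216 * b ^ 2 ∧
      W.Δ = b ^ 3 * (a ^ 3 - 27 * b) := by
  obtain ⟨x, y, h1, h2⟩ := three_int_point W h
  obtain ⟨A1, hA1⟩ : ∃ A1, A1 = W.a₁ := ⟨_, rfl⟩
  obtain ⟨A2, hA2⟩ : ∃ A2, A2 = W.a₂ + 3 * x := ⟨_, rfl⟩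
  obtain ⟨A3, hA3⟩ : ∃ A3, A3 = W.a₃ + W.a₁ * x + 2 * y := ⟨_, rfl⟩
  obtain ⟨A4, hA4⟩ : ∃ A4, A4 = W.a₄ + 2 * W.a₂ * x + 3 * x ^ 2 - W.a₁ * y := ⟨_, rfl⟩
  have ha6 : W.a₆ = y ^ 2 + W.a₁ * x * y + W.a₃ * y - x ^ 3 - W.a₂ * x ^ 2 - W.a₄ * x := by
    linarith [h1]
  have hR : A4 ^ 2 + A1 * A3 * A4 - A2 * A3 ^ 2 = 0 := by
    rw [hA1, hA2, hA3, hA4]
    have h2' := h2
    unfold WeierstrassCurve.b₂ WeierstrassCurve.b₄ WeierstrassCurve.b₆ WeierstrassCurve.b₈ at h2'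
    rw [ha6] at h2'
    linear_combination -h2'
  have hc4 : W.c₄ = (A1 ^ 2 + 4 * A2) ^ 2 - 24 * (2 * A4 + A1 * A3) := by
    rw [hA1, hA2, hA3, hA4]
    unfold WeierstrassCurve.c₄ WeierstrassCurve.b₂ WeierstrassCurve.b₄
    ring
  have hc6 : W.c₆ = -(A1 ^ 2 + 4 * A2) ^ 3 + 36 * (A1 ^ 2 + 4 * A2) * (2 * A4 + A1 * A3) -
      216 * A3 ^ 2 := by
    rw [hA1, hA2, hA3, hA4]
    unfold WeierstrassCurve.c₆ WeierstrassCurve.b₂ WeierstrassCurve.b₄ WeierstrassCurve.b₆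
    rw [ha6]
    ring
  have hD : W.Δ = -(A1 ^ 2 + 4 * A2) ^ 2 * (-A1 * A3 * A4 + A2 * A3 ^ 2 - A4 ^ 2) -
      8 * (2 * A4 + A1 * A3) ^ 3 - 27 * (A3 ^ 2) ^ 2 +
      9 * (A1 ^ 2 + 4 * A2) * (2 * A4 + A1 * A3) * A3 ^ 2 := by
    rw [hA1, hA2, hA3, hA4]
    unfold WeierstrassCurve.Δ WeierstrassCurve.b₂ WeierstrassCurve.b₄ WeierstrassCurve.b₆
      WeierstrassCurve.b₈
    rw [ha6]
    ring
  have hA3 : A3 ≠ 0 := by
    intro h0
    rw [h0] at hR
    have h4 : A4 = 0 := by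
      have : A4 ^ 2 = 0 := by linarith [hR]
      exact pow_eq_zero_iff (by norm_num) |>.1 this
    apply hΔ
    rw [hD, h0, h4]
    ring
  obtain ⟨l, hl⟩ := three_quad ((A4 : ℚ) / A3) A1 (-A2) (by
    have h3 : (A3 : ℚ) ≠ 0 := by exact_mod_cast hA3
    have hR' : (A4 : ℚ) ^ 2 + A1 * A3 * A4 - A2 * A3 ^ 2 = 0 := by exact_mod_cast hR
    push_cast
    field_simp
    linear_combination hR')
  have hl4 : A4 = l * A3 := by
    have h3 : (A3 : ℚ) ≠ 0 := by exact_mod_cast hA3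
    rw [div_eq_iff h3] at hl
    exact_mod_cast hl
  have hl2 : A2 = l ^ 2 + A1 * l := by
    rw [hl4] at hR
    have : A3 ^ 2 * (l ^ 2 + A1 * l - A2) = 0 := by linarith [hR]
    rcases mul_eq_zero.1 this with h5 | h5
    · exact absurd (pow_eq_zero_iff (by norm_num) |>.1 h5) hA3
    · linarith
  refine ⟨A1 + 2 * l, A3, ?_, ?_, ?_⟩
  · rw [hc4, hl4, hl2]; ring
  · rw [hc6, hl4, hl2]; ring
  · rw [hD, hl4, hl2]; ring

/-! ### The solutions -/

/-- the solutions that arise -/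
private def threeSols (X y H : ℝ) : Set (ℤ × ℤ × ℕ) :=
  {x | Sol 3 x.1 x.2.1 x.2.2 ∧ ht x.1 x.2.1 ≤ H + 26 ∧
    lr (sp x.1) + lr (sp x.2.1) ≤ Real.log (3 * X) ∧
    (∀ p ∈ sp x.1, (p : ℝ) ≤ 3 * y) ∧ ∀ p ∈ sp x.2.1, (p : ℝ) ≤ 3 * y}

/-- the invariants of the curve of a solution -/
private def threeInv (s : ℤ × (ℤ × ℤ × ℕ)) : ℤ × ℤ :=
  ((s.1 * s.2.2.2) * ((s.1 * s.2.2.2) ^ 3 - 24 * (s.1 * s.2.1 / 27)),
    -(s.1 * s.2.2.2) ^ 6 + 36 * (s.1 * s.2.2.2) ^ 3 * (s.1 * s.2.1 / 27) -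
      216 * (s.1 * s.2.1 / 27) ^ 2)

private lemma three_lr_nonneg (T : Finset ℕ) : 0 ≤ lr T :=
  Finset.sum_nonneg fun _ _ => Real.log_natCast_nonneg _

private lemma three_lr_mono {S T : Finset ℕ} (h : S ⊆ T) : lr S ≤ lr T :=
  Finset.sum_le_sum_of_subset_of_nonneg h fun _ _ _ => Real.log_natCast_nonneg _

private lemma three_lr_union (S T : Finset ℕ) : lr (S ∪ T) ≤ lr S + lr T := by
  unfold lr
  have := Finset.sum_union_inter (s₁ := S) (s₂ := T) (f := fun p : ℕ => Real.log p)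
  have h2 := three_lr_nonneg (S ∩ T)
  unfold lr at h2
  linarith

private lemma three_sp_neg (n : ℤ) : sp (-n) = sp n := by
  unfold sp; rw [Int.natAbs_neg]

private lemma three_log_cond (W : WeierstrassCurve ℤ) : Real.log (conductor3 W) = lr (sp W.Δ) := by
  unfold conductor3 lr sp
  push_cast
  rw [Real.log_prod]
  intro p hp
  have := (Nat.prime_of_mem_primeFactors hp).pos
  positivity

private lemma three_mem (X y H : ℝ) (hX : 1 ≤ X) (hy : 1 ≤ y) (q : ℤ × ℤ)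
    (hq : q ∈ Curves3 HasThreeTorsion X y H) :
    ∃ s ∈ ({1, -1} : Set ℤ) ×ˢ threeSols X y H, threeInv s = q := by
  obtain ⟨W, hΔ, hco, hT, hqW, hcond, hbad, hH⟩ := hq
  obtain ⟨a, b, hc4, hc6, hD⟩ := three_normal W hΔ hT
  rw [hc4, hD] at hco
  have hab : IsCoprime a b := by
    have := hco.of_mul_left_left.of_mul_right_left
    exact (IsCoprime.pow_right_iff (by norm_num)).1 this
  have haw : IsCoprime a (a ^ 3 - 27 * b) := hco.of_mul_left_left.of_mul_right_right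
  have hp3 : Prime (3 : ℤ) := Int.prime_three
  have h3a : ¬ (3 : ℤ) ∣ a := by
    intro h3
    have h4 : (3 : ℤ) ∣ a ^ 3 - 27 * b := by
      apply dvd_sub
      · exact dvd_pow h3 (by norm_num)
      · exact ⟨9 * b, by ring⟩
    have := haw.isUnit_of_dvd' h3 h4
    exact hp3.not_isUnit this
  have ha0 : a ≠ 0 := by rintro rfl; exact h3a (dvd_zero _)
  have hDne : b ^ 3 * (a ^ 3 - 27 * b) ≠ 0 := by rw [← hD]; exact hΔ
  have hb0 : b ≠ 0 := by rintro rfl; apply hDne; ring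
  obtain ⟨w0, hw0⟩ : ∃ w0, w0 = a ^ 3 - 27 * b := ⟨_, rfl⟩
  rw [← hw0] at haw hD hDne
  have hw0ne : w0 ≠ 0 := by rintro rfl; apply hDne; ring
  have h27 : IsCoprime (27 * b) w0 := by
    have h1 : IsCoprime (3 : ℤ) a := (Int.prime_three.coprime_iff_not_dvd).2 h3a
    have h2 : IsCoprime (27 : ℤ) (a ^ 3) := by
      have : (27 : ℤ) = 3 ^ 3 := by norm_num
      rw [this]
      exact h1.pow
    have h3 : IsCoprime b (a ^ 3) := hab.symm.pow_right
    have h4 : IsCoprime (27 * b) (a ^ 3) := h2.mul_left h3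
    have h5 := h4.add_mul_left_right (-1)
    rw [hw0]
    have e : a ^ 3 + 27 * b * -1 = a ^ 3 - 27 * b := by ring
    rwa [e] at h5
  have hbw : IsCoprime b w0 := h27.of_mul_left_right
  -- the radicals
  have hspb : sp b ⊆ sp W.Δ := by
    unfold sp
    apply Nat.primeFactors_mono
    · rw [hD]; exact Int.natAbs_dvd_natAbs.2 ⟨b ^ 2 * w0, by ring⟩
    · exact Int.natAbs_ne_zero.2 hΔ
  have hspw : sp w0 ⊆ sp W.Δ := by
    unfold sp
    apply Nat.primeFactors_mono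
    · rw [hD]; exact Int.natAbs_dvd_natAbs.2 ⟨b ^ 3, by ring⟩
    · exact Int.natAbs_ne_zero.2 hΔ
  have hsp27 : sp (27 * b) = {3} ∪ sp b := by
    unfold sp
    rw [Int.natAbs_mul, Nat.primeFactors_mul (by norm_num) (Int.natAbs_ne_zero.2 hb0)]
    congr 1
    have : (27 : ℤ).natAbs = 3 ^ 3 := by norm_num
    rw [this, Nat.primeFactors_prime_pow (by norm_num) Nat.prime_three]
  have hdisj : Disjoint (sp b) (sp w0) := by
    unfold sp
    apply Nat.Coprime.disjoint_primeFactors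
    exact (Int.isCoprime_iff_gcd_eq_one.1 hbw)
  have hlr : lr (sp (27 * b)) + lr (sp w0) ≤ Real.log (3 * X) := by
    rw [hsp27]
    have h1 := three_lr_union {3} (sp b)
    have h2 : lr ({3} : Finset ℕ) = Real.log 3 := by
      unfold lr; simp
    have h3 : lr (sp b) + lr (sp w0) ≤ lr (sp W.Δ) := by
      have : lr (sp b) + lr (sp w0) = lr (sp b ∪ sp w0) := by
        unfold lr
        rw [Finset.sum_union hdisj]
      rw [this]
      exact three_lr_mono (Finset.union_subset hspb hspw)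
    have h4 : lr (sp W.Δ) ≤ Real.log X := by
      rw [← three_log_cond]
      apply Real.log_le_log _ hcond
      have : 0 < conductor3 W := by
        unfold conductor3
        exact Finset.prod_pos fun p hp => (Nat.prime_of_mem_primeFactors hp).pos
      exact_mod_cast this
    rw [Real.log_mul (by norm_num) (by linarith)]
    linarith
  have hpr1 : ∀ p ∈ sp (27 * b), (p : ℝ) ≤ 3 * y := by
    intro p hp
    rw [hsp27, Finset.mem_union, Finset.mem_singleton] at hp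
    rcases hp with rfl | hp
    · push_cast; linarith
    · have := hbad p (hspb hp)
      linarith
  have hpr2 : ∀ p ∈ sp w0, (p : ℝ) ≤ 3 * y := by
    intro p hp
    have := hbad p (hspw hp)
    linarith
  -- the height
  have hht : Real.log (max |((27 * b : ℤ) : ℝ)| |(w0 : ℝ)|) ≤ H + 26 := by
    have hb1 : (1 : ℝ) ≤ |(b : ℝ)| := by exact_mod_cast Int.one_le_abs hb0
    have hw1 : (1 : ℝ) ≤ |(w0 : ℝ)| := by exact_mod_cast Int.one_le_abs hw0ne
    have hDr : |(W.Δ : ℝ)| = |(b : ℝ)| ^ 3 * |(w0 : ℝ)| := by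
      rw [hD]; push_cast; rw [abs_mul, abs_pow]
    have hb3 : |(b : ℝ)| ≤ |(b : ℝ)| ^ 3 := by
      nlinarith [mul_nonneg (abs_nonneg (b : ℝ)) (sub_nonneg.2 hb1), sq_nonneg (|(b : ℝ)|)]
    have h1 : |(b : ℝ)| ≤ |(W.Δ : ℝ)| := by
      rw [hDr]
      calc |(b : ℝ)| ≤ |(b : ℝ)| ^ 3 := hb3
        _ = |(b : ℝ)| ^ 3 * 1 := by ring
        _ ≤ _ := mul_le_mul_of_nonneg_left hw1 (by positivity)
    have h2 : |(w0 : ℝ)| ≤ |(W.Δ : ℝ)| := by
      rw [hDr]
      calc |(w0 : ℝ)| = 1 * |(w0 : ℝ)| := by ring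
        _ ≤ _ := mul_le_mul_of_nonneg_right (hb1.trans hb3) (by positivity)
    have h3 : max |((27 * b : ℤ) : ℝ)| |(w0 : ℝ)| ≤ 27 * |(W.Δ : ℝ)| := by
      apply max_le
      · push_cast
        rw [abs_mul, abs_of_pos (by norm_num : (0 : ℝ) < 27)]
        linarith
      · have := abs_nonneg (W.Δ : ℝ)
        linarith
    have hpos : 0 < max |((27 * b : ℤ) : ℝ)| |(w0 : ℝ)| := lt_of_lt_of_le (by linarith)
      (le_max_right _ _)
    have hDpos : 0 < |(W.Δ : ℝ)| := by linarith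
    have h4 := Real.log_le_log hpos h3
    rw [Real.log_mul (by norm_num) hDpos.ne'] at h4
    have h5 := Real.log_le_sub_one_of_pos (by norm_num : (0 : ℝ) < 27)
    linarith
  rcases lt_or_gt_of_ne ha0 with hneg | hpos
  · refine ⟨(-1, (-(27 * b), -w0, a.natAbs)), ⟨by simp, ?_, ?_, ?_, ?_, ?_⟩, ?_⟩
    · refine ⟨?_, ?_, ?_, ?_, ?_⟩
      · simp only
        have : ((a.natAbs : ℕ) : ℤ) = -a := by omega
        rw [this, hw0]; ring
      · simpa using hb0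
      · simpa using hw0ne
      · exact Int.natAbs_pos.2 ha0
      · simp only
        rw [Int.gcd_neg, Int.neg_gcd]
        rw [Int.isCoprime_iff_gcd_eq_one.1 h27]
        norm_num
    · unfold ht
      simp only
      have e1 : |((-(27 * b) : ℤ) : ℝ)| = |((27 * b : ℤ) : ℝ)| := by
        rw [Int.cast_neg, abs_neg]
      have e2 : |((-w0 : ℤ) : ℝ)| = |(w0 : ℝ)| := by
        rw [Int.cast_neg, abs_neg]
      rw [e1, e2]
      exact hht
    · simp only
      rw [three_sp_neg, three_sp_neg]; exact hlr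
    · simp only
      rw [three_sp_neg]; exact hpr1
    · simp only
      rw [three_sp_neg]; exact hpr2
    · have e1 : ((a.natAbs : ℕ) : ℤ) = -a := by omega
      have e2 : (-1 : ℤ) * -(27 * b) / 27 = b := by
        rw [show (-1 : ℤ) * -(27 * b) = 27 * b by ring]
        exact Int.mul_ediv_cancel_left b (by norm_num)
      unfold threeInv
      simp only
      rw [e2, e1, hqW, hc4, hc6]
      congr 1 <;> ring
  · refine ⟨(1, (27 * b, w0, a.natAbs)), ⟨by simp, ?_, ?_, ?_, ?_, ?_⟩, ?_⟩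
    · refine ⟨?_, ?_, ?_, ?_, ?_⟩
      · simp only
        have : ((a.natAbs : ℕ) : ℤ) = a := by omega
        rw [this, hw0]; ring
      · simpa using hb0
      · simpa using hw0ne
      · exact Int.natAbs_pos.2 ha0
      · simp only
        rw [Int.isCoprime_iff_gcd_eq_one.1 h27]
        norm_num
    · exact hht
    · exact hlr
    · exact hpr1
    · exact hpr2
    · have e1 : ((a.natAbs : ℕ) : ℤ) = a := by omega
      have e2 : (1 : ℤ) * (27 * b) / 27 = b := by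
        rw [one_mul]
        exact Int.mul_ediv_cancel_left b (by norm_num)
      unfold threeInv
      simp only
      rw [e2, e1, hqW, hc4, hc6]
      congr 1 <;> ring

/-- semistable curves with a rational point of order three -/
theorem three (h2 : TwoRad) (ε : ℝ) (hε : 0 < ε) : ∃ C : ℝ, ∀ X y H : ℝ, 1 ≤ X → 1 ≤ y → 1 ≤ H →
    (Curves3 HasThreeTorsion X y H).Finite ∧
    ((Curves3 HasThreeTorsion X y H).ncard : ℝ) ≤
      C * y * X ^ ((2 : ℝ) / 3 + ε) * (1 + Real.log H) := by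
  obtain ⟨C, hC, hcount⟩ := h2 3 ε (by norm_num) hε
  have hexp : (((3 : ℕ) : ℝ) + 1) / (2 * (3 : ℕ)) + ε = 2 / 3 + ε := by norm_num
  rw [hexp] at hcount
  refine ⟨2 * (C * 3 * (3 : ℝ) ^ ((2 : ℝ) / 3 + ε) * 27), ?_⟩
  intro X y H hX hy hH
  set M : ℝ := C * (3 * y) * (3 * X) ^ ((2 : ℝ) / 3 + ε) * (1 + Real.log (H + 26)) with hM
  have hF : ∀ F : Finset (ℤ × ℤ × ℕ), (F : Set (ℤ × ℤ × ℕ)) ⊆ threeSols X y H →
      (F.card : ℝ) ≤ M := by
    intro F hF
    apply hcount (3 * X) (3 * y) (H + 26) (by linarith) (by linarith) (by linarith) F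
    intro x hx
    exact hF hx
  have hfin : (threeSols X y H).Finite := by
    by_contra hinf
    obtain ⟨F, hF1, hF2⟩ := Set.Infinite.exists_subset_card_eq hinf (⌊M⌋₊ + 1)
    have h3 := hF F hF1
    rw [hF2] at h3
    have h4 := Nat.lt_floor_add_one M
    push_cast at h3
    linarith
  have hcard : ((threeSols X y H).ncard : ℝ) ≤ M := by
    rw [Set.ncard_eq_toFinset_card _ hfin]
    apply hF
    simp
  have hsub : Curves3 HasThreeTorsion X y H ⊆
      threeInv '' (({1, -1} : Set ℤ) ×ˢ threeSols X y H) := by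
    intro q hq
    exact three_mem X y H hX hy q hq
  have hfin2 : (({1, -1} : Set ℤ) ×ˢ threeSols X y H).Finite := (Set.toFinite _).prod hfin
  refine ⟨(hfin2.image _).subset hsub, ?_⟩
  have h5 : (Curves3 HasThreeTorsion X y H).ncard ≤ 2 * (threeSols X y H).ncard := by
    calc (Curves3 HasThreeTorsion X y H).ncard
        ≤ (threeInv '' (({1, -1} : Set ℤ) ×ˢ threeSols X y H)).ncard :=
          Set.ncard_le_ncard hsub (hfin2.image _)
      _ ≤ (({1, -1} : Set ℤ) ×ˢ threeSols X y H).ncard := Set.ncard_image_le hfin2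
      _ = ({1, -1} : Set ℤ).ncard * (threeSols X y H).ncard := Set.ncard_prod
      _ ≤ 2 * (threeSols X y H).ncard := by
          apply Nat.mul_le_mul_right
          exact (Set.ncard_insert_le 1 {-1}).trans (by rw [Set.ncard_singleton])
  have h6 : ((Curves3 HasThreeTorsion X y H).ncard : ℝ) ≤ 2 * M := by
    have : ((Curves3 HasThreeTorsion X y H).ncard : ℝ) ≤ 2 * ((threeSols X y H).ncard : ℝ) := by
      exact_mod_cast h5
    linarith
  refine h6.trans ?_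
  have hlog : 1 + Real.log (H + 26) ≤ 27 * (1 + Real.log H) := by
    have h7 : Real.log (H + 26) ≤ Real.log (27 * H) :=
      Real.log_le_log (by linarith) (by linarith)
    rw [Real.log_mul (by norm_num) (by linarith)] at h7
    have h8 := Real.log_le_sub_one_of_pos (by norm_num : (0 : ℝ) < 27)
    have h9 : 0 ≤ Real.log H := Real.log_nonneg hH
    linarith
  have hX0 : (0 : ℝ) ≤ X := by linarith
  have hy0 : (0 : ℝ) ≤ y := by linarith
  rw [hM, Real.mul_rpow (by norm_num) hX0]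
  have h10 : 0 ≤ C * (3 * y) * ((3 : ℝ) ^ ((2 : ℝ) / 3 + ε) * X ^ ((2 : ℝ) / 3 + ε)) := by
    positivity
  have h11 := mul_le_mul_of_nonneg_left hlog h10
  calc 2 * (C * (3 * y) * ((3 : ℝ) ^ ((2 : ℝ) / 3 + ε) * X ^ ((2 : ℝ) / 3 + ε)) *
        (1 + Real.log (H + 26)))
      ≤ 2 * (C * (3 * y) * ((3 : ℝ) ^ ((2 : ℝ) / 3 + ε) * X ^ ((2 : ℝ) / 3 + ε)) *
        (27 * (1 + Real.log H))) := by linarith
    _ = _ := by ring

end Pool.Agent.TH876.PW
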