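import Mathlib
import Pool.Agent.H925R.Two.Semi
import Pool.Agent.TH876.PW.Def

set_option autoImplicit false

namespace Pool.Agent.TH876.PW

open Finset

/-- the product of the distinct primes dividing `Δ(W)` (the conductor if `gcd(c₄, Δ) = 1`) -/
def conductor (W : WeierstrassCurve ℤ) : ℕ := ∏ p ∈ W.Δ.natAbs.primeFactors, p

/-- the pairs `(c₄, c₆)` of the integral Weierstrass curves with `Δ ≠ 0`, `gcd(c₄, Δ) = 1` and the
property `P`, conductor at most `X`, no bad primes larger than `y` and `log |Δ| ≤ H` -/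
def Curves (P : WeierstrassCurve ℤ → Prop) (X y H : ℝ) : Set (ℤ × ℤ) :=
  {q | ∃ W : WeierstrassCurve ℤ, W.Δ ≠ 0 ∧ IsCoprime W.c₄ W.Δ ∧ P W ∧ q = (W.c₄, W.c₆) ∧
    (conductor W : ℝ) ≤ X ∧ (∀ p ∈ W.Δ.natAbs.primeFactors, (p : ℝ) ≤ y) ∧
    Real.log |(W.Δ : ℝ)| ≤ H}

/-- there is a rational point of order 2: `4x³ + b₂x² + 2b₄x + b₆` has a rational root -/
def HasTwoTorsion (W : WeierstrassCurve ℤ) : Prop :=
  ∃ r : ℚ, 4 * r ^ 3 + W.b₂ * r ^ 2 + 2 * W.b₄ * r + W.b₆ = 0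

/-- a power of two that is not divisible by `2 ^ 7` -/
theorem Two_pow (n : ℕ) (hn : 0 < n) (h1 : ∀ p : ℕ, p.Prime → p ∣ n → p = 2) (h2 : ¬ 2 ^ 7 ∣ n) :
    ∃ j e : ℕ, j ≤ 3 ∧ e ∣ 2 ∧ n = 4 ^ j * e := by
  obtain ⟨k, hk⟩ : ∃ k, n = 2 ^ k := by
    refine ⟨n.primeFactorsList.length, ?_⟩
    exact Nat.eq_prime_pow_of_unique_prime_dvd hn.ne' (fun {d} hd hdn => h1 d hd hdn)
  have hk6 : k ≤ 6 := by
    by_contra hcon
    push Not at hcon
    apply h2
    rw [hk]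
    exact pow_dvd_pow 2 hcon
  refine ⟨k / 2, 2 ^ (k % 2), by omega, ?_, ?_⟩
  · rcases Nat.mod_two_eq_zero_or_one k with h | h <;> rw [h] <;> norm_num
  · rw [hk, show (4 : ℕ) = 2 ^ 2 by norm_num, ← pow_mul, ← pow_add, Nat.div_add_mod]

/-- the invariants attached to the sign of `A`, the exponent `j` and the solution -/
def Two_mdl (s : ℤ) (j : ℕ) (u : ℤ) (z : ℕ) : ℤ × ℤ :=
  ((s * 2 ^ j * z) ^ 2 - 3 * (4 ^ j * u / 4),
    (s * 2 ^ j * z) * (9 * (4 ^ j * u / 4) - 2 * (s * 2 ^ j * z) ^ 2) / 2)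

/-- a curve gives a solution -/
theorem Two_mem (W : WeierstrassCurve ℤ) (hΔ : W.Δ ≠ 0) (hco : IsCoprime W.c₄ W.Δ)
    (htwo : HasTwoTorsion W) :
    (W.c₆ = 0 ∧ |W.c₄| ≤ 48) ∨
    ∃ (s : ℤ) (j : ℕ) (u w : ℤ) (z : ℕ), (s = 1 ∨ s = -1) ∧ j ≤ 3 ∧ Sol 2 u w z ∧
      Two_mdl s j u z = (W.c₄, W.c₆) ∧ |u| ≤ 4096 * |W.Δ| ∧ |w| ≤ 4096 * |W.Δ| ∧
      sp u ⊆ insert 2 W.Δ.natAbs.primeFactors ∧ sp w ⊆ insert 2 W.Δ.natAbs.primeFactors := by
  classical
  obtain ⟨A, B, e4, e6, eD⟩ := H925R.Two.inv_AB W htwo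
  have hB0 : B ≠ 0 := by
    rintro rfl
    apply hΔ
    have : 256 * W.Δ = 0 := by rw [eD]; ring
    omega
  have hC0 : A ^ 2 - 4 * B ≠ 0 := by
    intro h
    apply hΔ
    have : 256 * W.Δ = 0 := by rw [eD, h]; ring
    omega
  -- common divisors
  have hodd : ∀ p : ℕ, p.Prime → p ≠ 2 → ¬ ((p : ℤ) ∣ A ∧ (p : ℤ) ∣ B) := by
    rintro p hp h2 ⟨hA, hB⟩
    have h1 : (p : ℤ) ∣ W.c₄ := by
      rw [e4]
      exact dvd_sub (hA.pow (by norm_num)) (hB.mul_left 3)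
    have h3 : (p : ℤ) ∣ 256 * W.Δ := by
      rw [eD]
      exact (hB.pow (by norm_num)).mul_right _
    have := hco.isUnit_of_dvd' h1 (H925R.Two.odd_prime_256 hp h2 h3)
    rw [Int.isUnit_iff] at this
    have := hp.two_le
    omega
  have htwo' : ¬ ((2 : ℤ) ^ 4 ∣ A ∧ (2 : ℤ) ^ 5 ∣ B) := by
    rintro ⟨⟨k, hk⟩, ⟨l, hl⟩⟩
    have h1 : (2 : ℤ) ∣ W.c₄ := by
      rw [e4, hk, hl]
      exact ⟨128 * k ^ 2 - 48 * l, by ring⟩
    have h3 : (2 : ℤ) ∣ W.Δ := by
      rw [hk, hl] at eD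
      refine ⟨l ^ 2 * (512 * k ^ 2 - 256 * l), ?_⟩
      have : 256 * W.Δ = 256 * (2 * (l ^ 2 * (512 * k ^ 2 - 256 * l))) := by
        rw [eD]; ring
      exact mul_left_cancel₀ (by norm_num) this
    have := hco.isUnit_of_dvd' h1 h3
    rw [Int.isUnit_iff] at this
    omega
  by_cases hA0 : A = 0
  · -- degenerate case
    left
    have hb : 4 * B.natAbs ≤ 64 := by
      refine H925R.Two.le_64 _ (by have := Int.natAbs_pos.mpr hB0; omega) ?_ ?_
      · intro p hp hpn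
        by_contra h2
        have h4 : p ∣ B.natAbs := by
          have hc : Nat.Coprime p 4 := by
            have : Nat.Coprime p 2 := (Nat.coprime_primes hp Nat.prime_two).mpr h2
            have h4 : Nat.Coprime p (2 ^ 2) := Nat.Coprime.pow_right _ this
            norm_num at h4
            exact h4
          exact hc.dvd_of_dvd_mul_left hpn
        exact hodd p hp h2 ⟨by rw [hA0]; exact dvd_zero _, Int.natCast_dvd.mpr h4⟩
      · intro h
        have h5 : 2 ^ 5 ∣ B.natAbs := by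
          obtain ⟨q, hq⟩ := h
          exact ⟨q, by omega⟩
        have h6 : ((2 ^ 5 : ℕ) : ℤ) ∣ B := Int.natCast_dvd.mpr h5
        exact htwo' ⟨by rw [hA0]; exact dvd_zero _, by exact_mod_cast h6⟩
    constructor
    · rw [hA0] at e6
      have : 2 * W.c₆ = 0 := by rw [e6]; ring
      omega
    · rw [hA0] at e4
      have h1 : W.c₄ = -3 * B := by rw [e4]; ring
      rw [h1]
      have h2 : |B| ≤ 16 := by
        have : ((B.natAbs : ℕ) : ℤ) ≤ 16 := by
          have : B.natAbs ≤ 16 := by omega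
          exact_mod_cast this
        rwa [Int.natCast_natAbs] at this
      rw [abs_mul]
      norm_num
      linarith
  · right
    obtain ⟨G, x, y, z, sB, hsB, hG, hx0, hy0, hz0, hyz, hrel, hGA, hGB, hA2, h4B, hCz⟩ :=
      H925R.Two.triple_of A B hA0 hB0 hC0
    obtain ⟨j, e, hj, he, hGe⟩ : ∃ j e : ℕ, j ≤ 3 ∧ e ∣ 2 ∧ G = 4 ^ j * e := by
      refine Two_pow G hG ?_ ?_
      · intro p hp hpn
        by_contra h2
        have d1 : p ∣ A.natAbs := hp.dvd_of_dvd_pow (hpn.trans hGA)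
        have d2 : p ∣ B.natAbs := by
          have hc : Nat.Coprime p 4 := by
            have : Nat.Coprime p 2 := (Nat.coprime_primes hp Nat.prime_two).mpr h2
            have h4 : Nat.Coprime p (2 ^ 2) := Nat.Coprime.pow_right _ this
            norm_num at h4
            exact h4
          exact hc.dvd_of_dvd_mul_left (hpn.trans hGB)
        exact hodd p hp h2 ⟨Int.natCast_dvd.mpr d1, Int.natCast_dvd.mpr d2⟩
      · intro h
        have d1 : 2 ^ (2 * 4 - 1) ∣ A.natAbs ^ 2 := h.trans hGA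
        have d2 := H925R.Two.pow_dvd_of_sq Nat.prime_two (Int.natAbs_ne_zero.mpr hA0)
          (by norm_num) d1
        have d3 : 2 ^ 5 ∣ B.natAbs := by
          obtain ⟨q, hq⟩ := h.trans hGB
          exact ⟨q, by omega⟩
        have e1 : ((2 ^ 4 : ℕ) : ℤ) ∣ A := Int.natCast_dvd.mpr d2
        have e2 : ((2 ^ 5 : ℕ) : ℤ) ∣ B := Int.natCast_dvd.mpr d3
        exact htwo' ⟨by exact_mod_cast e1, by exact_mod_cast e2⟩
    have he0 : 0 < e := Nat.pos_of_dvd_of_pos he (by norm_num)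
    have h4j : (0 : ℤ) < 4 ^ j := by positivity
    have hGZ : (G : ℤ) = 4 ^ j * e := by rw [hGe]; push_cast; ring
    -- the number `a`
    obtain ⟨a, ha⟩ : (2 : ℤ) ^ j ∣ A := by
      have h1 : ((2 : ℤ) ^ j) ^ 2 ∣ A ^ 2 := by
        rw [hA2, hGZ, ← pow_mul, mul_comm j 2, pow_mul]
        norm_num
        exact ⟨(e : ℤ) * x, by ring⟩
      exact (Int.pow_dvd_pow_iff (by norm_num)).1 h1
    have ha0 : a ≠ 0 := by
      rintro rfl
      exact hA0 (by rw [ha, mul_zero])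
    set u : ℤ := sB * (e * y) with hu
    set w : ℤ := a ^ 2 - u with hw
    have h44 : ((2 : ℤ) ^ j) ^ 2 = 4 ^ j := by
      rw [← pow_mul, mul_comm j 2, pow_mul]; norm_num
    have h4B' : 4 * B = 4 ^ j * u := by
      rw [h4B, hGZ, hu]; ring
    have hCw : A ^ 2 - 4 * B = 4 ^ j * w := by
      rw [h4B', hw, ha, mul_pow, h44]; ring
    have hwabs : |w| = e * z := by
      have h1 : (4 : ℤ) ^ j * |w| = 4 ^ j * (e * z) := by
        have h2 : |(4 : ℤ) ^ j * w| = 4 ^ j * |w| := by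
          rw [abs_mul, abs_of_pos h4j]
        rw [← h2, ← hCw, hCz, hGZ]; ring
      exact mul_left_cancel₀ h4j.ne' h1
    have huabs : |u| = e * y := by
      have e3 : |sB| = 1 := by rcases hsB with h | h <;> rw [h] <;> norm_num
      rw [hu, abs_mul, e3, one_mul]
      exact abs_of_nonneg (by positivity)
    have hunat : u.natAbs = e * y := by
      have : ((u.natAbs : ℕ) : ℤ) = ((e * y : ℕ) : ℤ) := by
        rw [Int.natCast_natAbs, huabs]; push_cast; ring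
      exact_mod_cast this
    have hwnat : w.natAbs = e * z := by
      have : ((w.natAbs : ℕ) : ℤ) = ((e * z : ℕ) : ℤ) := by
        rw [Int.natCast_natAbs, hwabs]; push_cast; ring
      exact_mod_cast this
    have hu0 : u ≠ 0 := by
      rw [← Int.natAbs_ne_zero, hunat]
      positivity
    have hw0 : w ≠ 0 := by
      rw [← Int.natAbs_ne_zero, hwnat]
      positivity
    have hprod : u ^ 2 * w * 64 ^ j = 4096 * W.Δ := by
      have h1 : 16 * (256 * W.Δ) = (4 * B) ^ 2 * (A ^ 2 - 4 * B) := by rw [eD]; ring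
      have h2 : (4096 : ℤ) * W.Δ = 16 * (256 * W.Δ) := by ring
      have h3 : (64 : ℤ) ^ j = 4 ^ j * 4 ^ j * 4 ^ j := by
        rw [← mul_pow, ← mul_pow]; norm_num
      rw [h2, h1, hCw, h4B', h3]
      ring
    have hu2w : |u ^ 2 * w| ≤ 4096 * |W.Δ| := by
      have h1 : |u ^ 2 * w| * 64 ^ j = 4096 * |W.Δ| := by
        have := congrArg abs hprod
        rw [abs_mul, abs_mul (4096 : ℤ), abs_of_pos (by positivity : (0 : ℤ) < 64 ^ j)] at this
        simpa using this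
      have h2 : (1 : ℤ) ≤ 64 ^ j := one_le_pow₀ (by norm_num)
      rw [← h1]
      nlinarith [abs_nonneg (u ^ 2 * w)]
    have hu1 : 1 ≤ |u| := Int.one_le_abs hu0
    have hw1 : 1 ≤ |w| := Int.one_le_abs hw0
    have hub : |u| ≤ 4096 * |W.Δ| := by
      refine le_trans ?_ hu2w
      rw [abs_mul (u ^ 2) w, abs_pow u 2]
      nlinarith [mul_nonneg (abs_nonneg u) (by linarith : (0 : ℤ) ≤ |u| - 1),
        mul_nonneg (sq_nonneg |u|) (by linarith : (0 : ℤ) ≤ |w| - 1)]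
    have hwb : |w| ≤ 4096 * |W.Δ| := by
      refine le_trans ?_ hu2w
      rw [abs_mul (u ^ 2) w, abs_pow u 2]
      nlinarith [mul_nonneg (abs_nonneg w) (by nlinarith : (0 : ℤ) ≤ |u| ^ 2 - 1)]
    -- the primes
    have hsp : ∀ n : ℤ, n ∣ u ^ 2 * w → sp n ⊆ insert 2 W.Δ.natAbs.primeFactors := by
      intro n hn p hp
      have hpp := Nat.prime_of_mem_primeFactors hp
      have hpn := Nat.dvd_of_mem_primeFactors hp
      rw [mem_insert]
      by_cases h2 : p = 2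
      · exact Or.inl h2
      · right
        have h3 : (p : ℤ) ∣ 4096 * W.Δ := by
          rw [← hprod]
          exact ((Int.natCast_dvd.mpr hpn).trans hn).mul_right _
        have h4 : (p : ℤ) ∣ 256 * (16 * W.Δ) := by
          have : (256 : ℤ) * (16 * W.Δ) = 4096 * W.Δ := by ring
          rw [this]; exact h3
        have h5 := H925R.Two.odd_prime_256 hpp h2 h4
        have h6 : (p : ℤ) ∣ 256 * W.Δ := by
          have : (256 : ℤ) * W.Δ = 16 * (16 * W.Δ) := by ring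
          rw [this]; exact h5.mul_left _
        exact Nat.mem_primeFactors.mpr ⟨hpp, Int.natCast_dvd.mp
          (H925R.Two.odd_prime_256 hpp h2 h6), Int.natAbs_ne_zero.mpr hΔ⟩
    obtain ⟨s, hs, hsa⟩ : ∃ s : ℤ, (s = 1 ∨ s = -1) ∧ a = s * |a| := by
      rcases le_total 0 a with h0 | h0
      · exact ⟨1, Or.inl rfl, by rw [abs_of_nonneg h0]; ring⟩
      · exact ⟨-1, Or.inr rfl, by rw [abs_of_nonpos h0]; ring⟩
    have hA' : s * 2 ^ j * (a.natAbs : ℤ) = A := by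
      rw [Int.natCast_natAbs, ha]
      calc s * 2 ^ j * |a| = 2 ^ j * (s * |a|) := by ring
        _ = 2 ^ j * a := by rw [← hsa]
    refine ⟨s, j, u, w, a.natAbs, hs, hj, ⟨?_, hu0, hw0, Int.natAbs_pos.mpr ha0, ?_⟩, ?_, hub, hwb,
      hsp u ⟨u * w, by ring⟩, hsp w ⟨u ^ 2, by ring⟩⟩
    · rw [Int.natCast_natAbs, sq_abs, hw]; ring
    · have : Int.gcd u w = Nat.gcd u.natAbs w.natAbs := rfl
      rw [this, hunat, hwnat, Nat.gcd_mul_left, hyz, mul_one]
      exact he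
    · unfold Two_mdl
      rw [hA', ← h4B', Int.mul_ediv_cancel_left _ (by norm_num : (4 : ℤ) ≠ 0), ← e4, ← e6,
        Int.mul_ediv_cancel_left _ (by norm_num : (2 : ℤ) ≠ 0)]

/-- the sum of the logarithms over two sets of primes with at most the prime 2 in common -/
theorem Two_lr (S S1 S2 : Finset ℕ) (hS : ∀ p ∈ S, p.Prime) (h1 : S1 ⊆ insert 2 S)
    (h2 : S2 ⊆ insert 2 S) (h12 : ∀ p ∈ S1, p ∈ S2 → p = 2) :
    lr S1 + lr S2 ≤ lr S + 2 * Real.log 2 := by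
  classical
  have hl2 : 0 ≤ Real.log 2 := Real.log_nonneg (by norm_num)
  have key : ∀ T : Finset ℕ, lr T ≤ lr (T.erase 2) + Real.log 2 := by
    intro T
    unfold lr
    by_cases h : 2 ∈ T
    · rw [← Finset.sum_erase_add T (fun p : ℕ => Real.log p) h]
      simp
    · rw [Finset.erase_eq_of_notMem h]
      linarith
  have hd : Disjoint (S1.erase 2) (S2.erase 2) := by
    rw [Finset.disjoint_left]
    intro p hp hp'
    rw [mem_erase] at hp hp'
    exact hp.1 (h12 p hp.2 hp'.2)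
  have hsub : (S1.erase 2) ∪ (S2.erase 2) ⊆ S := by
    intro p hp
    rw [mem_union, mem_erase, mem_erase] at hp
    rcases hp with ⟨a, b⟩ | ⟨a, b⟩
    · exact (mem_insert.1 (h1 b)).resolve_left a
    · exact (mem_insert.1 (h2 b)).resolve_left a
  have h3 : lr (S1.erase 2) + lr (S2.erase 2) ≤ lr S := by
    unfold lr
    rw [← Finset.sum_union hd]
    apply Finset.sum_le_sum_of_subset_of_nonneg hsub
    intro p hp _
    exact Real.log_nonneg (by exact_mod_cast (hS p hp).one_le)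
  linarith [key S1, key S2]

/-- the sum of the logarithms is the logarithm of the conductor -/
theorem Two_lr_cond (W : WeierstrassCurve ℤ) :
    lr W.Δ.natAbs.primeFactors = Real.log (conductor W : ℝ) := by
  unfold lr conductor
  rw [Nat.cast_prod, Real.log_prod]
  intro p hp
  exact_mod_cast (Nat.prime_of_mem_primeFactors hp).ne_zero

/-- a curve gives a solution in the range of the count -/
theorem Two_cond {W : WeierstrassCurve ℤ} (hΔ : W.Δ ≠ 0) {X y H : ℝ} (hX : 1 ≤ X)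
    (hy : 1 ≤ y) (hH : 1 ≤ H) (hc : (conductor W : ℝ) ≤ X)
    (hp : ∀ p ∈ W.Δ.natAbs.primeFactors, (p : ℝ) ≤ y) (hh : Real.log |(W.Δ : ℝ)| ≤ H)
    {u w : ℤ} {z : ℕ} (hs : Sol 2 u w z) (hu : |u| ≤ 4096 * |W.Δ|) (hw : |w| ≤ 4096 * |W.Δ|)
    (h1 : sp u ⊆ insert 2 W.Δ.natAbs.primeFactors) (h2 : sp w ⊆ insert 2 W.Δ.natAbs.primeFactors) :
    ht u w ≤ 10 * H ∧ lr (sp u) + lr (sp w) ≤ Real.log (4 * X) ∧
      (∀ p ∈ sp u, (p : ℝ) ≤ 2 * y) ∧ ∀ p ∈ sp w, (p : ℝ) ≤ 2 * y := by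
  have hΔR : (0 : ℝ) < |(W.Δ : ℝ)| := abs_pos.2 (by exact_mod_cast hΔ)
  have hb : ∀ S : Finset ℕ, S ⊆ insert 2 W.Δ.natAbs.primeFactors → ∀ p ∈ S, (p : ℝ) ≤ 2 * y := by
    intro S hS p hpS
    rcases mem_insert.1 (hS hpS) with h | h
    · rw [h]; push_cast; linarith
    · exact (hp p h).trans (by linarith)
  refine ⟨?_, ?_, hb _ h1, hb _ h2⟩
  · have hu' : |(u : ℝ)| ≤ 4096 * |(W.Δ : ℝ)| := by exact_mod_cast hu
    have hw' : |(w : ℝ)| ≤ 4096 * |(W.Δ : ℝ)| := by exact_mod_cast hw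
    have hu0 : (0 : ℝ) < |(u : ℝ)| := abs_pos.2 (by exact_mod_cast hs.u0)
    unfold ht
    have h3 : Real.log (max |(u : ℝ)| |(w : ℝ)|) ≤ Real.log (4096 * |(W.Δ : ℝ)|) :=
      Real.log_le_log (lt_max_of_lt_left hu0) (max_le hu' hw')
    rw [Real.log_mul (by norm_num) hΔR.ne'] at h3
    have h4 : Real.log 4096 ≤ 9 := by
      have : (4096 : ℝ) = 2 ^ 12 := by norm_num
      rw [this, Real.log_pow]
      have := Real.log_two_lt_d9
      push_cast
      linarith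
    linarith
  · have h3 := Two_lr W.Δ.natAbs.primeFactors (sp u) (sp w)
      (fun p hp => Nat.prime_of_mem_primeFactors hp) h1 h2 (by
        intro p h3 h4
        have hpp := Nat.prime_of_mem_primeFactors h3
        have h5 : p ∣ Int.gcd u w := Nat.dvd_gcd (Nat.dvd_of_mem_primeFactors h3)
          (Nat.dvd_of_mem_primeFactors h4)
        exact (Nat.prime_dvd_prime_iff_eq hpp Nat.prime_two).1 (h5.trans hs.gcd))
    rw [Two_lr_cond] at h3
    have hc1 : (1 : ℝ) ≤ (conductor W : ℝ) := by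
      have : 0 < conductor W :=
        prod_pos (fun p hp => (Nat.prime_of_mem_primeFactors hp).pos)
      exact_mod_cast this
    have h4 : Real.log (conductor W : ℝ) ≤ Real.log X := Real.log_le_log (by linarith) hc
    have h5 : Real.log (4 * X) = 2 * Real.log 2 + Real.log X := by
      rw [Real.log_mul (by norm_num) (by linarith), show (4 : ℝ) = 2 ^ 2 by norm_num, Real.log_pow]
      push_cast
      ring
    linarith

/-- the finite set of solutions -/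
noncomputable def Two_F (X y H : ℝ) : Finset (ℤ × ℤ × ℕ) := by
  classical
  exact (((Icc (-⌊Real.exp H⌋) ⌊Real.exp H⌋) ×ˢ ((Icc (-⌊Real.exp H⌋) ⌊Real.exp H⌋) ×ˢ
    (range (2 * ⌊Real.exp H⌋.toNat + 1))) : Finset (ℤ × ℤ × ℕ))).filter (fun x =>
      Sol 2 x.1 x.2.1 x.2.2 ∧ ht x.1 x.2.1 ≤ H ∧ lr (sp x.1) + lr (sp x.2.1) ≤ Real.log X ∧
      (∀ p ∈ sp x.1, (p : ℝ) ≤ y) ∧ ∀ p ∈ sp x.2.1, (p : ℝ) ≤ y)

theorem Two_F_mem (X y H : ℝ) (x : ℤ × ℤ × ℕ) : x ∈ Two_F X y H ↔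
    (Sol 2 x.1 x.2.1 x.2.2 ∧ ht x.1 x.2.1 ≤ H ∧ lr (sp x.1) + lr (sp x.2.1) ≤ Real.log X ∧
      (∀ p ∈ sp x.1, (p : ℝ) ≤ y) ∧ ∀ p ∈ sp x.2.1, (p : ℝ) ≤ y) := by
  classical
  unfold Two_F
  rw [mem_filter]
  refine ⟨fun h => h.2, fun h => ⟨?_, h⟩⟩
  obtain ⟨hs, hh, -⟩ := h
  obtain ⟨u, w, z⟩ := x
  simp only at hs hh ⊢
  have hu0 : (0 : ℝ) < |(u : ℝ)| := abs_pos.2 (by exact_mod_cast hs.u0)
  have hmax : max |(u : ℝ)| |(w : ℝ)| ≤ Real.exp H := by
    unfold ht at hh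
    exact (Real.log_le_iff_le_exp (lt_max_of_lt_left hu0)).1 hh
  have hu : |u| ≤ ⌊Real.exp H⌋ := Int.le_floor.2 (by
    push_cast; exact (le_max_left _ _).trans hmax)
  have hw : |w| ≤ ⌊Real.exp H⌋ := Int.le_floor.2 (by
    push_cast; exact (le_max_right _ _).trans hmax)
  have hz : (z : ℤ) ≤ 2 * ⌊Real.exp H⌋ := by
    have h1 := hs.eq
    have h2 : (1 : ℤ) ≤ z := by exact_mod_cast hs.z0
    have h3 := (abs_le.1 hu).2
    have h4 := (abs_le.1 hw).2
    nlinarith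
  have h0 : 0 ≤ ⌊Real.exp H⌋ := (abs_nonneg u).trans hu
  rw [mem_product, mem_product, mem_Icc, mem_Icc, mem_range]
  refine ⟨⟨(abs_le.1 hu).1, (abs_le.1 hu).2⟩, ⟨(abs_le.1 hw).1, (abs_le.1 hw).2⟩, ?_⟩
  simp only
  omega

/-- semistable curves with a rational point of order two -/
theorem two (h2 : TwoRad) (ε : ℝ) (hε : 0 < ε) : ∃ C : ℝ, ∀ X y H : ℝ, 1 ≤ X → 1 ≤ y → 1 ≤ H →
    (Curves HasTwoTorsion X y H).Finite ∧
    ((Curves HasTwoTorsion X y H).ncard : ℝ) ≤ C * y * X ^ ((3 : ℝ) / 4 + ε) * (1 + Real.log H) := by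
  classical
  obtain ⟨C1, hC1, h1⟩ := h2 2 ε le_rfl hε
  refine ⟨97 + 8 * (C1 * 2 * 4 ^ ((3 : ℝ) / 4 + ε) * 4), fun X y H hX hy hH => ?_⟩
  have hX0 : 0 < X := by linarith
  have hlH : 0 ≤ Real.log H := Real.log_nonneg hH
  obtain ⟨F, hF⟩ : ∃ F, F = Two_F (4 * X) (2 * y) (10 * H) := ⟨_, rfl⟩
  have hcard := h1 (4 * X) (2 * y) (10 * H) (by linarith) (by linarith) (by linarith) F
    (fun x hx => (Two_F_mem _ _ _ x).1 (hF ▸ hx))
  obtain ⟨Sg, hSg⟩ : ∃ S : Finset ℤ, S = {1, -1} := ⟨_, rfl⟩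
  have hSgcard : Sg.card ≤ 2 := by rw [hSg]; exact card_le_two
  obtain ⟨Z, hZ⟩ : ∃ Z : Finset (ℤ × ℤ), Z = (Icc (-(48 : ℤ)) 48) ×ˢ ({0} : Finset ℤ) := ⟨_, rfl⟩
  have hZcard : Z.card = 97 := by
    rw [hZ, card_product, card_singleton, mul_one, Int.card_Icc]
    rfl
  obtain ⟨g, hg⟩ : ∃ g : (ℤ × ℕ) × (ℤ × ℤ × ℕ) → ℤ × ℤ,
      g = fun v => Two_mdl v.1.1 v.1.2 v.2.1 v.2.2.2 := ⟨_, rfl⟩
  have hsub : Curves HasTwoTorsion X y H ⊆
      ((Z ∪ ((Sg ×ˢ range 4) ×ˢ F).image g : Finset (ℤ × ℤ)) : Set (ℤ × ℤ)) := by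
    intro q hq
    obtain ⟨W, hΔ, hco, htwo, hqe, hc, hp, hh⟩ := hq
    rw [hqe, mem_coe, mem_union]
    rcases Two_mem W hΔ hco htwo with ⟨h3, h4⟩ | ⟨s, j, u, w, z, hs, hj, hsol, hm, hu, hw, hpu, hpw⟩
    · left
      rw [hZ, mem_product, mem_Icc, mem_singleton]
      exact ⟨abs_le.mp h4, h3⟩
    · right
      rw [mem_image]
      refine ⟨((s, j), (u, w, z)), ?_, by rw [hg]; exact hm⟩
      rw [mem_product, mem_product, mem_range]
      refine ⟨⟨?_, Nat.lt_succ_of_le hj⟩, ?_⟩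
      · rw [hSg, mem_insert, mem_singleton]
        exact hs
      · rw [hF, Two_F_mem]
        exact ⟨hsol, Two_cond hΔ hX hy hH hc hp hh hsol hu hw hpu hpw⟩
  have hfin : (Curves HasTwoTorsion X y H).Finite := Set.Finite.subset (Finset.finite_toSet _) hsub
  refine ⟨hfin, ?_⟩
  have c1 : (Curves HasTwoTorsion X y H).ncard ≤ (Z ∪ ((Sg ×ˢ range 4) ×ˢ F).image g).card := by
    rw [← Set.ncard_coe_finset]
    exact Set.ncard_le_ncard hsub (Finset.finite_toSet _)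
  have c2 : (Z ∪ ((Sg ×ˢ range 4) ×ˢ F).image g).card ≤ 97 + 8 * F.card := by
    refine (card_union_le _ _).trans ?_
    rw [hZcard]
    refine Nat.add_le_add_left ?_ _
    refine card_image_le.trans ?_
    rw [card_product, card_product, card_range]
    exact Nat.mul_le_mul_right _ (by omega)
  have c3 : ((Curves HasTwoTorsion X y H).ncard : ℝ) ≤ 97 + 8 * F.card := by
    exact_mod_cast c1.trans c2
  have e1 : (((2 : ℕ) : ℝ) + 1) / (2 * ((2 : ℕ) : ℝ)) + ε = 3 / 4 + ε := by norm_num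
  rw [e1, Real.mul_rpow (by norm_num) hX0.le, Real.log_mul (by norm_num) (by linarith)] at hcard
  have h10 : Real.log 10 ≤ 3 := by
    rw [Real.log_le_iff_le_exp (by norm_num)]
    have := Real.exp_one_gt_d9
    calc (10 : ℝ) ≤ (2.7 : ℝ) ^ 3 := by norm_num
      _ ≤ Real.exp 1 ^ 3 := pow_le_pow_left₀ (by norm_num) (by linarith) 3
      _ = Real.exp 3 := by rw [← Real.exp_nat_mul]; norm_num
  have hXp : (1 : ℝ) ≤ X ^ ((3 : ℝ) / 4 + ε) := Real.one_le_rpow hX (by positivity)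
  set P : ℝ := X ^ ((3 : ℝ) / 4 + ε) with hP
  set Q : ℝ := (4 : ℝ) ^ ((3 : ℝ) / 4 + ε) with hQ
  have hQ0 : 0 < Q := by positivity
  have h5 : 1 + (Real.log 10 + Real.log H) ≤ 4 * (1 + Real.log H) := by linarith
  have h6 : (F.card : ℝ) ≤ C1 * 2 * Q * 4 * (y * P * (1 + Real.log H)) := by
    refine hcard.trans ?_
    calc C1 * (2 * y) * (Q * P) * (1 + (Real.log 10 + Real.log H))
        ≤ C1 * (2 * y) * (Q * P) * (4 * (1 + Real.log H)) :=
          mul_le_mul_of_nonneg_left h5 (by positivity)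
      _ = _ := by ring
  have h7 : (1 : ℝ) ≤ y * P * (1 + Real.log H) := by
    have h8 : (1 : ℝ) ≤ y * P := by nlinarith
    nlinarith
  calc ((Curves HasTwoTorsion X y H).ncard : ℝ) ≤ 97 + 8 * F.card := c3
    _ ≤ 97 * (y * P * (1 + Real.log H)) +
        8 * (C1 * 2 * Q * 4 * (y * P * (1 + Real.log H))) := by linarith
    _ = _ := by ring

end Pool.Agent.TH876.PW
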