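import Mathlib
import Pool.Agent.TH876.PW.Def

set_option autoImplicit false

namespace Pool.Agent.TH876.PW

open Finset

private lemma vanish_fact (m : ℕ) (u : ℤ) (p : ℕ) :
    (rt m u).factorization p = if p ∈ sp u then vl p u / m else 0 := by
  unfold rt
  rw [Nat.factorization_prod (fun q hq => by
    have hq' : q.Prime := Nat.prime_of_mem_primeFactors hq
    exact pow_ne_zero _ hq'.ne_zero)]
  rw [Finset.sum_congr rfl (g := fun q => (vl q u / m) • Finsupp.single q 1) (fun q hq => by
    have hq' : q.Prime := Nat.prime_of_mem_primeFactors hq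
    rw [Nat.factorization_pow, hq'.factorization])]
  rw [Finsupp.finsetSum_apply]
  simp only [Finsupp.smul_apply, Finsupp.single_apply, smul_eq_mul, mul_ite, mul_one, mul_zero]
  rw [Finset.sum_ite_eq' (sp u) p]

private lemma vanish_pos (m : ℕ) (u : ℤ) : 0 < rt m u := by
  unfold rt
  refine Finset.prod_pos fun q hq => ?_
  have hq' : q.Prime := Nat.prime_of_mem_primeFactors hq
  exact pow_pos hq'.pos _

private lemma vanish_cop {m : ℕ} (hm : 2 ≤ m) {u w : ℤ} {z : ℕ} (h : Sol m u w z) :
    Nat.Coprime (rt m u) z := by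
  apply Nat.Coprime.symm
  rw [Nat.coprime_iff_gcd_eq_one]
  by_contra hne
  obtain ⟨p, hp, hpd⟩ := Nat.exists_prime_and_dvd hne
  have hpz : p ∣ z := hpd.trans (Nat.gcd_dvd_left _ _)
  have hpU : p ∣ rt m u := hpd.trans (Nat.gcd_dvd_right _ _)
  have h1 : 0 < (rt m u).factorization p :=
    hp.factorization_pos_of_dvd (vanish_pos m u).ne' hpU
  rw [vanish_fact] at h1
  split_ifs at h1 with hps
  · have h2 : m ≤ vl p u := by
      by_contra hlt
      rw [Nat.div_eq_of_lt (not_le.1 hlt)] at h1
      exact lt_irrefl _ h1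
    have h3 : p ^ 2 ∣ u.natAbs := by
      refine (Nat.pow_dvd_pow p (hm.trans h2)).trans ?_
      exact Nat.ordProj_dvd _ _
    have h3' : ((p ^ 2 : ℕ) : ℤ) ∣ u := by
      rw [← Int.natAbs_dvd_natAbs, Int.natAbs_natCast]; exact h3
    have h4 : ((p ^ 2 : ℕ) : ℤ) ∣ (z : ℤ) ^ m := by
      have : p ^ 2 ∣ z ^ m := (Nat.pow_dvd_pow p hm).trans (pow_dvd_pow_of_dvd hpz m)
      exact_mod_cast this
    have h5 : ((p ^ 2 : ℕ) : ℤ) ∣ w := by
      have e : w = (z : ℤ) ^ m - u := by rw [← h.eq]; ring
      rw [e]; exact dvd_sub h4 h3'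
    have h6 : p ^ 2 ∣ Int.gcd u w := by
      have := Int.dvd_coe_gcd h3' h5
      exact_mod_cast this
    have h7 := Nat.le_of_dvd (by norm_num) (h6.trans h.gcd)
    have h8 := hp.two_le
    nlinarith
  · exact lt_irrefl _ h1

theorem vanish : Vanish := by
  intro m hm T u w z u' w' z' h h' hs h0
  have hc := vanish_cop hm h
  have hc' := vanish_cop hm h'
  have e : rt m u * z' = rt m u' * z := by
    have : (rt m u : ℤ) * z' = (rt m u' : ℤ) * z := by linarith
    exact_mod_cast this
  have hU : rt m u = rt m u' := by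
    apply Nat.dvd_antisymm
    · exact hc.dvd_of_dvd_mul_right (e ▸ Dvd.intro _ rfl)
    · exact hc'.dvd_of_dvd_mul_right (e ▸ Dvd.intro _ rfl)
  have hz : z = z' := by
    rw [hU] at e
    exact (Nat.eq_of_mul_eq_mul_left (vanish_pos m u') e).symm
  have hv : ∀ p, vl p u = vl p u' := by
    intro p
    by_cases hp : p ∈ sp u
    · have h1 : vl p u / m = vl p u' / m := by
        have h2 := vanish_fact m u p
        have h3 := vanish_fact m u' p
        rw [if_pos hp] at h2
        rw [if_pos (hs.sup ▸ hp)] at h3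
        rw [← h2, ← h3, hU]
      have h2 := hs.exp p hp
      rw [← Nat.div_add_mod (vl p u) m, ← Nat.div_add_mod (vl p u') m, h1, h2]
    · have hp' : p ∉ sp u' := hs.sup ▸ hp
      have h1 : vl p u = 0 := by
        unfold vl
        exact Finsupp.notMem_support_iff.1 (by rwa [Nat.support_factorization])
      have h2 : vl p u' = 0 := by
        unfold vl
        exact Finsupp.notMem_support_iff.1 (by rwa [Nat.support_factorization])
      rw [h1, h2]
  have habs : u.natAbs = u'.natAbs :=
    Nat.eq_of_factorization_eq (Int.natAbs_ne_zero.2 h.u0) (Int.natAbs_ne_zero.2 h'.u0) hv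
  have hu : u = u' := by
    rw [← Int.sign_mul_natAbs u, ← Int.sign_mul_natAbs u', hs.sgn, habs]
  refine ⟨hu, ?_, hz⟩
  have e1 := h.eq
  have e2 := h'.eq
  rw [hu, hz] at e1
  linarith

end Pool.Agent.TH876.PW
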