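import Mathlib
import Pool.Agent.TH867.SM.Fam
import Pool.Agent.TH876.PW.Def

set_option autoImplicit false

/-!
# Sums of two integers with few primes that are perfect powers

The final statement.
-/

namespace Pool.Agent.TH876.PW

open Finset

/-- the abc triples `(a, b, a + b)`, written `(a, b)`: coprime `1 ≤ a ≤ b`, one of the three members
is the `m`-th power of an integer, the product of the primes dividing `a b (a + b)` is at most `X`,
each of these primes is at most `y` -/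
def triples (m : ℕ) (X y : ℝ) : Set (ℕ × ℕ) :=
  {p | 0 < p.1 ∧ p.1 ≤ p.2 ∧ Nat.Coprime p.1 p.2 ∧
    (∃ z : ℕ, p.1 = z ^ m ∨ p.2 = z ^ m ∨ p.1 + p.2 = z ^ m) ∧
    ((∏ q ∈ (p.1 * p.2 * (p.1 + p.2)).primeFactors, q : ℕ) : ℝ) ≤ X ∧
    ∀ q ∈ (p.1 * p.2 * (p.1 + p.2)).primeFactors, (q : ℝ) ≤ y}

open Pool.Agent.TH867.SR in
private theorem final_tr {m : ℕ} {X y : ℝ} {p : ℕ × ℕ} (hp : p ∈ triples m X y) :
    Tr ![p.1, p.2, p.1 + p.2] ∧
      lr p.1.primeFactors + lr p.2.primeFactors + lr (p.1 + p.2).primeFactors ≤ Real.log X ∧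
      (∀ q ∈ p.1.primeFactors, (q : ℝ) ≤ y) ∧ (∀ q ∈ p.2.primeFactors, (q : ℝ) ≤ y) ∧
      ∀ q ∈ (p.1 + p.2).primeFactors, (q : ℝ) ≤ y := by
  obtain ⟨h1, h2, h3, -, h4, h5⟩ := hp
  have ht : Tr ![p.1, p.2, p.1 + p.2] := ⟨h1, h2, h3, rfl⟩
  have hb : 0 < p.2 := lt_of_lt_of_le h1 h2
  refine ⟨ht, ?_, fun q hq => h5 q ?_, fun q hq => h5 q ?_, fun q hq => h5 q ?_⟩
  · have e := rr_sum ht
    rw [← log_prod_primes fun q hq => Nat.prime_of_mem_primeFactors hq] at e
    have e2 : rr ![p.1, p.2, p.1 + p.2] 0 = lr p.1.primeFactors := rfl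
    have e3 : rr ![p.1, p.2, p.1 + p.2] 1 = lr p.2.primeFactors := rfl
    have e4 : rr ![p.1, p.2, p.1 + p.2] 2 = lr (p.1 + p.2).primeFactors := rfl
    rw [e2, e3, e4] at e
    rw [← e]
    refine Real.log_le_log ?_ h4
    exact_mod_cast Finset.prod_pos fun q hq => (Nat.prime_of_mem_primeFactors hq).pos
  · exact Nat.primeFactors_mono (Dvd.intro _ (by ring : p.1 * (p.2 * (p.1 + p.2)) = _))
      (by positivity) hq
  · exact Nat.primeFactors_mono (Dvd.intro _ (by ring : p.2 * (p.1 * (p.1 + p.2)) = _))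
      (by positivity) hq
  · exact Nat.primeFactors_mono (Dvd.intro_left _ rfl) (by positivity) hq

private theorem final_lr_mono {s t : Finset ℕ} (h : s ⊆ t) (ht : ∀ q ∈ t, q.Prime) :
    lr s ≤ lr t :=
  Finset.sum_le_sum_of_subset_of_nonneg h fun q hq _ =>
    Real.log_nonneg (by exact_mod_cast (ht q hq).one_le)

private theorem final_lr_z {m z a : ℕ} (hm : 2 ≤ m) (ha : 0 < a) (h : a = z ^ m) :
    lr (sp (z : ℤ)) ≤ lr a.primeFactors := by
  refine final_lr_mono ?_ fun q hq => Nat.prime_of_mem_primeFactors hq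
  rw [sp, Int.natAbs_natCast, h]
  exact (Nat.primeFactors_pow z (by omega : m ≠ 0)).ge

private theorem final_height {m : ℕ} {X y : ℝ} (hX : 1 ≤ X) {p : ℕ × ℕ}
    (hp : p ∈ triples m X y) :
    Real.log ((p.1 + p.2 : ℕ) : ℝ) ≤ Real.exp (3000 * (1 + Real.log X) ^ 6) := by
  obtain ⟨h, h1, -⟩ := final_tr hp
  exact Pool.Agent.TH867.SM.height_le h hX h1

private theorem final_finite {m : ℕ} {X y : ℝ} (hX : 1 ≤ X) : (triples m X y).Finite := by
  obtain ⟨H, hH⟩ : ∃ H, H = Real.exp (Real.exp (3000 * (1 + Real.log X) ^ 6)) := ⟨_, rfl⟩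
  refine Set.Finite.subset (Finset.finite_toSet
    ((Finset.range (⌊H⌋₊ + 1)) ×ˢ (Finset.range (⌊H⌋₊ + 1)))) ?_
  intro p hp
  have h5 := final_height hX hp
  have h1 := hp.1
  have h6 : p.1 + p.2 ≤ ⌊H⌋₊ := by
    refine Nat.le_floor ?_
    rw [hH, ← Real.log_le_iff_le_exp (by exact_mod_cast (by omega : 0 < p.1 + p.2))]
    exact h5
  simp only [Finset.coe_product, Finset.coe_range, Set.mem_prod, Set.mem_Iio]
  omega

/-- one of the three sets -/
private theorem final_one (h3 : ThreeRad) (m : ℕ) (ε : ℝ) (hm : 2 ≤ m) (hε : 0 < ε) :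
    ∃ C : ℝ, 0 < C ∧ ∀ X y : ℝ, 1 ≤ X → 1 ≤ y → ∀ (S : Finset (ℕ × ℕ))
      (f : ℕ × ℕ → ℤ × ℤ × ℕ), Set.InjOn f (S : Set (ℕ × ℕ)) →
      (∀ p ∈ S, p ∈ triples m X y) →
      (∀ p ∈ S, Sol m (f p).1 (f p).2.1 (f p).2.2 ∧
        ht (f p).1 (f p).2.1 ≤ Real.log ((p.1 + p.2 : ℕ) : ℝ) ∧
        lr (sp (f p).1) + lr (sp (f p).2.1) + lr (sp ((f p).2.2 : ℤ)) ≤ Real.log X ∧
        (∀ q ∈ sp (f p).1, (q : ℝ) ≤ y) ∧ ∀ q ∈ sp (f p).2.1, (q : ℝ) ≤ y) →
      (S.card : ℝ) ≤ C * y * X ^ (((m : ℝ) + 1) / (2 * m + 1) + ε) := by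
  classical
  obtain ⟨C, hC, hF⟩ := h3 m (ε / 2) hm (by linarith)
  obtain ⟨D, hD, hlog⟩ : ∃ D : ℝ, 0 < D ∧ ∀ X : ℝ, 1 ≤ X →
      1 + 3000 * (1 + Real.log X) ^ 6 ≤ D * X ^ (ε / 2) := by
    obtain ⟨c, hc⟩ : ∃ c, c = 1 + 12 / ε := ⟨_, rfl⟩
    have hc1 : 1 ≤ c := by rw [hc]; have : 0 < 12 / ε := by positivity
                           linarith
    refine ⟨1 + 3000 * c ^ 6, by positivity, fun X hX => ?_⟩
    have hX0 : 0 < X := by linarith
    have hl : 0 ≤ Real.log X := Real.log_nonneg hX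
    obtain ⟨t, ht⟩ : ∃ t, t = X ^ (ε / 12) := ⟨_, rfl⟩
    have ht1 : 1 + ε / 12 * Real.log X ≤ t := by
      rw [ht, Real.rpow_def_of_pos hX0]
      have := Real.add_one_le_exp (Real.log X * (ε / 12))
      linarith
    have ht6 : X ^ (ε / 2) = t ^ 6 := by
      rw [ht, ← Real.rpow_natCast, ← Real.rpow_mul hX0.le]
      congr 1
      push_cast
      ring
    have h1 : 1 + Real.log X ≤ c * t := by
      have h2 : c * (1 + ε / 12 * Real.log X) ≤ c * t :=
        mul_le_mul_of_nonneg_left ht1 (by linarith)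
      have h4 : 0 ≤ ε / 12 * Real.log X := by positivity
      have h3 : 1 + Real.log X ≤ c * (1 + ε / 12 * Real.log X) := by
        have e1 : 12 / ε * (ε / 12 * Real.log X) = Real.log X := by
          field_simp
        have e2 : 0 < 12 / ε := by positivity
        rw [hc]
        nlinarith
      linarith
    have h5 : 1 ≤ t := by
      have h4 : 0 ≤ ε / 12 * Real.log X := by positivity
      linarith
    have h6 : (1 + Real.log X) ^ 6 ≤ (c * t) ^ 6 := pow_le_pow_left₀ (by linarith) h1 6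
    have h7 : 1 ≤ t ^ 6 := one_le_pow₀ h5
    rw [ht6]
    rw [mul_pow] at h6
    nlinarith
  refine ⟨C * D, by positivity, fun X y hX hy S f hf hS hp => ?_⟩
  have hX0 : 0 < X := by linarith
  have hl : 0 ≤ Real.log X := Real.log_nonneg hX
  have h1 := hF X y (Real.exp (3000 * (1 + Real.log X) ^ 6)) hX hy
    (Real.one_le_exp (by positivity)) (S.image f) (by
      intro x hx
      obtain ⟨p, hpS, rfl⟩ := Finset.mem_image.1 hx
      obtain ⟨a1, a2, a3, a4, a5⟩ := hp p hpS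
      exact ⟨a1, a2.trans (final_height hX (hS p hpS)), a3, a4, a5⟩)
  rw [Finset.card_image_of_injOn hf, Real.log_exp] at h1
  refine h1.trans ?_
  have h2 := hlog X hX
  have h3 : 0 < C * y * X ^ (((m : ℝ) + 1) / (2 * m + 1) + ε / 2) := by positivity
  have h4 : X ^ (((m : ℝ) + 1) / (2 * m + 1) + ε) =
      X ^ (((m : ℝ) + 1) / (2 * m + 1) + ε / 2) * X ^ (ε / 2) := by
    rw [← Real.rpow_add hX0]
    congr 1
    ring
  calc C * y * X ^ (((m : ℝ) + 1) / (2 * m + 1) + ε / 2) * (1 + 3000 * (1 + Real.log X) ^ 6)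
      ≤ C * y * X ^ (((m : ℝ) + 1) / (2 * m + 1) + ε / 2) * (D * X ^ (ε / 2)) :=
        mul_le_mul_of_nonneg_left h2 h3.le
    _ = C * D * y * X ^ (((m : ℝ) + 1) / (2 * m + 1) + ε) := by rw [h4]; ring

private theorem final_ht {u w : ℤ} {c : ℕ} (hc : 0 < c) (hu : u ≠ 0) (hu1 : |u| ≤ c)
    (hw1 : |w| ≤ c) : ht u w ≤ Real.log (c : ℝ) := by
  have h1 : |(u : ℝ)| ≤ c := by exact_mod_cast hu1
  have h2 : |(w : ℝ)| ≤ c := by exact_mod_cast hw1
  have h3 : 0 < |(u : ℝ)| := abs_pos.2 (by exact_mod_cast hu)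
  rw [ht]
  exact Real.log_le_log (lt_of_lt_of_le h3 (le_max_left _ _)) (max_le h1 h2)

/-- the final statement -/
theorem final (h3 : ThreeRad) (m : ℕ) (ε : ℝ) (hm : 2 ≤ m) (hε : 0 < ε) :
    ∃ C : ℝ, ∀ X y : ℝ, 1 ≤ X → 1 ≤ y → (triples m X y).Finite ∧
      ((triples m X y).ncard : ℝ) ≤ C * y * X ^ (((m : ℝ) + 1) / (2 * m + 1) + ε) := by
  classical
  obtain ⟨C, hC, hF⟩ := final_one h3 m ε hm hε
  refine ⟨3 * C, fun X y hX hy => ?_⟩
  have hfin : (triples m X y).Finite := final_finite hX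
  refine ⟨hfin, ?_⟩
  have hex : ∀ p : ℕ × ℕ, ∃ z : ℕ × ℕ × ℕ,
      (p ∈ triples m X y → (∃ z, p.1 = z ^ m) → p.1 = z.1 ^ m) ∧
      (p ∈ triples m X y → (∃ z, p.2 = z ^ m) → p.2 = z.2.1 ^ m) ∧
      (p ∈ triples m X y → (∃ z, p.1 + p.2 = z ^ m) → p.1 + p.2 = z.2.2 ^ m) := by
    intro p
    have g1 : ∃ z1 : ℕ, (∃ z, p.1 = z ^ m) → p.1 = z1 ^ m := by
      by_cases h : ∃ z, p.1 = z ^ m
      · obtain ⟨z, hz⟩ := h; exact ⟨z, fun _ => hz⟩
      · exact ⟨0, fun h' => absurd h' h⟩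
    have g2 : ∃ z1 : ℕ, (∃ z, p.2 = z ^ m) → p.2 = z1 ^ m := by
      by_cases h : ∃ z, p.2 = z ^ m
      · obtain ⟨z, hz⟩ := h; exact ⟨z, fun _ => hz⟩
      · exact ⟨0, fun h' => absurd h' h⟩
    have g3 : ∃ z1 : ℕ, (∃ z, p.1 + p.2 = z ^ m) → p.1 + p.2 = z1 ^ m := by
      by_cases h : ∃ z, p.1 + p.2 = z ^ m
      · obtain ⟨z, hz⟩ := h; exact ⟨z, fun _ => hz⟩
      · exact ⟨0, fun h' => absurd h' h⟩
    obtain ⟨z1, g1⟩ := g1
    obtain ⟨z2, g2⟩ := g2
    obtain ⟨z3, g3⟩ := g3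
    exact ⟨(z1, z2, z3), fun _ => g1, fun _ => g2, fun _ => g3⟩
  choose ζ hz1 hz2 hz3 using hex
  obtain ⟨S, hSdef⟩ : ∃ S, S = hfin.toFinset := ⟨_, rfl⟩
  have hS : ∀ p, p ∈ S ↔ p ∈ triples m X y := fun p => by rw [hSdef]; exact hfin.mem_toFinset
  have hcard : ((triples m X y).ncard : ℝ) = S.card := by
    rw [hSdef, Set.ncard_eq_toFinset_card _ hfin]
  -- the three parts
  have k1 := hF X y hX hy (S.filter fun p => ∃ z, p.1 = z ^ m)
    (fun p => (((p.1 + p.2 : ℕ) : ℤ), -(p.2 : ℤ), (ζ p).1))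
    (by
      intro p _ q _ h
      simp only [Prod.mk.injEq, neg_inj, Nat.cast_inj] at h
      exact Prod.ext (by omega) (by omega))
    (fun p hp => (hS p).1 (Finset.mem_filter.1 hp).1)
    (fun p hp => by
      obtain ⟨h1, h2⟩ := Finset.mem_filter.1 hp
      have hT := (hS p).1 h1
      have hz := hz1 p hT h2
      obtain ⟨-, b1, b2, b3, b4⟩ := final_tr hT
      have c1 := hT.1
      have c2 := hT.2.1
      have c3 := hT.2.2.1
      refine ⟨⟨?_, ?_, ?_, ?_, ?_⟩, ?_, ?_, ?_, ?_⟩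
      · simp only
        rw [← Nat.cast_pow, ← hz]
        push_cast
        ring
      · simp only
        omega
      · simp only
        omega
      · simp only
        rcases Nat.eq_zero_or_pos (ζ p).1 with h | h
        · rw [h, zero_pow (by omega)] at hz
          omega
        · exact h
      · simp only [Int.gcd_neg, Int.gcd_natCast_natCast]
        rw [Nat.gcd_add_self_left, Nat.coprime_iff_gcd_eq_one.1 c3]
        exact one_dvd 2
      · exact final_ht (by omega) (by simp only; omega) (by simp only; rw [abs_of_nonneg (by omega)])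
          (by simp only; rw [abs_neg, abs_of_nonneg (by omega)]; omega)
      · simp only [sp, Int.natAbs_neg, Int.natAbs_natCast]
        have := final_lr_z hm c1 hz
        simp only [sp, Int.natAbs_natCast] at this
        linarith
      · simpa only [sp, Int.natAbs_neg, Int.natAbs_natCast] using b4
      · simpa only [sp, Int.natAbs_neg, Int.natAbs_natCast] using b3)
  have k2 := hF X y hX hy (S.filter fun p => ∃ z, p.2 = z ^ m)
    (fun p => (((p.1 + p.2 : ℕ) : ℤ), -(p.1 : ℤ), (ζ p).2.1))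
    (by
      intro p _ q _ h
      simp only [Prod.mk.injEq, neg_inj, Nat.cast_inj] at h
      exact Prod.ext (by omega) (by omega))
    (fun p hp => (hS p).1 (Finset.mem_filter.1 hp).1)
    (fun p hp => by
      obtain ⟨h1, h2⟩ := Finset.mem_filter.1 hp
      have hT := (hS p).1 h1
      have hz := hz2 p hT h2
      obtain ⟨-, b1, b2, b3, b4⟩ := final_tr hT
      have c1 := hT.1
      have c2 := hT.2.1
      have c3 := hT.2.2.1
      refine ⟨⟨?_, ?_, ?_, ?_, ?_⟩, ?_, ?_, ?_, ?_⟩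
      · simp only
        rw [← Nat.cast_pow, ← hz]
        push_cast
        ring
      · simp only
        omega
      · simp only
        omega
      · simp only
        rcases Nat.eq_zero_or_pos (ζ p).2.1 with h | h
        · rw [h, zero_pow (by omega)] at hz
          omega
        · exact h
      · simp only [Int.gcd_neg, Int.gcd_natCast_natCast]
        rw [Nat.gcd_self_add_left, Nat.gcd_comm, Nat.coprime_iff_gcd_eq_one.1 c3]
        exact one_dvd 2
      · exact final_ht (by omega) (by simp only; omega) (by simp only; rw [abs_of_nonneg (by omega)])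
          (by simp only; rw [abs_neg, abs_of_nonneg (by omega)]; omega)
      · simp only [sp, Int.natAbs_neg, Int.natAbs_natCast]
        have := final_lr_z hm (lt_of_lt_of_le c1 c2) hz
        simp only [sp, Int.natAbs_natCast] at this
        linarith
      · simpa only [sp, Int.natAbs_neg, Int.natAbs_natCast] using b4
      · simpa only [sp, Int.natAbs_neg, Int.natAbs_natCast] using b2)
  have k3 := hF X y hX hy (S.filter fun p => ∃ z, p.1 + p.2 = z ^ m)
    (fun p => ((p.1 : ℤ), (p.2 : ℤ), (ζ p).2.2))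
    (by
      intro p _ q _ h
      simp only [Prod.mk.injEq, Nat.cast_inj] at h
      exact Prod.ext (by omega) (by omega))
    (fun p hp => (hS p).1 (Finset.mem_filter.1 hp).1)
    (fun p hp => by
      obtain ⟨h1, h2⟩ := Finset.mem_filter.1 hp
      have hT := (hS p).1 h1
      have hz := hz3 p hT h2
      obtain ⟨-, b1, b2, b3, b4⟩ := final_tr hT
      have c1 := hT.1
      have c2 := hT.2.1
      have c3 := hT.2.2.1
      refine ⟨⟨?_, ?_, ?_, ?_, ?_⟩, ?_, ?_, ?_, ?_⟩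
      · simp only
        rw [← Nat.cast_pow, ← hz]
        push_cast
        ring
      · simp only
        omega
      · simp only
        omega
      · simp only
        rcases Nat.eq_zero_or_pos (ζ p).2.2 with h | h
        · rw [h, zero_pow (by omega)] at hz
          omega
        · exact h
      · simp only [Int.gcd_natCast_natCast]
        rw [Nat.coprime_iff_gcd_eq_one.1 c3]
        exact one_dvd 2
      · exact final_ht (by omega) (by simp only; omega) (by simp only; rw [abs_of_nonneg (by omega)]; omega)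
          (by simp only; rw [abs_of_nonneg (by omega)]; omega)
      · simp only [sp, Int.natAbs_natCast]
        have := final_lr_z hm (by omega) hz
        simp only [sp, Int.natAbs_natCast] at this
        linarith
      · simpa only [sp, Int.natAbs_natCast] using b2
      · simpa only [sp, Int.natAbs_natCast] using b3)
  have hcov : S ⊆ (S.filter fun p => ∃ z, p.1 = z ^ m) ∪ ((S.filter fun p => ∃ z, p.2 = z ^ m) ∪
      (S.filter fun p => ∃ z, p.1 + p.2 = z ^ m)) := by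
    intro p hp
    obtain ⟨-, -, -, ⟨z, hz⟩, -⟩ := (hS p).1 hp
    simp only [Finset.mem_union, Finset.mem_filter]
    rcases hz with hz | hz | hz
    · exact Or.inl ⟨hp, z, hz⟩
    · exact Or.inr (Or.inl ⟨hp, z, hz⟩)
    · exact Or.inr (Or.inr ⟨hp, z, hz⟩)
  have h5 : S.card ≤ (S.filter fun p => ∃ z, p.1 = z ^ m).card +
      ((S.filter fun p => ∃ z, p.2 = z ^ m).card +
        (S.filter fun p => ∃ z, p.1 + p.2 = z ^ m).card) :=
    (Finset.card_le_card hcov).trans ((Finset.card_union_le _ _).trans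
      (Nat.add_le_add_left (Finset.card_union_le _ _) _))
  have h6 : (S.card : ℝ) ≤ ((S.filter fun p => ∃ z, p.1 = z ^ m).card : ℝ) +
      (((S.filter fun p => ∃ z, p.2 = z ^ m).card : ℝ) +
        ((S.filter fun p => ∃ z, p.1 + p.2 = z ^ m).card : ℝ)) := by exact_mod_cast h5
  rw [hcard]
  calc (S.card : ℝ) ≤ _ := h6
    _ ≤ C * y * X ^ (((m : ℝ) + 1) / (2 * m + 1) + ε) +
      (C * y * X ^ (((m : ℝ) + 1) / (2 * m + 1) + ε) +
        C * y * X ^ (((m : ℝ) + 1) / (2 * m + 1) + ε)) := by linarith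
    _ = 3 * C * y * X ^ (((m : ℝ) + 1) / (2 * m + 1) + ε) := by ring

end Pool.Agent.TH876.PW
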